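import Pool.Agent.T2h91.Per
import Pool.Agent.N154.TB.VGeo

/-!
Projective varieties over number fields with a holomorphic map to an abelian variety.
-/

set_option autoImplicit false

open Filter Topology Metric Set LinearAlgebra.Projectivization

namespace Pool.Agent.T2h91

open FF Pool.Agent.Y190.OP Pool.Agent.W602.GT
open Pool.Agent.N154.TB
open Pool.Agent.N154.TT (RiemannForm HolToTorus)
open Pool.Agent.N155 (TX Cv crv_not_general exists_closure val_eval nz nz_Phi)
open Pool.Agent.N154.GG (toProj Phi_rep_toProj proj_ext holP_of kobayashi projDist PunctIn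
  Extends PDisc)

variable {n : ℕ} {ι ι' ι'' : Type} {k : Type} [Field k] [NumberField k]
  {F : ι → MvPolynomial (Fin (n + 1)) k} {P : ι' → MvPolynomial (Fin (n + 1)) k}

omit [NumberField k] in
theorem base_form (σ : k →+* ℂ) (hF : ∀ i, IsForm (F i)) (i : ι) : IsForm (base σ F i) := by
  obtain ⟨d, hd⟩ := hF i
  exact ⟨d, hd.map σ⟩

omit [NumberField k] in
theorem one_form (j : Unit) :
    IsForm ((fun _ : Unit => (1 : MvPolynomial (Fin (n + 1)) k)) j) :=
  ⟨0, MvPolynomial.isHomogeneous_one _ _⟩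

/-- the empty set -/
theorem FewPoints.few (h : FewPoints F) :
    Few F (fun _ : Unit => (1 : MvPolynomial (Fin (n + 1)) k)) := by
  rcases h with h | ⟨τ, h⟩
  · left
    intro L _ _ _
    exact (h L).subset fun x hx => hx.1
  · right
    exact ⟨τ, fun f hf => Or.inl (h f hf)⟩

/-- curves of bounded derivative in sets of dimension at most one -/
theorem FewPoints.degen (h : FewPoints F)
    (hF : ∀ i, IsForm (F i)) (σ : k →+* ℂ) {X : Set (Fin (n + 1) → ℂ)} (hX : DimLeOne X)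
    (hXF : X ⊆ Cone (base σ F)) {f : ℂ → ℙ ℂ (Fin (n + 1) → ℂ)} (hf : CurveIn X f) {B : ℝ}
    (hB : ∀ z, ‖fderiv ℝ (fun z => Phi (f z).rep) z‖ ≤ B) : IsConst f := by
  obtain ⟨κ, Q, hQ, hXQ, hdim⟩ := hX
  set φ : ℂ → Mat (n + 1) := fun z => Phi (f z).rep with hφ
  have hol : HolP univ φ := holP_of hf.1
  obtain ⟨K1, _, _, w, y1, hy1, hgen, hw, hrel, hw0⟩ := exists_closure hol
  have hvan : ∀ G : MvPolynomial (Fin (n + 1)) ℂ, IsForm G → (∀ z, val (f z).rep G = 0) →
      val y1 G = 0 := by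
    intro G hG h0
    rw [hrel G hG]
    intro z
    obtain ⟨d, hd⟩ := hG
    rw [hφ]
    simp only
    rw [nz_Phi hd (f z).rep_nonzero, not_not]
    have := h0 z
    rwa [val_eval] at this
  have hsubQ : SubVar Q K1 w y1 := ⟨hy1, fun j => hvan _ (hQ j) fun z => hXQ _ (hf.2 z) j, hgen, hw⟩
  have hw1 := hdim K1 w y1 hsubQ
  rcases Nat.eq_zero_or_pos w with rfl | hpos
  · intro z z'
    apply proj_ext
    exact (hw0 rfl z).trans (hw0 rfl z').symm
  · exfalso
    obtain rfl : w = 1 := by omega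
    have hmem : ∀ z, φ z ∈ TX y1 := by
      intro z
      refine ⟨(f z).rep, ⟨(f z).rep_nonzero, fun G hG h0 => ?_⟩, rfl⟩
      obtain ⟨d, hd⟩ := id hG
      have h1 := (hrel G hG).1 h0 z
      rw [hφ] at h1
      simp only at h1
      rw [nz_Phi hd (f z).rep_nonzero, not_not] at h1
      rwa [val_eval]
    have hcv : Cv y1 φ := ⟨hol, hmem, fun G hG hv => by
      by_contra hcon
      push Not at hcon
      exact hv ((hrel G hG).2 hcon)⟩
    have hsub : SubVar (base σ F) K1 1 y1 :=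
      ⟨hy1, fun i => hvan _ (base_form σ hF i) fun z => (hXF (hf.2 z)).2 i, hgen, hw⟩
    have h1 := h.few.low hF one_form σ hsub
      (crv_not_general hgen hcv hB) ()
    unfold base val at h1
    rw [map_one, map_one] at h1
    exact one_ne_zero h1

section abel

variable {G : ι'' → MvPolynomial (Fin (n + 1)) ℂ} {d m : ℕ} {L : Submodule ℤ (Fin m → ℂ)}
  {α : (Fin (n + 1) → ℂ) → (Fin m → ℂ) ⧸ L} {H : (Fin m → ℂ) → (Fin m → ℂ) → ℂ}
  {κ : Type} {r : κ → ℕ} {η : κ → (Fin (n + 1) → ℂ) → (Fin (n + 1) → ℂ) → (Fin (n + 1) → ℂ) → ℂ}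

theorem not_const [DiscreteTopology L] {g : ℂ → ℙ ℂ (Fin (n + 1) → ℂ)} (h : OverLine α g) :
    ¬ IsConst g := by
  obtain ⟨v, w, hv, hg⟩ := h
  intro hc
  refine mk_line_ne (L := L) (w := w) hv fun z => ?_
  rw [← hg z, ← hg 0, hc z 0]

/-- the general case -/
theorem abel_main [DiscreteTopology L] [IsZLattice ℝ L] (h : Few F P) (σ : k →+* ℂ)
    (hF : ∀ i, IsForm (F i)) (hP : ∀ j, IsForm (P j))
    (hG : ∀ j, IsForm (G j)) (hB : BrodyHyp (Cone (base σ F) ∩ Zeros G))
    (hη : TwoForms (Cone (base σ F)) (Zeros G) d α r η) (hH : RiemannForm L H)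
    (hα : HolToTorus (Cone (base σ F)) L α) (hfib : HypFibres (Cone (base σ F)) α) :
    BrodyMod (base σ F) (base σ P) ∧
    (∀ f, PunctIn (base σ F) f → Extends (base σ F) f ∨
      ∀ z ∈ PDisc, ∀ j, val (f z).rep (base σ P j) = 0) ∧
    ∀ ε : ℝ, 0 < ε → ∃ c : ℝ, 0 < c ∧ ∀ p q : ℙ ℂ (Fin (n + 1) → ℂ), p.rep ∈ Cone (base σ F) →
      q.rep ∈ Cone (base σ F) → ∀ D : ℝ, 0 ≤ D → D ≤ 1 →
      (∀ x : ℙ ℂ (Fin (n + 1) → ℂ), x.rep ∈ Cone (base σ F) →
        (∀ j, val x.rep (base σ P j) = 0) → D ≤ projDist p x) →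
      ENNReal.ofReal (c * D ^ ε * min D (projDist p q)) ≤ kobayashi (Cone (base σ F)) p q := by
  obtain ⟨S, -, hS, hcurves, hpunct, hkob, -, -⟩ :=
    abel_geo (base_form σ hF) hG hB hη hH hα hfib
  have hSZ : ∀ g ∈ S, ∀ z j, val (g z).rep (base σ P j) = 0 := by
    intro g hg
    obtain ⟨h1, h2, h3⟩ := hS g hg
    exact (h.ell hF hP σ h1 h2).resolve_left (not_const h3)
  refine ⟨fun f hf => ?_, fun f hf => ?_, fun ε hε => ?_⟩
  · rcases hcurves f hf with h1 | ⟨g, hg, s, -, hs⟩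
    · exact Or.inl h1
    · right
      intro z j
      rw [hs z]
      exact hSZ g hg _ j
  · rcases hpunct f hf with h1 | ⟨g, hg, s, -, hs⟩
    · exact Or.inl h1
    · right
      intro z hz j
      have hz0 : z ≠ 0 := hz.2
      have hz1 : (Complex.log z).re < 0 := by
        rw [Complex.log_re]
        refine Real.log_neg (norm_pos_iff.2 hz0) ?_
        have := hz.1
        rwa [mem_ball_zero_iff] at this
      have h2 := hs _ hz1
      rw [Complex.exp_log hz0] at h2
      rw [h2]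
      exact hSZ g hg _ j
  · obtain ⟨c, hc, hk⟩ := hkob ε hε
    refine ⟨c, hc, fun p q hp hq D hD0 hD1 hD => hk p q hp hq D hD0 hD1 fun g hg z => ?_⟩
    exact hD (g z) ((hS g hg).1.2 z) (hSZ g hg z)

/-- fibres and singular sets of dimension at most one -/
theorem abel_dim [DiscreteTopology L] [IsZLattice ℝ L]
    (h : FewPoints F) (σ : k →+* ℂ)
    (hF : ∀ i, IsForm (F i)) (hG : ∀ j, IsForm (G j))
    (hη : TwoForms (Cone (base σ F)) (Zeros G) d α r η) (hH : RiemannForm L H)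
    (hα : HolToTorus (Cone (base σ F)) L α) (hS1 : DimLeOne (Cone (base σ F) ∩ Zeros G))
    (hfib1 : ∀ a, DimLeOne {x | x ∈ Cone (base σ F) ∧ α x = a}) :
    KobayashiHyp (base σ F) := by
  have hF' := base_form σ hF
  refine kob_of_brody hF' fun f hf => ?_
  rcases closed_geo hF' hG hη hH hα (V := {p | p.rep ∈ Cone (base σ F)}) (fun p hp => hp)
    (fun p hp => by
      have hX := cone_conic hF'
      have hcl := (isCompact_TF hF').isClosed
      have h1 : Phi p.rep ∈ TS (Cone (base σ F)) := by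
        rw [← hcl.closure_eq, Metric.mem_closure_iff]
        intro ε hε
        obtain ⟨q, hq, hqd⟩ := hp ε hε
        refine ⟨Phi q.rep, mem_TS hq, ?_⟩
        rw [dist_eq_norm]
        exact hqd
      have h2 := rep_toProj hX h1
      rwa [Pool.Agent.N154.GG.toProj_Phi_rep] at h2) with
    ⟨g, hg, hnc, -, hfs, hlip⟩ | ⟨T, -, hT, hfac, -⟩
  · exfalso
    apply hnc
    have hB : ∀ z, ‖fderiv ℝ (fun z => Phi (g z).rep) z‖ ≤ 2 := fun z =>
      bounded_of_lip (P := fun z => Phi (g z).rep) (fun z w => hlip z w) z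
    rcases hfs with h1 | h1
    · exact h.degen hF σ (hfib1 (α (g 0).rep)) (fun x hx => hx.1)
        ⟨hg.1, fun z => ⟨hg.2 z, h1 z 0⟩⟩ hB
    · exact h.degen hF σ hS1 (fun x hx => hx.1) ⟨hg.1, fun z => ⟨hg.2 z, h1 z⟩⟩ hB
  · rcases hfac f hf hf.2 with h1 | ⟨g, hg, -⟩
    · exact h1
    · exfalso
      obtain ⟨h1, -, h2, h3⟩ := hT g hg
      rcases h.few.ell hF one_form σ h1 h2 with h4 | h4
      · exact not_const h3 h4
      · have h5 := h4 0 ()
        unfold base val at h5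
        rw [map_one, map_one] at h5
        exact one_ne_zero h5

end abel

end Pool.Agent.T2h91
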