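import Pool.Agent.N154.TB.Defs
import Pool.Agent.N154.DD.KDefs
import Pool.Agent.Q103.AR.Pts

/-!
Projective varieties over a number field: rational points outside a closed subset, the complex
varieties given by the embeddings of the number field, and their entire curves.
-/

set_option autoImplicit false

open LinearAlgebra.Projectivization Pool.Agent.W602.GT
open Pool.Agent.N154.TB (CurveIn IsConst BrodyHyp)
open Pool.Agent.N154.GG (kobayashi projDist)

namespace Pool.Agent.T2h91

variable {n : ℕ} {ι ι' : Type}

/-- The forms over `ℂ` which are given by the forms `F i` over the field `k` and the embedding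
`σ` of `k` in `ℂ`; they define the complex variety `X_σ` if the forms `F i` define `X`. -/
noncomputable def base {k : Type} [Field k] (σ : k →+* ℂ)
    (F : ι → MvPolynomial (Fin (n + 1)) k) : ι → MvPolynomial (Fin (n + 1)) ℂ :=
  fun i => MvPolynomial.map σ (F i)

/-- The `L`-points of the projective variety `X = {F = 0}` over `k` which are not in the closed
subset `Z = {P = 0}`. -/
def OffPoints {k : Type} [Field k] (F : ι → MvPolynomial (Fin (n + 1)) k)
    (P : ι' → MvPolynomial (Fin (n + 1)) k) (L : Type) [Field L] [Algebra k L] :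
    Set (ℙ L (Fin (n + 1) → L)) :=
  {x | (∀ i, MvPolynomial.aeval x.rep (F i) = 0) ∧ ∃ j, MvPolynomial.aeval x.rep (P j) ≠ 0}

/-- `X = {F = 0}` in `ℙⁿ(ℂ)` is Brody hyperbolic modulo `Z = {P = 0}`: every nonconstant holomorphic
map from the complex plane to `X` has its image in `Z`. -/
def BrodyMod (F : ι → MvPolynomial (Fin (n + 1)) ℂ) (P : ι' → MvPolynomial (Fin (n + 1)) ℂ) :
    Prop :=
  ∀ f : ℂ → ℙ ℂ (Fin (n + 1) → ℂ), CurveIn (Cone F) f → IsConst f ∨ ∀ z j, val (f z).rep (P j) = 0

/-- The projective variety `X = {F = 0}` over the number field `k` has only finitely many points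
outside `Z = {P = 0}` over every finite extension of `k`, or the complex variety `X_τ` is Brody
hyperbolic modulo `Z_τ` for some embedding `τ` of `k` in `ℂ`. -/
def Few {k : Type} [Field k] [NumberField k] (F : ι → MvPolynomial (Fin (n + 1)) k)
    (P : ι' → MvPolynomial (Fin (n + 1)) k) : Prop :=
  (∀ (L : Type) [Field L] [NumberField L] [Algebra k L], (OffPoints F P L).Finite) ∨
    ∃ τ : k →+* ℂ, BrodyMod (base τ F) (base τ P)

/-- The projective variety `X = {F = 0}` over the number field `k` has only finitely many points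
over every finite extension of `k`, or the complex variety `X_τ` is Brody hyperbolic for some
embedding `τ` of `k` in `ℂ`. -/
def FewPoints {k : Type} [Field k] [NumberField k] (F : ι → MvPolynomial (Fin (n + 1)) k) : Prop :=
  (∀ (L : Type) [Field L] [NumberField L] [Algebra k L], (Pool.Agent.Q103.AR.Points F L).Finite) ∨
    ∃ τ : k →+* ℂ, BrodyHyp (Cone (base τ F))

/-- The projective set with the cone `X` is contained in an algebraic set of dimension at most
one: a finite union of points and algebraic curves. -/
def DimLeOne (X : Set (Fin (n + 1) → ℂ)) : Prop :=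
  ∃ (κ : Type) (Q : κ → MvPolynomial (Fin (n + 1)) ℂ), (∀ j, IsForm (Q j)) ∧
    (∀ x ∈ X, ∀ j, val x (Q j) = 0) ∧
    ∀ (K : Type) [Field K] [Algebra ℂ K] (w : ℕ) (y : Fin (n + 1) → K), SubVar Q K w y → w ≤ 1

/-- `X = {F = 0}` in `ℙⁿ(ℂ)` is Kobayashi hyperbolic: the Kobayashi pseudodistance is at least a
positive multiple of a distance of projective space. -/
def KobayashiHyp (F : ι → MvPolynomial (Fin (n + 1)) ℂ) : Prop :=
  ∃ c : ℝ, 0 < c ∧ ∀ p q : ℙ ℂ (Fin (n + 1) → ℂ), p.rep ∈ Cone F → q.rep ∈ Cone F →
    ENNReal.ofReal (c * projDist p q) ≤ kobayashi (Cone F) p q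

end Pool.Agent.T2h91
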