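import Pool.Agent.W603.LV.Ex
import Pool.Agent.W602.GT.Defs
import Pool.Agent.Helper386.D5V.Helper386_FF_Riemann
import Pool.Agent.Helper386.D5V.Helper386_FF_RR

/-!
Curves of positive canonical degree are of general type.
-/

set_option autoImplicit false

namespace Pool.Agent.T2h91

open FF Pool.Agent.W603.LV Pool.Agent.W602.GT

variable {L : Type} [Field L] [Algebra ℂ L] [IsFF ℂ L]

/-- two sections -/
theorem two_sections (E : Place ℂ L →₀ ℤ) (h : 2 ≤ ell E) :
    ∃ f ∈ LL E, ∃ g ∈ LL E, f ≠ 0 ∧ Transcendental ℂ (g / f) := by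
  obtain ⟨f, hf, hf0⟩ := exists_ne_zero_of_ell_pos (D := E) (by omega)
  have h1 : ∃ g ∈ LL E, ∀ c : ℂ, g ≠ c • f := by
    by_contra hcon
    push Not at hcon
    have h2 : LL E ≤ Submodule.span ℂ {f} := by
      intro g hg
      obtain ⟨c, hc⟩ := hcon g hg
      exact Submodule.mem_span_singleton.2 ⟨c, hc.symm⟩
    have h3 := Submodule.finrank_mono h2
    have h4 := finrank_span_singleton (K := ℂ) hf0
    unfold ell at h
    omega
  obtain ⟨g, hg, hgc⟩ := h1
  refine ⟨f, hf, g, hg, hf0, fun halg => ?_⟩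
  have h2 := IsAlgClosed.degree_eq_one_of_irreducible ℂ (minpoly.irreducible halg.isIntegral)
  obtain ⟨c, hc⟩ := minpoly.mem_range_of_degree_eq_one ℂ (g / f) h2
  apply hgc c
  rw [Algebra.smul_def, hc, div_mul_cancel₀ _ hf0]

/-- curves with `2 g - 2 > 0` are of general type -/
theorem gt_of_canDeg (h : 0 < canDeg ℂ L) : GeneralType ℂ L 1 := by
  classical
  obtain ⟨x, hx⟩ := IsFF.exists_transcendental (k := ℂ) (K := L)
  have hD0 : der ℂ L ≠ 0 := der_ne
  set D0 := der ℂ L with hD0d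
  have hx0 : D0 x ≠ 0 := der_ne_zero hD0 hx
  obtain ⟨γ, -, hγ, -⟩ := riemann ℂ L
  let N : ℕ := γ.toNat + 2
  let V : Place ℂ L →₀ ℤ := Finsupp.ofSupportFinite (fun P => vo P D0) (vo_finite hD0)
  let E : Place ℂ L →₀ ℤ := N • (divisor ℂ (D0 x) - V)
  have hV : ddeg V = - canDeg ℂ L := by
    rw [canDeg_eq hD0, neg_neg, finsum_eq_sum_of_support_subset (s := V.support)]
    · unfold ddeg Finsupp.sum
      refine Finset.sum_congr rfl fun P _ => ?_
      change V P * ((P.deg : ℕ) : ℤ) = vo P D0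
      rw [deg_one, Nat.cast_one, mul_one]
      rfl
    · intro P hP
      rw [Finset.mem_coe, Finsupp.mem_support_iff]
      exact hP
  have hE : ddeg E = N * canDeg ℂ L := by
    simp only [E]
    rw [ddeg_nsmul, ddeg_sub, ddeg_divisor, hV]
    ring
  have hEP : ∀ P, E P = N * (P.ord (D0 x) - vo P D0) := by
    intro P
    have hVP : V P = vo P D0 := rfl
    simp only [E, Finsupp.smul_apply, Finsupp.sub_apply, divisor_apply, hVP, nsmul_eq_mul]
  have hell : 2 ≤ ell E := by
    have h1 := hγ E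
    have h2 : (N : ℤ) * 1 ≤ N * canDeg ℂ L :=
      mul_le_mul_of_nonneg_left (by omega) (Int.natCast_nonneg _)
    rw [hE] at h1
    have h3 : γ ≤ γ.toNat := Int.self_le_toNat _
    have h4 : (N : ℤ) = γ.toNat + 2 := by simp [N]
    omega
  obtain ⟨f, hf, g, hg, hf0, htr⟩ := two_sections E hell
  let c : Fin 2 → L := ![f, g]
  have hc : ∀ j, c j ∈ LL E := by
    intro j
    fin_cases j
    · exact hf
    · exact hg
  refine ⟨by rw [IsFF.trdeg (k := ℂ) (K := L)]; simp, N, by omega,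
    fun j D => (D 0 x) ^ N * c j, ?_, ?_, fun _ => D0, ?_, ?_⟩
  · intro j A D
    have e : (∑ l, A 0 l • D l) x = A.det * D 0 x := by
      rw [Matrix.det_fin_one, Fin.sum_univ_one]
      rfl
    change (∑ l, A 0 l • D l) x ^ N * c j = A.det ^ N * (D 0 x ^ N * c j)
    rw [e, mul_pow]
    ring
  · intro P _ j D hD
    obtain ⟨r, hrD⟩ := der_smul (D' := D 0) hD0
    change Ge P 0 ((D 0) x ^ N * c j)
    by_cases hr0 : r = 0
    · left
      rw [hrD, hr0, zero_smul, Derivation.zero_apply, zero_pow (by omega), zero_mul]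
    rcases hc j with h2 | h2
    · left
      rw [h2, mul_zero]
    by_cases hc0 : c j = 0
    · left
      rw [hc0, mul_zero]
    right
    have h3 : (D 0) x = r * D0 x := by
      rw [hrD]
      rfl
    obtain ⟨π, hπ0, hπ⟩ := P.surj
    have h1 := hD 0 π (Or.inr (by omega))
    have h2' : D 0 π = r * D0 π := by rw [hrD]; rfl
    have h3' := der_pi_ne_zero hD0 P hπ
    rw [h2'] at h1
    have h4' := (P.reg_iff (mul_ne_zero hr0 h3')).1 h1
    rw [P.ord_mul hr0 h3', vo_eq P hπ hD0] at h4'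
    have h4 := h2 P
    rw [hEP] at h4
    rw [h3, P.ord_mul (pow_ne_zero _ (mul_ne_zero hr0 hx0)) hc0, P.ord_pow, P.ord_mul hr0 hx0]
    have h5 : (0 : ℤ) ≤ N * (P.ord r + vo P D0) :=
      mul_nonneg (Int.natCast_nonneg _) h4'
    have h6 : (N : ℤ) * (P.ord r + P.ord (D0 x)) + P.ord (c j) ≥
        N * (P.ord r + P.ord (D0 x)) - N * (P.ord (D0 x) - vo P D0) := by
      linarith
    have h7 : (N : ℤ) * (P.ord r + P.ord (D0 x)) - N * (P.ord (D0 x) - vo P D0) =
        N * (P.ord r + vo P D0) := by ring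
    linarith
  · change (D0 x) ^ N * f ≠ 0
    exact mul_ne_zero (pow_ne_zero _ hx0) hf0
  · rw [algebraicIndependent_unique_type_iff]
    change Transcendental ℂ (((D0 x) ^ N * g) / ((D0 x) ^ N * f))
    rw [mul_div_mul_left _ _ (pow_ne_zero _ hx0)]
    exact htr

end Pool.Agent.T2h91
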