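import Pool.Agent.TH143.GE.Wei
import Pool.Agent.TH143.GE.Form
import Pool.Agent.Q103.AR.Main
import Pool.Agent.T2h91.Gt

/-!
# Curves of genus at most one in projective varieties over number fields

They yield infinitely many rational points over some number field.
-/

set_option autoImplicit false

namespace Pool.Agent.T2h91

open FF IntermediateField
open Pool.Agent.W603.LV (canDeg)
open Pool.Agent.W602.GT
open Pool.Agent.Q103.AR (Points infinite_of_elliptic)
open scoped LinearAlgebra.Projectivization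

/-- the discriminant of a cubic without double roots -/
theorem disc_ne {a b : ℂ} (h : ∀ e : ℂ, e ^ 3 + a * e + b = 0 → 3 * e ^ 2 + a ≠ 0) :
    4 * a ^ 3 + 27 * b ^ 2 ≠ 0 := by
  intro h0
  by_cases ha : a = 0
  · subst ha
    have hb : b = 0 := by
      have h1 : b ^ 2 = 0 := by linear_combination h0 / 27
      exact pow_eq_zero_iff two_ne_zero |>.1 h1
    subst hb
    exact h 0 (by ring) (by ring)
  · have h2 : (2 * a) ≠ 0 := mul_ne_zero two_ne_zero ha
    refine h (-(3 * b) / (2 * a)) ?_ ?_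
    · field_simp
      linear_combination (-b) * h0
    · field_simp
      linear_combination h0

/-- curves of genus at most one are rational or elliptic -/
theorem cls (L : Type) [Field L] [Algebra ℂ L] [IsFF ℂ L] (hL : canDeg ℂ L ≤ 0) :
    (∃ t : L, IntermediateField.adjoin ℂ {t} = ⊤) ∨
    ∃ (a b : ℂ) (x y : L), 4 * a ^ 3 + 27 * b ^ 2 ≠ 0 ∧
      y ^ 2 = x ^ 3 + algebraMap ℂ L a * x + algebraMap ℂ L b ∧
      IntermediateField.adjoin ℂ {x, y} = ⊤ := by
  rcases lt_or_eq_of_le hL with h0 | h0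
  · exact Or.inl (Pool.Agent.TH143.GE.rational_of_neg h0)
  · right
    obtain ⟨x, y, a, b, -, hxy, -, hgen, hroot⟩ := Pool.Agent.TH143.GE.weier (k := ℂ) (F := L) h0
    refine ⟨a, b, x, y, disc_ne hroot, hxy, ?_⟩
    rw [eq_top_iff]
    intro f _
    obtain ⟨r, s, hf⟩ := hgen f
    have key : ∀ p : MvPolynomial (Fin 2) ℂ,
        MvPolynomial.aeval ![x, y] p ∈ IntermediateField.adjoin ℂ ({x, y} : Set L) := by
      intro p
      have h1 : MvPolynomial.aeval ![x, y] p ∈ Algebra.adjoin ℂ (Set.range ![x, y]) := by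
        rw [Algebra.adjoin_range_eq_range_aeval]
        exact ⟨p, rfl⟩
      refine (Algebra.adjoin_le ?_ : Algebra.adjoin ℂ (Set.range ![x, y]) ≤
        (IntermediateField.adjoin ℂ ({x, y} : Set L)).toSubalgebra) h1
      rintro _ ⟨i, rfl⟩
      apply IntermediateField.subset_adjoin
      fin_cases i <;> simp
    rw [hf]
    exact div_mem (key r) (key s)

theorem adjoin_self_top {Ω : Type} [Field Ω] [Algebra ℂ Ω] {x y : Ω} (E : IntermediateField ℂ Ω)
    (hE : E = adjoin ℂ {x, y}) (hx : x ∈ E) (hy : y ∈ E) :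
    adjoin ℂ ({⟨x, hx⟩, ⟨y, hy⟩} : Set E) = ⊤ := by
  have h1 : (adjoin ℂ ({⟨x, hx⟩, ⟨y, hy⟩} : Set E)).map E.val =
      (⊤ : IntermediateField ℂ E).map E.val := by
    rw [adjoin_map]
    have h2 : (E.val '' {⟨x, hx⟩, ⟨y, hy⟩} : Set Ω) = {x, y} := by
      rw [Set.image_pair]
      rfl
    rw [h2, ← hE]
    apply le_antisymm
    · intro z hz
      exact ⟨⟨z, hz⟩, trivial, rfl⟩
    · rintro z ⟨w, -, rfl⟩
      exact w.2
  exact map_injective E.val h1

/-- **Curves of genus `≤ 1` are images of elliptic curves.** -/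
theorem exists_ell {L : Type} [Field L] [Algebra ℂ L] [IsFF ℂ L] (h : canDeg ℂ L ≤ 0) :
    ∃ (E : Type) (_ : Field E) (_ : Algebra ℂ E) (_ : L →ₐ[ℂ] E) (a b : ℂ) (x y : E),
      4 * a ^ 3 + 27 * b ^ 2 ≠ 0 ∧ y ^ 2 = x ^ 3 + algebraMap ℂ E a * x + algebraMap ℂ E b ∧
      adjoin ℂ {x, y} = ⊤ := by
  rcases cls L h with ⟨t, ht⟩ | ⟨a, b, x, y, hab, hy, hgen⟩
  · let Ω := AlgebraicClosure L
    let τ : Ω := algebraMap L Ω t
    obtain ⟨y, hy⟩ := IsAlgClosed.exists_pow_nat_eq (τ ^ 3 + algebraMap ℂ Ω 0 * τ + algebraMap ℂ Ω 1)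
      two_pos
    let E : IntermediateField ℂ Ω := adjoin ℂ {τ, y}
    have hτ : τ ∈ E := subset_adjoin ℂ _ (by simp)
    have hyE : y ∈ E := subset_adjoin ℂ _ (by simp)
    have hgen := adjoin_self_top E rfl hτ hyE
    have hle : ∀ l : L, algebraMap L Ω l ∈ E := by
      intro l
      have hl : l ∈ adjoin ℂ ({t} : Set L) := by rw [ht]; exact mem_top
      have h3 : algebraMap L Ω l ∈ (adjoin ℂ ({t} : Set L)).map (IsScalarTower.toAlgHom ℂ L Ω) :=
        ⟨l, hl, rfl⟩
      rw [adjoin_map, Set.image_singleton] at h3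
      exact adjoin.mono ℂ _ _ (by
        intro z hz
        left
        exact hz) h3
    refine ⟨E, inferInstance, inferInstance,
      (IsScalarTower.toAlgHom ℂ L Ω).codRestrict E.toSubalgebra hle, 0, 1, ⟨τ, hτ⟩, ⟨y, hyE⟩,
      by norm_num, ?_, hgen⟩
    apply E.val.injective
    simp only [map_pow, map_add, map_mul]
    exact hy
  · exact ⟨L, inferInstance, inferInstance, AlgHom.id ℂ L, a, b, x, y, hab, hy, hgen⟩

theorem ess_of_coords {n : ℕ} {K : Type} [Field K] [Algebra ℂ K] {a : Fin (n + 1) → K}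
    (hK : coords ℂ a = ⊤) : Algebra.EssFiniteType ℂ K := by
  classical
  rw [← IntermediateField.fg_top_iff, ← hK]
  unfold coords
  refine IntermediateField.fg_adjoin_of_finite ?_
  refine (Set.finite_range fun p : Fin (n + 1) × Fin (n + 1) => a p.1 / a p.2).subset ?_
  rintro _ ⟨i, j, _, rfl⟩
  exact ⟨(i, j), rfl⟩

/-- the points off the hypersurface `G = 0` -/
def Off {k : Type} [Field k] {M : ℕ} {ι : Type} (F : ι → MvPolynomial (Fin (M + 1)) k)
    (G : MvPolynomial (Fin (M + 1)) k) (L : Type) [Field L] [Algebra k L] :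
    Set (ℙ L (Fin (M + 1) → L)) :=
  {P | P ∈ Points F L ∧ MvPolynomial.aeval P.rep G ≠ 0}

/-- curves which are not of general type are images of elliptic curves -/
theorem ell_of_low {M : ℕ} {ι : Type} {F : ι → MvPolynomial (Fin (M + 1)) ℂ}
    {K : Type} [Field K] [Algebra ℂ K] {y : Fin (M + 1) → K} (hy : SubVar F K 1 y)
    (hgt : ¬ GeneralType ℂ K 1) :
    ∃ (E : Type) (_ : Field E) (_ : Algebra ℂ E) (φ : K →ₐ[ℂ] E) (a b : ℂ) (x z : E)
      (i j : Fin (M + 1)), 4 * a ^ 3 + 27 * b ^ 2 ≠ 0 ∧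
      z ^ 2 = x ^ 3 + algebraMap ℂ E a * x + algebraMap ℂ E b ∧
      adjoin ℂ {x, z} = ⊤ ∧ φ (y j) ≠ 0 ∧ Transcendental ℂ (φ (y i) / φ (y j)) := by
  have hff : IsFF ℂ K := ⟨ess_of_coords hy.gen, by rw [hy.dim]; simp⟩
  have hc : canDeg ℂ K ≤ 0 := by
    by_contra h
    exact hgt (gt_of_canDeg (lt_of_not_ge h))
  obtain ⟨E, i1, i2, φ, a, b, x, z, hab, hxz, hgen⟩ := exists_ell hc
  -- a transcendental ratio
  obtain ⟨i, j, hj, htr⟩ : ∃ i j, y j ≠ 0 ∧ Transcendental ℂ (y i / y j) := by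
    by_contra hno
    push Not at hno
    have h1 : Algebra.IsAlgebraic ℂ (coords ℂ y) := by
      unfold coords
      apply IntermediateField.isAlgebraic_adjoin
      rintro w ⟨i, j, hj, rfl⟩
      have h2 := hno i j hj
      rw [Transcendental, not_not] at h2
      exact h2.isIntegral
    obtain ⟨t, ht⟩ := IsFF.exists_transcendental (k := ℂ) (K := K)
    apply ht
    have h3 : t ∈ coords ℂ y := by rw [hy.gen]; exact mem_top
    have h4 := h1.isAlgebraic ⟨t, h3⟩
    exact IsAlgebraic.algHom (coords ℂ y).val h4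
  refine ⟨E, i1, i2, φ, a, b, x, z, i, j, hab, hxz, hgen, (map_ne_zero φ).2 hj, ?_⟩
  rw [← map_div₀]
  intro h
  exact htr ((isAlgebraic_algHom_iff φ φ.toRingHom.injective).1 h)

/-- **Curves which are not of general type, in varieties over number fields** -/
theorem gt_of_finite {k : Type} [Field k] [NumberField k] (σ : k →+* ℂ) {M : ℕ} {ι : Type}
    (F : ι → MvPolynomial (Fin (M + 1)) k) (hF : ∀ e, IsForm (F e))
    (G : MvPolynomial (Fin (M + 1)) k) (hG : IsForm G)
    (hfin : ∀ (L : Type) [Field L] [NumberField L] [Algebra k L], (Off F G L).Finite)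
    {K : Type} [Field K] [Algebra ℂ K] {y : Fin (M + 1) → K}
    (hy : SubVar (fun e => MvPolynomial.map σ (F e)) K 1 y)
    (hGy : val y (MvPolynomial.map σ G) ≠ 0) : GeneralType ℂ K 1 := by
  by_contra hcon
  obtain ⟨E, i1, i2, φ, a, b, x, z, i, j, hab, hxz, hgen, hj, htr⟩ := ell_of_low hy hcon
  let _ : Algebra k ℂ := σ.toAlgebra
  have hmap : algebraMap k ℂ = σ := rfl
  have hval : ∀ H : MvPolynomial (Fin (M + 1)) ℂ, val (fun l => φ (y l)) H = φ (val y H) := by
    intro H
    unfold Pool.Agent.W602.GT.val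
    rw [MvPolynomial.comp_aeval_apply]
  obtain ⟨L, j1, j2, j3, hinf⟩ := infinite_of_elliptic F hF G hG hab hxz hgen (fun l => φ (y l)) i j
    hj htr (fun e => by
      rw [hmap, hval, hy.mem e, map_zero]) (by
      rw [hmap, hval]
      exact (map_ne_zero φ).2 hGy)
  exact hinf (hfin L)

end Pool.Agent.T2h91
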