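import Pool.Agent.N155.Spec
import Pool.Agent.N155.Defs
import Pool.Agent.T2h91.Ell

/-!
Subvarieties of full dimension, and surfaces all of whose subvarieties are of general type.
-/

set_option autoImplicit false

namespace Pool.Agent.T2h91

open FF MvPolynomial
open Pool.Agent.W602.GT
open Pool.Agent.Q103.AR (Points)
open scoped LinearAlgebra.Projectivization

/-! ### Isomorphic function fields -/

section transport

variable {k F F' : Type} [Field k] [Field F] [Field F'] [Algebra k F] [Algebra k F']

/-- The place of `F` which corresponds to a place of `F'` under an isomorphism. -/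
noncomputable def pullPl (e : F ≃ₐ[k] F') (w : Place k F') : Place k F where
  ord f := w.ord (e f)
  ord_zero := by rw [map_zero, w.ord_zero]
  ord_mul := by
    intro f g hf hg
    rw [map_mul, w.ord_mul (by simpa using hf) (by simpa using hg)]
  ord_add := by
    intro f g hf hg hfg
    rw [map_add]
    exact w.ord_add (by simpa using hf) (by simpa using hg)
      (by rw [← map_add]; exact (map_ne_zero_iff _ e.injective).2 hfg)
  ord_const := by intro c hc; rw [AlgEquiv.commutes, w.ord_const hc]
  surj := by
    obtain ⟨t, h0, ht⟩ := w.surj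
    exact ⟨e.symm t, by simpa using h0, by simpa using ht⟩

theorem reg_pullPl (e : F ≃ₐ[k] F') (w : Place k F') (f : F) :
    (pullPl e w).Reg f ↔ w.Reg (e f) := by
  unfold Place.Reg
  rw [map_eq_zero]
  rfl

/-- The derivation of `F'` which corresponds to a derivation of `F` under an isomorphism. -/
noncomputable def pushD (e : F ≃ₐ[k] F') (D : Derivation k F F) : Derivation k F' F' :=
  Derivation.mk' ((e.toLinearMap.comp (D : F →ₗ[k] F)).comp e.symm.toLinearMap) (by
    intro a b
    change e (D (e.symm (a * b))) = a • e (D (e.symm b)) + b • e (D (e.symm a))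
    rw [map_mul, D.leibniz, map_add, smul_eq_mul, smul_eq_mul, map_mul, map_mul,
      AlgEquiv.apply_symm_apply, AlgEquiv.apply_symm_apply, smul_eq_mul, smul_eq_mul])

theorem pushD_apply (e : F ≃ₐ[k] F') (D : Derivation k F F) (x : F') :
    pushD e D x = e (D (e.symm x)) := rfl

theorem pushD_symm (e : F ≃ₐ[k] F') (D : Derivation k F F) : pushD e.symm (pushD e D) = D := by
  ext x
  rw [pushD_apply, pushD_apply, AlgEquiv.symm_symm, AlgEquiv.symm_apply_apply,
    AlgEquiv.symm_apply_apply]

theorem der_sum_apply {ι : Type} (s : Finset ι) (f : ι → Derivation k F F) (y : F) :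
    (∑ j ∈ s, f j) y = ∑ j ∈ s, f j y := by
  classical
  induction s using Finset.induction_on with
  | empty => rfl
  | insert a s ha ih => rw [Finset.sum_insert ha, Finset.sum_insert ha, ← ih]; rfl

theorem general_of_equiv (e : F ≃ₐ[k] F') {w : ℕ} (h : GeneralType k F w) :
    GeneralType k F' w := by
  obtain ⟨htr, N, hN, ω, hω, hreg, D, hD0, hD⟩ := h
  refine ⟨by rw [← htr]; exact e.symm.trdeg_eq, N, hN,
    fun j D' => e (ω j (fun i => pushD e.symm (D' i))), fun j A D' => ?_, fun P hP j D' hD' => ?_,
    fun i => pushD e (D i), ?_, ?_⟩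
  · have h1 : (fun i => pushD e.symm (∑ l, A i l • D' l)) =
        fun i => ∑ l, (A.map e.symm) i l • pushD e.symm (D' l) := by
      funext i
      ext x
      rw [pushD_apply, der_sum_apply, der_sum_apply, map_sum]
      refine Finset.sum_congr rfl fun l _ => ?_
      rw [Derivation.coe_smul, Pi.smul_apply, smul_eq_mul, map_mul, Matrix.map_apply,
        Derivation.coe_smul, Pi.smul_apply, smul_eq_mul, pushD_apply]
    change e (ω j (fun i => pushD e.symm (∑ l, A i l • D' l))) = _
    rw [h1, hω j, map_mul, map_pow]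
    congr 2
    have h2 := RingHom.map_det (e : F →+* F') (A.map e.symm)
    change e _ = _ at h2
    rw [h2]
    congr 1
    ext i l
    simp [RingHom.mapMatrix_apply]
  · change P.Reg (e _)
    rw [← reg_pullPl e P]
    refine hreg (pullPl e P) ?_ j _ fun i f hf => ?_
    · obtain ⟨u, hu⟩ := hP
      refine ⟨fun i => e.symm (u i), fun G hG => ?_⟩
      have h1 : MvPolynomial.aeval (fun i => e.symm (u i)) G = e.symm (MvPolynomial.aeval u G) := by
        rw [← AlgEquiv.coe_toAlgHom, ← MvPolynomial.comp_aeval_apply]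
      rw [h1]
      refine ⟨by simpa using (hu G hG).1, ?_⟩
      change P.ord (e (e.symm _)) = 0
      rw [AlgEquiv.apply_symm_apply]
      exact (hu G hG).2
    · rw [reg_pullPl] at hf ⊢
      rw [pushD_apply, AlgEquiv.symm_symm, AlgEquiv.apply_symm_apply]
      exact hD' i _ hf
  · simp only [pushD_symm]
    simpa using hD0
  · simp only [pushD_symm]
    have h1 := hD.map' (f := (e : F →ₐ[k] F')) e.injective
    convert h1 using 1
    funext i
    simp

end transport

/-! ### Generic points -/

section generic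

variable {n : ℕ} {K L : Type} [Field K] [Algebra ℂ K] [Field L] [Algebra ℂ L]

theorem adjoin_fixed {a : Fin (n + 1) → K} (ha : coords ℂ a = ⊤) {j : Fin (n + 1)} (hj : a j ≠ 0) :
    IntermediateField.adjoin ℂ (Set.range fun i => a i / a j) = ⊤ := by
  unfold coords at ha
  rw [eq_top_iff, ← ha, IntermediateField.adjoin_le_iff]
  rintro _ ⟨i, l, hl, rfl⟩
  have h1 : a i / a l = (a i / a j) / (a l / a j) := by
    field_simp
  rw [h1]
  exact div_mem (IntermediateField.subset_adjoin _ _ ⟨i, rfl⟩)
    (IntermediateField.subset_adjoin _ _ ⟨l, rfl⟩)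

/-- generic points of the same variety have isomorphic fields -/
theorem equiv_of_van {y : Fin (n + 1) → K} {z : Fin (n + 1) → L} (hz : z ≠ 0)
    (hy : coords ℂ y = ⊤) (hz' : coords ℂ z = ⊤)
    (h : ∀ G : MvPolynomial (Fin (n + 1)) ℂ, IsForm G → val y G = 0 → val z G = 0)
    (h' : ∀ G : MvPolynomial (Fin (n + 1)) ℂ, IsForm G → val z G = 0 → val y G = 0) :
    Nonempty (K ≃ₐ[ℂ] L) := by
  classical
  obtain ⟨j, hj0⟩ := Function.ne_iff.1 hz
  have hzj : z j ≠ 0 := hj0
  have hyj : y j ≠ 0 := by
    intro h1
    apply hzj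
    have h2 := h (X j) ⟨1, isHomogeneous_X _ _⟩ (by
      unfold val
      rw [aeval_X, h1])
    unfold val at h2
    rwa [aeval_X] at h2
  let F : MvPolynomial (Fin (n + 1)) ℂ →ₐ[ℂ] K := aeval fun i => y i / y j
  let R : Subalgebra ℂ K := F.range
  have hbR : ∀ i, y i / y j ∈ R := fun i => ⟨X i, by simp [F]⟩
  have hsurj : Function.Surjective F.rangeRestrict := F.rangeRestrict_surjective
  let φ : R →ₐ[ℂ] L := AlgHom.liftOfSurjective F.rangeRestrict hsurj
    (aeval fun i => z i / z j) (fun p hp => by
      rw [RingHom.mem_ker] at hp ⊢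
      have h1 := congrArg Subtype.val hp
      exact Pool.Agent.N155.dehom hyj hzj h p h1)
  have hφ : ∀ p : MvPolynomial (Fin (n + 1)) ℂ, φ (F.rangeRestrict p) =
      aeval (fun i => z i / z j) p := fun p =>
    AlgHom.liftOfSurjective_apply _ _ _ _ p
  have hφb : ∀ i, φ ⟨y i / y j, hbR i⟩ = z i / z j := by
    intro i
    have h1 := hφ (X i)
    rw [aeval_X] at h1
    rw [← h1]
    congr 1
    apply Subtype.ext
    simp [F]
  have hinj : Function.Injective φ := by
    rw [injective_iff_map_eq_zero]
    intro r hr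
    obtain ⟨p, rfl⟩ := hsurj r
    rw [hφ] at hr
    have h1 := Pool.Agent.N155.dehom hzj hyj h' p hr
    apply Subtype.ext
    exact h1
  have hR' : R = Algebra.adjoin ℂ (Set.range fun i => y i / y j) := by
    rw [Algebra.adjoin_range_eq_range_aeval]
  have hfr : IsFractionRing R K := .of_field _ _ fun x => by
    have hx : x ∈ IntermediateField.adjoin ℂ (Set.range fun i => y i / y j) := by
      rw [adjoin_fixed hy hyj]
      exact IntermediateField.mem_top
    obtain ⟨x, hx, y, hy, e⟩ := IntermediateField.mem_adjoin_iff_div.mp hx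
    rw [← hR'] at hx hy
    exact ⟨⟨x, hx⟩, ⟨y, hy⟩, e⟩
  let σ : K →ₐ[ℂ] L := IsFractionRing.liftAlgHom (g := φ) hinj
  have hσ : ∀ r : R, σ (r : K) = φ r := fun r =>
    IsFractionRing.lift_algebraMap hinj r
  have hσb : ∀ i, σ (y i / y j) = z i / z j := by
    intro i
    rw [← hφb i]
    exact hσ ⟨y i / y j, hbR i⟩
  refine ⟨AlgEquiv.ofBijective σ ⟨σ.toRingHom.injective, fun x => ?_⟩⟩
  have hx : x ∈ IntermediateField.adjoin ℂ (Set.range fun i => z i / z j) := by
    rw [adjoin_fixed hz' hzj]
    exact IntermediateField.mem_top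
  have h3 : IntermediateField.adjoin ℂ (Set.range fun i => z i / z j) ≤ σ.fieldRange := by
    rw [IntermediateField.adjoin_le_iff]
    rintro _ ⟨i, rfl⟩
    exact ⟨y i / y j, hσb i⟩
  exact h3 hx

/-- forms which vanish on the points of a projective set vanish on all its subvarieties -/
theorem nullst {ι : Type} {F : ι → MvPolynomial (Fin (n + 1)) ℂ} {G : MvPolynomial (Fin (n + 1)) ℂ}
    (hG : IsForm G) {y : Fin (n + 1) → K} (hx0G : val y G = 0) (h : ∀ x ∈ Cone F, val x G = 0)
    {z : Fin (n + 1) → L} (hz : ∀ i, val z (F i) = 0) : val z G = 0 := by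
  obtain ⟨d, hd⟩ := hG
  rcases Nat.eq_zero_or_pos d with rfl | hdpos
  · -- a constant which has a zero
    have h1 : G = C (coeff 0 G) := by
      have := (totalDegree_eq_zero_iff_eq_C).1 (Nat.le_zero.1 hd.totalDegree_le)
      exact this
    have h2 : coeff 0 G = 0 := by
      rw [h1] at hx0G
      unfold val at hx0G
      rw [aeval_C] at hx0G
      exact (map_eq_zero _).1 hx0G
    rw [h1, h2]
    unfold val
    simp
  · let I : Ideal (MvPolynomial (Fin (n + 1)) ℂ) := Ideal.span (Set.range F)
    have h1 : G ∈ I.radical := by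
      rw [← MvPolynomial.vanishingIdeal_zeroLocus_eq_radical (K := ℂ)]
      rw [MvPolynomial.mem_vanishingIdeal_iff]
      intro x hx
      by_cases hx0 : x = 0
      · subst hx0
        have h2 : (aeval (0 : Fin (n + 1) → ℂ)) G = constantCoeff G := by
          rw [aeval_zero]
          rfl
        rw [h2, constantCoeff_eq]
        by_contra hne
        have h3 := hd hne
        simp at h3
        omega
      · have hxI : ∀ p ∈ I, aeval x p = 0 := fun p hp => by
          exact hx p hp
        exact h x ⟨hx0, fun i => hxI _ (Ideal.subset_span ⟨i, rfl⟩)⟩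
    obtain ⟨N, hN⟩ := h1
    have h2 : I ≤ RingHom.ker (aeval z : MvPolynomial (Fin (n + 1)) ℂ →ₐ[ℂ] L) := by
      rw [Ideal.span_le]
      rintro _ ⟨i, rfl⟩
      exact hz i
    have h3 := h2 hN
    rw [RingHom.mem_ker, map_pow] at h3
    have hN0 : N ≠ 0 := by
      rintro rfl
      rw [pow_zero] at h3
      exact one_ne_zero h3
    exact (pow_eq_zero_iff hN0).1 h3

end generic

end Pool.Agent.T2h91
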