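import Pool.Agent.N154.TB.Defs

/-!
Holomorphic maps to projective space from entire coordinate functions with common zeros.
-/

set_option autoImplicit false

open Filter Topology Set LinearAlgebra.Projectivization

namespace Pool.Agent.T2h91

open Pool.Agent.N154.GG (HolMap)

variable {n : ℕ}

/-- the leading coefficients of a tuple of entire functions -/
theorem exists_lead {u : ℂ → Fin (n + 1) → ℂ} (hu : Differentiable ℂ u) (hne : ∃ t, u t ≠ 0)
    (z0 : ℂ) : ∃ (m : ℕ) (g : ℂ → Fin (n + 1) → ℂ), AnalyticAt ℂ g z0 ∧ g z0 ≠ 0 ∧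
      ∀ᶠ z in 𝓝 z0, u z = (z - z0) ^ m • g z := by
  have han : ∀ z, AnalyticAt ℂ u z := fun z => hu.analyticAt z
  have htop : analyticOrderAt u z0 ≠ ⊤ := by
    intro h
    rw [analyticOrderAt_eq_top] at h
    obtain ⟨t, ht⟩ := hne
    apply ht
    have h1 : AnalyticOnNhd ℂ u univ := fun z _ => han z
    have h2 := h1.eqOn_of_preconnected_of_eventuallyEq (g := fun _ => 0) analyticOnNhd_const
      isPreconnected_univ (mem_univ z0) h
    exact h2 (mem_univ t)
  obtain ⟨g, hg, hg0, h⟩ := (han z0).analyticOrderAt_ne_top.1 htop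
  exact ⟨_, g, hg, hg0, h⟩

/-- **Entire functions with common zeros** define a holomorphic map to projective space. -/
theorem holMap_of_entire {u : ℂ → Fin (n + 1) → ℂ} (hu : Differentiable ℂ u)
    (hne : ∃ t, u t ≠ 0) : ∃ f : ℂ → ℙ ℂ (Fin (n + 1) → ℂ), HolMap f ∧
      ∀ t (h : u t ≠ 0), f t = Projectivization.mk ℂ (u t) h := by
  classical
  choose m g hg hg0 hgu using exists_lead hu hne
  let f : ℂ → ℙ ℂ (Fin (n + 1) → ℂ) := fun z =>
    if h : u z ≠ 0 then Projectivization.mk ℂ (u z) h else Projectivization.mk ℂ (g z z) (hg0 z)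
  refine ⟨f, fun z0 => ?_, fun t h => dif_pos h⟩
  obtain ⟨V, hV, hVo, hz0⟩ := _root_.eventually_nhds_iff.1
    ((hg z0).eventually_analyticAt.and (((hg z0).continuousAt.eventually_ne (hg0 z0)).and (hgu z0)))
  refine ⟨V, g z0, hVo, hz0, fun w hw => (hV w hw).1.differentiableAt.differentiableWithinAt,
    fun w hw => ?_⟩
  obtain ⟨-, h2, h3⟩ := hV w hw
  refine ⟨h2, ?_⟩
  by_cases hw0 : w = z0
  · subst hw0
    by_cases hu0 : u w ≠ 0
    · change dite _ _ _ = _
      rw [dif_pos hu0, Projectivization.mk_eq_mk_iff']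
      refine ⟨(w - w) ^ m w, ?_⟩
      exact h3.symm
    · change dite _ _ _ = _
      rw [dif_neg hu0]
  · have hne' : (w - z0) ^ m z0 ≠ 0 := pow_ne_zero _ (sub_ne_zero.2 hw0)
    have hu0 : u w ≠ 0 := by
      rw [h3]
      exact smul_ne_zero hne' h2
    change dite _ _ _ = _
    rw [dif_pos hu0, Projectivization.mk_eq_mk_iff']
    exact ⟨_, h3.symm⟩

end Pool.Agent.T2h91
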