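import Pool.Agent.Q95.SF.WeiB
import Pool.Agent.T2h91.Ell
import Pool.Agent.T2h91.Hol

/-!
# Curves of genus at most one and entire curves for all embeddings of the number field

If `X_σ` contains a curve of genus at most one then `X_τ` contains a nonconstant entire curve, for
all embeddings `τ` of the number field.
-/

set_option autoImplicit false

namespace Pool.Agent.T2h91

open Polynomial
open Pool.Agent.W602.GT (IsForm val val_smul Cone SubVar GeneralType)
open Pool.Agent.Q103.AR
open Pool.Agent.N154.GG (HolMap)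
open Pool.Agent.N154.TB (CurveIn IsConst)
open scoped LinearAlgebra.Projectivization

/-- the homogenization of `p (x) + q (x) y`, at entire functions -/
noncomputable def hm (m : ℕ) (p q : ℂ[X]) (X Y Z : ℂ → ℂ) (t : ℂ) : ℂ :=
  ∑ j ∈ Finset.range (m + 1), p.coeff j * X t ^ j * Z t ^ (m + 1 - j) +
    (∑ j ∈ Finset.range (m + 1), q.coeff j * X t ^ j * Z t ^ (m - j)) * Y t

theorem hm_diff (m : ℕ) (p q : ℂ[X]) {X Y Z : ℂ → ℂ} (hX : Differentiable ℂ X)
    (hY : Differentiable ℂ Y) (hZ : Differentiable ℂ Z) : Differentiable ℂ (hm m p q X Y Z) := by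
  unfold hm
  refine (Differentiable.fun_sum fun j _ => ?_).add
    ((Differentiable.fun_sum fun j _ => ?_).mul hY)
  · exact ((differentiable_const _).mul (hX.pow _)).mul (hZ.pow _)
  · exact ((differentiable_const _).mul (hX.pow _)).mul (hZ.pow _)

theorem hm_eq {m : ℕ} {p q : ℂ[X]} (hp : p.natDegree ≤ m) (hq : q.natDegree ≤ m) {X Y Z : ℂ → ℂ}
    {t : ℂ} (hZ : Z t ≠ 0) :
    hm m p q X Y Z t = Z t ^ (m + 1) * (p.eval (X t / Z t) + q.eval (X t / Z t) * (Y t / Z t)) := by
  unfold hm
  rw [eval_eq_sum_range' (Nat.lt_succ_of_le hp), eval_eq_sum_range' (Nat.lt_succ_of_le hq), mul_add,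
    Finset.mul_sum, ← mul_assoc, Finset.mul_sum]
  have e1 : ∀ j ∈ Finset.range (m + 1), p.coeff j * X t ^ j * Z t ^ (m + 1 - j) =
      Z t ^ (m + 1) * (p.coeff j * (X t / Z t) ^ j) := by
    intro j hj
    have hj' := Finset.mem_range.1 hj
    obtain ⟨e, he⟩ : ∃ e, m + 1 = j + e := ⟨_, (Nat.add_sub_of_le (by omega)).symm⟩
    rw [he, Nat.add_sub_cancel_left, pow_add, div_pow]
    field_simp
  have e2 : ∀ j ∈ Finset.range (m + 1), q.coeff j * X t ^ j * Z t ^ (m - j) * Z t =
      Z t ^ (m + 1) * (q.coeff j * (X t / Z t) ^ j) := by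
    intro j hj
    have hj' := Finset.mem_range.1 hj
    obtain ⟨e, he⟩ : ∃ e, m = j + e := ⟨_, (Nat.add_sub_of_le (by omega)).symm⟩
    rw [he, Nat.add_sub_cancel_left, pow_add, pow_add, pow_one, div_pow]
    field_simp
  rw [Finset.sum_congr rfl e1]
  congr 1
  have e3 : (∑ j ∈ Finset.range (m + 1), q.coeff j * X t ^ j * Z t ^ (m - j)) * Y t =
      (∑ j ∈ Finset.range (m + 1), q.coeff j * X t ^ j * Z t ^ (m - j) * Z t) * (Y t / Z t) := by
    rw [← Finset.sum_mul]
    field_simp
  rw [e3, Finset.sum_congr rfl e2]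

/-- a polynomial which vanishes at all values of `X / Z` is zero -/
theorem zero_of_values {X Z : ℂ → ℂ} (hX : Differentiable ℂ X) (hZ : Differentiable ℂ Z)
    {s0 t0 : ℂ} (hst : X s0 * Z t0 ≠ X t0 * Z s0) (N : ℂ[X])
    (hN : ∀ t, Z t ≠ 0 → N.eval (X t / Z t) = 0) : N = 0 := by
  have hZ0 : ¬ ∀ t, Z t = 0 := by
    intro h
    exact hst (by rw [h, h]; ring)
  by_contra h0
  have h1 : ∀ t, Z t ≠ 0 → ∃ c ∈ N.roots, X t - c * Z t = 0 := by
    intro t hzt
    refine ⟨X t / Z t, (mem_roots h0).2 (hN t hzt), ?_⟩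
    rw [div_mul_cancel₀ _ hzt, sub_self]
  have h2 : ∀ t, Z t * (N.roots.map fun c => X t - c * Z t).prod = 0 := by
    intro t
    by_cases hzt : Z t = 0
    · rw [hzt, zero_mul]
    · obtain ⟨c, hc, hc'⟩ := h1 t hzt
      rw [Multiset.prod_eq_zero (Multiset.mem_map.2 ⟨c, hc, hc'⟩), mul_zero]
  have key : ∀ s : Multiset ℂ, (∀ t, Z t * (s.map fun c => X t - c * Z t).prod = 0) →
      ∃ c : ℂ, ∀ t, X t - c * Z t = 0 := by
    intro s
    induction s using Multiset.induction_on with
    | empty =>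
      intro h
      exfalso
      exact hZ0 fun t => by simpa using h t
    | cons c s ih =>
      intro h
      have aX : AnalyticOnNhd ℂ (fun t => X t - c * Z t) Set.univ := fun z _ =>
        (hX.sub (hZ.const_mul c)).analyticAt z
      have aW : AnalyticOnNhd ℂ (fun t => Z t * (s.map fun c => X t - c * Z t).prod)
          Set.univ := by
        have hw : Differentiable ℂ (fun t => Z t * (s.map fun c => X t - c * Z t).prod) := by
          refine hZ.mul ?_
          clear ih h
          induction s using Multiset.induction_on with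
          | empty => simp
          | cons c' s ih' =>
            simp only [Multiset.map_cons, Multiset.prod_cons]
            exact (hX.sub (hZ.const_mul c')).mul ih'
        exact fun z _ => hw.analyticAt z
      have h3 : ∀ t ∈ (Set.univ : Set ℂ), (fun t => X t - c * Z t) t *
          (fun t => Z t * (s.map fun c => X t - c * Z t).prod) t = 0 := by
        intro t _
        have := h t
        rw [Multiset.map_cons, Multiset.prod_cons] at this
        show (X t - c * Z t) * (Z t * (s.map fun c => X t - c * Z t).prod) = 0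
        rw [← this]; ring
      rcases AnalyticOnNhd.eq_zero_or_eq_zero_of_mul_eq_zero aX aW h3
        isPreconnected_univ with h4 | h4
      · exact ⟨c, fun t => h4 t (Set.mem_univ t)⟩
      · exact ih fun t => h4 t (Set.mem_univ t)
  obtain ⟨c, hc⟩ := key _ h2
  apply hst
  rw [sub_eq_zero.1 (hc s0), sub_eq_zero.1 (hc t0)]; ring

/-- an element of the coordinate ring which vanishes along the parametrization is zero -/
theorem zero_of_hm {a b : ℂ} {X Y Z : ℂ → ℂ} (hX : Differentiable ℂ X) (hZ : Differentiable ℂ Z)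
    (hE : ∀ t, Y t ^ 2 * Z t = X t ^ 3 + a * X t * Z t ^ 2 + b * Z t ^ 3)
    {s0 t0 : ℂ} (hst : X s0 * Z t0 ≠ X t0 * Z s0) {m : ℕ} {p q : ℂ[X]} (hp : p.natDegree ≤ m)
    (hq : q.natDegree ≤ m) (h : ∀ t, hm m p q X Y Z t = 0) : p = 0 ∧ q = 0 := by
  refine zero_of_norm (a := a) (b := b) (zero_of_values hX hZ hst _ fun t hzt => ?_)
  have h2 := h t
  rw [hm_eq hp hq hzt, mul_eq_zero, or_iff_right (pow_ne_zero _ hzt)] at h2
  have h3 : (Y t / Z t) ^ 2 = (X t / Z t) ^ 3 + a * (X t / Z t) + b := by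
    have := hE t
    field_simp
    linear_combination this
  simp only [eval_sub, eval_pow, eval_mul, eval_add, eval_X, eval_C]
  rw [← h3]
  linear_combination (p.eval (X t / Z t) - q.eval (X t / Z t) * (Y t / Z t)) * h2

/-- **Entire curves from maps from the curve `y ^ 2 = x ^ 3 + a x + b`.** -/
theorem entire_of_evk {k : Type} [Field k] (τ : k →+* ℂ) {M : ℕ} {ι : Type}
    (F : ι → MvPolynomial (Fin (M + 1)) k) (hF : ∀ e, IsForm (F e))
    (G : MvPolynomial (Fin (M + 1)) k) (hG : IsForm G) {R : Type} [CommRing R] [Algebra k R]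
    (g : R →+* ℂ) (hg : ∀ c, g (algebraMap k R c) = τ c) (a b : R)
    (w : Fin (M + 1) → R[X] × R[X]) (h0 : ∀ e, evk a b w (F e) = 0) (z : R[X] × R[X])
    (hz : evk a b w G = El a b z.1 z.2) (r : Bool × ℕ) (hr : g (cf z r) ≠ 0)
    (i j : Fin (M + 1)) (r₁ r₂ : Bool × ℕ) (hmn : g (mn (w i) (w j) r₁ r₂) ≠ 0) :
    ∃ f, CurveIn (Cone (fun e => MvPolynomial.map τ (F e))) f ∧ ¬ IsConst f ∧
      ∃ t, val (f t).rep (MvPolynomial.map τ G) ≠ 0 := by
  classical
  obtain ⟨X, Y, Z, hX, hY, hZ, hE, s0, t0, hst⟩ := Pool.Agent.Q95.SF.wei0 (g a) (g b)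
  have hZ0 : ¬ ∀ t, Z t = 0 := by
    intro h
    exact hst (by rw [h, h]; ring)
  obtain ⟨m, hm1⟩ : ∃ m : ℕ, ∀ l, ((w l).1.map g).natDegree ≤ m ∧ ((w l).2.map g).natDegree ≤ m := by
    refine ⟨Finset.univ.sup fun l => max ((w l).1.map g).natDegree ((w l).2.map g).natDegree,
      fun l => ?_⟩
    have h1 := Finset.le_sup (f := fun l => max ((w l).1.map g).natDegree
      ((w l).2.map g).natDegree) (Finset.mem_univ l)
    exact ⟨(le_max_left _ _).trans h1, (le_max_right _ _).trans h1⟩
  let u : ℂ → Fin (M + 1) → ℂ := fun t l => hm m ((w l).1.map g) ((w l).2.map g) X Y Z t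
  have hu : Differentiable ℂ u := differentiable_pi.2 fun l => hm_diff _ _ _ hX hY hZ
  -- the values of polynomials
  have hpt : ∀ t, Z t ≠ 0 → (Y t / Z t) ^ 2 = (X t / Z t) ^ 3 + g a * (X t / Z t) + g b := by
    intro t hzt
    have := hE t
    field_simp
    linear_combination this
  have hval : ∀ (H : MvPolynomial (Fin (M + 1)) k) (d : ℕ), H.IsHomogeneous d → ∀ t,
      (hzt : Z t ≠ 0) → MvPolynomial.eval (u t) (MvPolynomial.map τ H) =
        (Z t ^ (m + 1)) ^ d * ev g (hpt t hzt) (evk a b w H) := by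
    intro H d hd t hzt
    have h1 : u t = fun l => Z t ^ (m + 1) *
        (((w l).1.map g).eval (X t / Z t) + ((w l).2.map g).eval (X t / Z t) * (Y t / Z t)) := by
      funext l
      exact hm_eq (hm1 l).1 (hm1 l).2 hzt
    have h2 := val_smul (hd.map τ) (Z t ^ (m + 1)) (fun l =>
      ((w l).1.map g).eval (X t / Z t) + ((w l).2.map g).eval (X t / Z t) * (Y t / Z t))
    unfold val at h2
    rw [MvPolynomial.aeval_eq_eval, MvPolynomial.aeval_eq_eval] at h2
    rw [h1, h2]
    congr 1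
    unfold evk
    rw [MvPolynomial.eval₂_comp_left, MvPolynomial.eval_map]
    congr 1
    · ext c
      rw [RingHom.comp_apply]
      unfold kap
      rw [RingHom.comp_apply, algebraMap_el, ev_el, eval₂_C, eval₂_zero, zero_mul, add_zero, hg]
    · funext l
      rw [Function.comp_apply, ev_el, eval_map, eval_map]
  -- the forms vanish
  have hF0 : ∀ e t, MvPolynomial.eval (u t) (MvPolynomial.map τ (F e)) = 0 := by
    intro e
    obtain ⟨d, hd⟩ := hF e
    have hdiff : Differentiable ℂ (fun t => MvPolynomial.eval (u t) (MvPolynomial.map τ (F e))) := by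
      intro t
      have h1 : AnalyticAt ℂ (fun t => MvPolynomial.aeval (u t) (MvPolynomial.map τ (F e))) t :=
        AnalyticAt.aeval_mvPolynomial (fun l => (differentiable_pi.1 hu l).analyticAt t) _
      exact h1.differentiableAt
    have aW : AnalyticOnNhd ℂ (fun t => MvPolynomial.eval (u t) (MvPolynomial.map τ (F e)))
        Set.univ := fun t _ => hdiff.analyticAt t
    have aZ : AnalyticOnNhd ℂ Z Set.univ := fun t _ => hZ.analyticAt t
    have h3 : ∀ t ∈ (Set.univ : Set ℂ), Z t *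
        (fun t => MvPolynomial.eval (u t) (MvPolynomial.map τ (F e))) t = 0 := by
      intro t _
      by_cases hzt : Z t = 0
      · rw [hzt, zero_mul]
      · simp only
        rw [hval (F e) d hd t hzt, h0, map_zero, mul_zero, mul_zero]
    rcases AnalyticOnNhd.eq_zero_or_eq_zero_of_mul_eq_zero aZ aW h3 isPreconnected_univ with h4 | h4
    · exact absurd (fun t => h4 t (Set.mem_univ t)) hZ0
    · exact fun t => h4 t (Set.mem_univ t)
  -- the form `G` does not vanish identically
  have hzne : ¬ ((z.1.map g) = 0 ∧ (z.2.map g) = 0) := by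
    rintro ⟨h1, h2⟩
    apply hr
    rw [← cf_map, h1, h2]
    simp [cf]
  have hGne : ∃ t, MvPolynomial.eval (u t) (MvPolynomial.map τ G) ≠ 0 := by
    by_contra hcon
    push Not at hcon
    apply hzne
    obtain ⟨d, hd⟩ := hG
    obtain ⟨m', hm'⟩ : ∃ m' : ℕ, (z.1.map g).natDegree ≤ m' ∧ (z.2.map g).natDegree ≤ m' :=
      ⟨max _ _, le_max_left _ _, le_max_right _ _⟩
    refine zero_of_norm (a := g a) (b := g b) (zero_of_values hX hZ hst _ fun t hzt => ?_)
    have h2 := hcon t
    rw [hval G d hd t hzt, hz, ev_el, mul_eq_zero,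
      or_iff_right (pow_ne_zero _ (pow_ne_zero _ hzt)), ← eval_map, ← eval_map] at h2
    simp only [eval_sub, eval_pow, eval_mul, eval_add, eval_X, eval_C]
    rw [← hpt t hzt]
    linear_combination ((z.1.map g).eval (X t / Z t) - (z.2.map g).eval (X t / Z t) *
      (Y t / Z t)) * h2
  -- a minor
  have hmn' : mn ((w i).1.map g, (w i).2.map g) ((w j).1.map g, (w j).2.map g) r₁ r₂ ≠ 0 := by
    rw [mn_map]
    exact hmn
  have hmn'' : mn ((w j).1.map g, (w j).2.map g) ((w i).1.map g, (w i).2.map g) r₁ r₂ ≠ 0 := by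
    intro h
    apply hmn'
    unfold mn at h ⊢
    linear_combination -h
  have hui : ∃ t, u t i ≠ 0 := by
    by_contra hcon
    push Not at hcon
    obtain ⟨h1, h2⟩ := zero_of_hm hX hZ hE hst (hm1 i).1 (hm1 i).2 hcon
    apply hmn'
    rw [h1, h2]
    simp [mn, cf]
  obtain ⟨ti, hti⟩ := hui
  obtain ⟨tG, htG, hune⟩ : ∃ t, MvPolynomial.eval (u t) (MvPolynomial.map τ G) ≠ 0 ∧ u t ≠ 0 := by
    by_contra hcon
    push Not at hcon
    have aG : AnalyticOnNhd ℂ (fun t => MvPolynomial.eval (u t) (MvPolynomial.map τ G))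
        Set.univ := fun t _ => by
      have h1 : AnalyticAt ℂ (fun t => MvPolynomial.aeval (u t) (MvPolynomial.map τ G)) t :=
        AnalyticAt.aeval_mvPolynomial (fun l => (differentiable_pi.1 hu l).analyticAt t) _
      exact h1
    have aU : AnalyticOnNhd ℂ (fun t => u t i) Set.univ := fun t _ =>
      (differentiable_pi.1 hu i).analyticAt t
    have h3 : ∀ t ∈ (Set.univ : Set ℂ), (fun t => MvPolynomial.eval (u t)
        (MvPolynomial.map τ G)) t * (fun t => u t i) t = 0 := by
      intro t _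
      by_cases h : MvPolynomial.eval (u t) (MvPolynomial.map τ G) = 0
      · simp only [h, zero_mul]
      · simp only [hcon t h, Pi.zero_apply, mul_zero]
    rcases AnalyticOnNhd.eq_zero_or_eq_zero_of_mul_eq_zero aG aU h3 isPreconnected_univ with h4 | h4
    · obtain ⟨t, ht⟩ := hGne
      exact ht (h4 t (Set.mem_univ t))
    · exact hti (h4 ti (Set.mem_univ ti))
  obtain ⟨f, hf, hfu⟩ := holMap_of_entire hu ⟨ti, fun h => hti (congrFun h i)⟩
  -- relations
  have hrep : ∀ t (h : u t ≠ 0), ∃ c : ℂ, c ≠ 0 ∧ u t = c • (f t).rep := by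
    intro t h
    rw [hfu t h]
    obtain ⟨c, hc⟩ := Projectivization.exists_smul_eq_mk_rep ℂ (u t) h
    refine ⟨(c : ℂ)⁻¹, inv_ne_zero c.ne_zero, ?_⟩
    rw [← hc]
    change u t = (c : ℂ)⁻¹ • ((c : ℂ) • u t)
    rw [smul_smul, inv_mul_cancel₀ c.ne_zero, one_smul]
  have hform : ∀ (H : MvPolynomial (Fin (M + 1)) ℂ), IsForm H →
      (∀ t, MvPolynomial.eval (u t) H = 0) → ∀ t, val (f t).rep H = 0 := by
    rintro H ⟨d, hd⟩ h t
    -- near `t`
    obtain ⟨V, v, hV, htV, hv, hfv⟩ := hf t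
    have hvt := (hfv t htV).1
    have hH : ∀ᶠ s in nhdsWithin t {t}ᶜ, MvPolynomial.eval (v s) H = 0 := by
      -- `u` has isolated zeros
      have h1 : ∀ᶠ s in nhdsWithin t {t}ᶜ, u s ≠ 0 := by
        obtain ⟨m1, v1, hv1, hv10, hv11⟩ := exists_lead hu ⟨ti, fun h => hti (congrFun h i)⟩ t
        have h2 : ∀ᶠ s in nhds t, v1 s ≠ 0 ∧ u s = (s - t) ^ m1 • v1 s :=
          (hv1.continuousAt.eventually_ne hv10).and hv11
        filter_upwards [h2.filter_mono nhdsWithin_le_nhds, self_mem_nhdsWithin] with s hs hst'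
        rw [hs.2]
        exact smul_ne_zero (pow_ne_zero _ (sub_ne_zero.2 hst')) hs.1
      filter_upwards [h1, nhdsWithin_le_nhds (hV.mem_nhds htV)] with s hs hsV
      obtain ⟨h3, h4⟩ := hfv s hsV
      obtain ⟨c, hc0, hc⟩ := hrep s hs
      obtain ⟨c', hc'⟩ := Projectivization.exists_smul_eq_mk_rep ℂ (v s) h3
      rw [h4, ← hc'] at hc
      have h5 : u s = fun l => (c * c') * v s l := by
        rw [hc]
        funext l
        simp only [Pi.smul_apply, smul_eq_mul, Units.smul_def]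
        ring
      have h6 := h s
      rw [h5] at h6
      have h7 := val_smul hd (c * (c' : ℂ)) (v s)
      unfold val at h7
      rw [MvPolynomial.aeval_eq_eval, MvPolynomial.aeval_eq_eval] at h7
      rw [h7] at h6
      exact (mul_eq_zero.1 h6).resolve_left (pow_ne_zero _ (mul_ne_zero hc0 c'.ne_zero))
    have hcont : ContinuousAt (fun s => MvPolynomial.eval (v s) H) t := by
      have h1 : AnalyticAt ℂ (fun s => MvPolynomial.aeval (v s) H) t :=
        AnalyticAt.aeval_mvPolynomial (fun l => by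
          have := (hv.analyticAt (hV.mem_nhds htV))
          exact (analyticAt_pi_iff.1 this) l) _
      exact h1.continuousAt
    have h8 : MvPolynomial.eval (v t) H = 0 := by
      have h9 := (hcont.tendsto.mono_left (nhdsWithin_le_nhds (s := {t}ᶜ)))
      have h10 : Filter.Tendsto (fun s => MvPolynomial.eval (v s) H) (nhdsWithin t {t}ᶜ) (nhds 0) :=
        tendsto_const_nhds.congr' (hH.mono fun s hs => hs.symm)
      exact tendsto_nhds_unique h9 h10
    obtain ⟨h11, h12⟩ := hfv t htV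
    rw [h12]
    obtain ⟨c', hc'⟩ := Projectivization.exists_smul_eq_mk_rep ℂ (v t) h11
    rw [← hc']
    have h13 := val_smul hd (c' : ℂ) (v t)
    have h14 : (c' • v t : Fin (M + 1) → ℂ) = fun l => (c' : ℂ) * v t l := rfl
    rw [h14, h13]
    unfold val
    rw [MvPolynomial.aeval_eq_eval, h8, mul_zero]
  refine ⟨f, ⟨hf, fun t => ⟨(f t).rep_nonzero, fun e => hform _ ?_ (hF0 e) t⟩⟩, ?_, tG, ?_⟩
  · obtain ⟨d, hd⟩ := hF e
    exact ⟨d, hd.map τ⟩
  · intro hconst
    have hrel : ∀ t, u t i * (f 0).rep j = u t j * (f 0).rep i := by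
      intro t
      by_cases h : u t = 0
      · rw [h]
        simp
      · obtain ⟨c, -, hc⟩ := hrep t h
        rw [hc, hconst t 0]
        simp only [Pi.smul_apply, smul_eq_mul]
        ring
    have hcm : ∀ (c : ℂ) (l : Fin (M + 1)) (t : ℂ),
        hm m (C c * (w l).1.map g) (C c * (w l).2.map g) X Y Z t = c * u t l := by
      intro c l t
      change _ = c * hm m _ _ X Y Z t
      unfold hm
      simp only [coeff_C_mul, mul_add, Finset.mul_sum, Finset.sum_mul]
      congr 1
      · exact Finset.sum_congr rfl fun _ _ => by ring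
      · exact Finset.sum_congr rfl fun _ _ => by ring
    have hsub : ∀ (p q p' q' : ℂ[X]) (t : ℂ), hm m (p - p') (q - q') X Y Z t =
        hm m p q X Y Z t - hm m p' q' X Y Z t := by
      intro p q p' q' t
      unfold hm
      simp only [coeff_sub, sub_mul, Finset.sum_sub_distrib]
      ring
    have hdeg : ∀ (c : ℂ) (p : ℂ[X]), p.natDegree ≤ m → (C c * p).natDegree ≤ m := fun c p hp =>
      (natDegree_C_mul_le c p).trans hp
    have hzero := zero_of_hm (a := g a) (b := g b) (Y := Y) hX hZ hE hst (m := m)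
      (p := C ((f 0).rep j) * (w i).1.map g - C ((f 0).rep i) * (w j).1.map g)
      (q := C ((f 0).rep j) * (w i).2.map g - C ((f 0).rep i) * (w j).2.map g)
      ((natDegree_sub_le _ _).trans (max_le (hdeg _ _ (hm1 i).1) (hdeg _ _ (hm1 j).1)))
      ((natDegree_sub_le _ _).trans (max_le (hdeg _ _ (hm1 i).2) (hdeg _ _ (hm1 j).2)))
      (fun t => by
        rw [hsub, hcm, hcm]
        linear_combination hrel t)
    have h1 := rel_of_mn hmn' (sub_eq_zero.1 hzero.1) (sub_eq_zero.1 hzero.2)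
    have h2 := rel_of_mn hmn'' (sub_eq_zero.1 hzero.1).symm (sub_eq_zero.1 hzero.2).symm
    apply hti
    obtain ⟨c, -, hc⟩ := hrep ti fun h => hti (congrFun h i)
    rw [hc, hconst ti 0, Pi.smul_apply, h2, smul_zero]
  · obtain ⟨d, hd⟩ := hG
    obtain ⟨c, hc0, hc⟩ := hrep tG hune
    intro h
    apply htG
    have h13 := val_smul (hd.map τ) c ((f tG).rep)
    have h14 : u tG = fun l => c * (f tG).rep l := hc
    rw [h14]
    unfold val at h13 h
    rw [MvPolynomial.aeval_eq_eval, MvPolynomial.aeval_eq_eval] at h13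
    rw [MvPolynomial.aeval_eq_eval] at h
    rw [h13, h, mul_zero]

theorem exists_embed {k : Type} [Field k] (τ : k →+* ℂ) (L : Type) [Field L] [Algebra k L]
    [FiniteDimensional k L] : ∃ ρ : L →+* ℂ, ∀ c, ρ (algebraMap k L c) = τ c := by
  let _ : Algebra k ℂ := τ.toAlgebra
  have : Algebra.IsAlgebraic k L := Algebra.IsAlgebraic.of_finite k L
  let ψ : L →ₐ[k] ℂ := IsAlgClosed.lift
  exact ⟨ψ, fun c => ψ.commutes c⟩

/-- **Curves which are not of general type and entire curves, for all embeddings.** -/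
theorem curve_of_low {k : Type} [Field k] [NumberField k] (σ τ : k →+* ℂ) {M : ℕ} {ι : Type}
    (F : ι → MvPolynomial (Fin (M + 1)) k) (hF : ∀ e, IsForm (F e))
    (G : MvPolynomial (Fin (M + 1)) k) (hG : IsForm G)
    {K : Type} [Field K] [Algebra ℂ K] {y : Fin (M + 1) → K}
    (hy : SubVar (fun e => MvPolynomial.map σ (F e)) K 1 y)
    (hGy : val y (MvPolynomial.map σ G) ≠ 0) (hgt : ¬ GeneralType ℂ K 1) :
    ∃ f, CurveIn (Cone (fun e => MvPolynomial.map τ (F e))) f ∧ ¬ IsConst f ∧
      ∃ t, val (f t).rep (MvPolynomial.map τ G) ≠ 0 := by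
  obtain ⟨E, i1, i2, φ, a, b, x, z, i, j, hab, hxz, hgen, hj, htr⟩ := ell_of_low hy hgt
  let _ : Algebra k ℂ := σ.toAlgebra
  have hmap : algebraMap k ℂ = σ := rfl
  have hval : ∀ H : MvPolynomial (Fin (M + 1)) ℂ, val (fun l => φ (y l)) H = φ (val y H) := by
    intro H
    unfold val
    rw [MvPolynomial.comp_aeval_apply]
  obtain ⟨R, i1, i2, i3, i4, a₀, b₀, w, z, r, r₁, r₂, h1, h2, h3, h4, -⟩ :=
    cert F hF G hG hab hxz hgen (fun l => φ (y l)) i j hj htr (fun e => by
      rw [hmap, hval, hy.mem e, map_zero]) (by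
      rw [hmap, hval]
      exact (map_ne_zero φ).2 hGy)
  obtain ⟨L, j1, j2, j3, φ₁, hφ₁⟩ := exists_spec k R (cf z r * mn (w i) (w j) r₁ r₂)
    (mul_ne_zero h3 h4)
  obtain ⟨ρ, hρ⟩ := exists_embed τ L
  rw [map_mul] at hφ₁
  refine entire_of_evk τ F hF G hG (ρ.comp φ₁.toRingHom) (fun c => ?_) a₀ b₀ w h1 z h2 r ?_ i j r₁ r₂
    ?_
  · change ρ (φ₁ (algebraMap k R c)) = τ c
    rw [φ₁.commutes, hρ]
  · exact (map_ne_zero ρ).2 (left_ne_zero_of_mul hφ₁)
  · exact (map_ne_zero ρ).2 (right_ne_zero_of_mul hφ₁)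

end Pool.Agent.T2h91
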