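import Pool.Agent.T2h91.KCov

/-!
Rational curves in Kummer covers: removal of common zeros, base change, points.
-/

set_option autoImplicit false

open MvPolynomial

namespace Pool.Agent.T2h91.KU

/-- scaling of weighted homogeneous polynomials -/
theorem wh_scale {ι k R : Type} [CommRing k] [CommRing R] {w : ι → ℕ} {B : MvPolynomial ι k} {D : ℕ}
    (hB : IsWeightedHomogeneous w B D) (f : k →+* R) (x : ι → R) (l : R) :
    eval₂ f (fun i => l ^ w i * x i) B = l ^ D * eval₂ f x B := by
  classical
  rw [eval₂_eq, eval₂_eq, Finset.mul_sum]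
  refine Finset.sum_congr rfl fun a ha => ?_
  have h1 : Finsupp.weight w a = D := hB (mem_support_iff.mp ha)
  have h2 : ∏ i ∈ a.support, (l ^ w i * x i) ^ a i =
      l ^ D * ∏ i ∈ a.support, x i ^ a i := by
    simp only [mul_pow]
    rw [Finset.prod_mul_distrib]
    congr 1
    simp only [← pow_mul]
    rw [Finset.prod_pow_eq_pow_sum, ← h1, Finsupp.weight_apply, Finsupp.sum]
    congr 1
    refine Finset.sum_congr rfl fun i _ => ?_
    rw [smul_eq_mul, mul_comm]
  rw [h2]
  ring

theorem h_scale {ι k R : Type} [CommRing k] [CommRing R] {B : MvPolynomial ι k} {D : ℕ}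
    (hB : B.IsHomogeneous D) (f : k →+* R) (x : ι → R) (l : R) :
    eval₂ f (fun i => l * x i) B = l ^ D * eval₂ f x B := by
  have h := wh_scale (w := fun _ => 1) (D := D) (B := B) (by
    unfold IsHomogeneous at hB
    exact hB) f x l
  simpa using h

section

variable {k : Type} [Field k] {n r : ℕ} {X : Cover k n r} {m : ℕ}

/-- base change of solutions -/
theorem Cover.On.map {R S : Type} [CommRing R] [CommRing S] {σ : k →+* R} {u : Fin (n + 1) → R}
    {v : Fin r → R} (h : X.On m σ u v) (g : R →+* S) :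
    X.On m (g.comp σ) (fun i => g (u i)) (fun j => g (v j)) := by
  refine ⟨fun i => ?_, fun j => ?_⟩
  · have h1 := congrArg g (h.1 i)
    rw [eval₂_comp_left, map_zero] at h1
    convert h1 using 2
    funext a
    simp
  · have h1 := congrArg g (h.2 j)
    rw [eval₂_comp_left, map_pow] at h1
    convert h1 using 2
    funext a
    simp

theorem Cover.On.of_map {R S : Type} [CommRing R] [CommRing S] {σ : k →+* R}
    {u : Fin (n + 1) → R} {v : Fin r → R} {g : R →+* S} (hg : Function.Injective g)
    (h : X.On m (g.comp σ) (fun i => g (u i)) (fun j => g (v j))) : X.On m σ u v := by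
  refine ⟨fun i => hg ?_, fun j => hg ?_⟩
  · rw [eval₂_comp_left, map_zero]
    convert h.1 i using 2
    funext a
    simp
  · rw [eval₂_comp_left, map_pow]
    convert h.2 j using 2
    funext a
    simp

theorem Cover.Closed.eval_map (Z : X.Closed m) {R S : Type} [CommRing R] [CommRing S] (σ : k →+* R)
    (u : Fin (n + 1) → R) (v : Fin r → R) (g : R →+* S) (l : Z.I) :
    eval₂ (g.comp σ) (Sum.elim (fun i => g (u i)) (fun j => g (v j))) (Z.P l) =
      g (eval₂ σ (Sum.elim u v) (Z.P l)) := by
  rw [eval₂_comp_left]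
  congr 1
  funext a
  cases a <;> rfl

/-- scaling by the weights -/
theorem Cover.scale_on (hm : ∀ j, X.e j ∣ m) {R : Type} [CommRing R] [IsDomain R] {σ : k →+* R}
    {u : Fin (n + 1) → R} {v : Fin r → R} {g : R} (hg : g ≠ 0)
    (h : X.On m σ (fun i => g * u i) (fun j => g ^ X.wt m j * v j)) : X.On m σ u v := by
  refine ⟨fun i => ?_, fun j => ?_⟩
  · obtain ⟨a, ha⟩ := X.hE i
    have h1 := h.1 i
    have h2 : (fun b => (g * u b) ^ m) = fun b => g ^ m * u b ^ m := by
      funext b
      rw [mul_pow]
    rw [h2, h_scale ha, mul_eq_zero] at h1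
    exact h1.resolve_left (pow_ne_zero _ (pow_ne_zero _ hg))
  · have h1 := h.2 j
    have h2 : (fun b => (g * u b) ^ m) = fun b => g ^ m * u b ^ m := by
      funext b
      rw [mul_pow]
    rw [h2, h_scale (X.hF j), mul_pow, ← pow_mul, ← pow_mul] at h1
    have h3 : X.wt m j * X.e j = m * X.d j := by
      unfold Cover.wt
      exact Nat.div_mul_cancel ((hm j).mul_right _)
    rw [h3] at h1
    exact mul_left_cancel₀ (pow_ne_zero _ hg) h1

/-- division by a common factor, for polynomials in one variable -/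
theorem Cover.div (hm : ∀ j, X.e j ∣ m) {L : Type} [Field L] {σ : k →+* Polynomial L}
    {p : Fin (n + 1) → Polynomial L} {s : Fin r → Polynomial L} {g : Polynomial L} (hg : g ≠ 0)
    (h : X.On m σ (fun i => g * p i) s) :
    ∃ s' : Fin r → Polynomial L, (∀ j, s j = g ^ X.wt m j * s' j) ∧ X.On m σ p s' := by
  have h1 : ∀ j, ∃ t, s j = g ^ X.wt m j * t := by
    intro j
    have h1 := h.2 j
    have h2 : (fun b => (g * p b) ^ m) = fun b => g ^ m * p b ^ m := by
      funext b
      rw [mul_pow]
    have h3 : X.wt m j * X.e j = m * X.d j := by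
      unfold Cover.wt
      exact Nat.div_mul_cancel ((hm j).mul_right _)
    rw [h2, h_scale (X.hF j), ← pow_mul, ← h3, pow_mul] at h1
    have h4 : (g ^ X.wt m j) ^ X.e j ∣ s j ^ X.e j := ⟨_, h1⟩
    exact (IsIntegrallyClosed.pow_dvd_pow_iff (X.he j).ne').1 h4
  choose s' hs' using h1
  refine ⟨s', hs', Cover.scale_on hm hg ?_⟩
  have h2 : s = fun j => g ^ X.wt m j * s' j := funext hs'
  rwa [h2] at h

/-- the equations of `Z` and scaling -/
theorem Cover.Closed.scale (Z : X.Closed m) {R : Type} [CommRing R] [IsDomain R] {σ : k →+* R}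
    {u : Fin (n + 1) → R} {v : Fin r → R} {g : R} (hg : g ≠ 0) :
    Z.On σ (fun i => g * u i) (fun j => g ^ X.wt m j * v j) ↔ Z.On σ u v := by
  have key : ∀ l, ∃ D, eval₂ σ (Sum.elim (fun i => g * u i) (fun j => g ^ X.wt m j * v j))
      (Z.P l) = g ^ D * eval₂ σ (Sum.elim u v) (Z.P l) := by
    intro l
    obtain ⟨D, hD⟩ := Z.hP l
    refine ⟨D, ?_⟩
    rw [← wh_scale hD]
    congr 1
    funext a
    cases a <;> simp
  constructor
  · intro h l
    obtain ⟨D, hD⟩ := key l
    have h1 := h l
    rw [hD, mul_eq_zero] at h1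
    exact h1.resolve_left (pow_ne_zero _ hg)
  · intro h l
    obtain ⟨D, hD⟩ := key l
    rw [hD, h l, mul_zero]

/-- the same points have the same equations -/
theorem Cover.Closed.on_same (Z : X.Closed m) {L : Type} [Field L] {σ : k →+* L}
    {u u' : Fin (n + 1) → L} {v v' : Fin r → L} (h : X.Same m u v u' v') :
    Z.On σ u' v' ↔ Z.On σ u v := by
  obtain ⟨s, hs, h1, h2⟩ := h
  have h3 : u' = fun i => s * u i := funext h1
  have h4 : v' = fun j => s ^ X.wt m j * v j := funext h2
  rw [h3, h4, Z.scale hs]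

/-- **Removal of common zeros.** -/
theorem Cover.Closed.Rat.reduce {Z : X.Closed m} (hm : ∀ j, X.e j ∣ m) {L : Type} [Field L]
    {σ : k →+* L} {p : Fin (n + 1) → Polynomial L} {s : Fin r → Polynomial L} (h : Z.Rat σ p s) :
    ∃ p' s', Z.Rat σ p' s' ∧ ∃ a : Fin (n + 1) → Polynomial L, ∑ i, a i * p' i = 1 := by
  classical
  obtain ⟨i, j, a, b, hab⟩ := h.nonconst
  -- the greatest common divisor
  let J : Ideal (Polynomial L) := Ideal.span (Set.range p)
  let g := Submodule.IsPrincipal.generator J
  have hg0 : g ≠ 0 := by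
    intro h0
    have h1 : J = ⊥ := by
      rw [← Submodule.IsPrincipal.eq_bot_iff_generator_eq_zero] at h0
      exact h0
    have h2 : ∀ i, p i = 0 := by
      intro i
      have h3 : p i ∈ J := Ideal.subset_span ⟨i, rfl⟩
      rw [h1] at h3
      exact (Submodule.mem_bot _).1 h3
    apply hab
    rw [h2 i, h2 j]
  have hdvd : ∀ i, ∃ q, p i = g * q := by
    intro i
    have h3 : p i ∈ J := Ideal.subset_span ⟨i, rfl⟩
    exact (Submodule.IsPrincipal.mem_iff_generator_dvd J).1 h3
  choose p' hp' using hdvd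
  have hpp : p = fun i => g * p' i := funext hp'
  obtain ⟨s', hs', hon⟩ := Cover.div (X := X) (m := m) hm (σ := Polynomial.C.comp σ) hg0 (p := p')
    (s := s) (by
      have h1 := h.on
      rwa [hpp] at h1)
  have hss : s = fun j => g ^ X.wt m j * s' j := funext hs'
  refine ⟨p', s', ⟨hon, ?_, ?_⟩, ?_⟩
  · have h1 := h.off
    rw [hpp, hss, Z.scale hg0] at h1
    exact h1
  · by_contra hcon
    push Not at hcon
    have h1 : ∀ i j, p' i * Polynomial.C ((p' j).leadingCoeff) = p' j * Polynomial.C
        ((p' i).coeff (p' j).natDegree) := by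
      intro i j
      ext c
      rw [Polynomial.coeff_mul_C, Polynomial.coeff_mul_C]
      exact hcon i j c _
    apply hab
    by_cases hj : p' j = 0
    · rw [hp' j, hj]
      simp
    · have h2 := h1 i j
      have h3 : (p' j).leadingCoeff ≠ 0 := Polynomial.leadingCoeff_ne_zero.2 hj
      obtain ⟨c, hc⟩ : ∃ c : L, p' i = Polynomial.C c * p' j := by
        refine ⟨(p' i).coeff (p' j).natDegree / (p' j).leadingCoeff, ?_⟩
        have h4 : Polynomial.C (p' j).leadingCoeff ≠ 0 := Polynomial.C_ne_zero.2 h3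
        apply mul_right_cancel₀ h4
        rw [h2, mul_right_comm, ← Polynomial.C_mul, div_mul_cancel₀ _ h3, mul_comm]
      have h4 : p i = Polynomial.C c * p j := by
        rw [hp' i, hp' j, hc]
        ring
      rw [h4, Polynomial.coeff_C_mul, Polynomial.coeff_C_mul]
      ring
  · have h1 : g ∈ J := Submodule.IsPrincipal.generator_mem J
    obtain ⟨a, ha⟩ := (Ideal.mem_span_range_iff_exists_fun).1 h1
    refine ⟨a, ?_⟩
    apply mul_left_cancel₀ hg0
    rw [mul_one, Finset.mul_sum]
    conv_rhs => rw [← ha]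
    refine Finset.sum_congr rfl fun i _ => ?_
    rw [hp' i]
    ring

/-- base change of rational curves -/
theorem Cover.Closed.Rat.map {Z : X.Closed m} {L M : Type} [Field L] [Field M]
    {σ : k →+* L} {p : Fin (n + 1) → Polynomial L} {s : Fin r → Polynomial L} (h : Z.Rat σ p s)
    (f : L →+* M) : Z.Rat (f.comp σ) (fun i => (p i).map f) (fun j => (s j).map f) := by
  have hc : (Polynomial.mapRingHom f).comp (Polynomial.C.comp σ) = Polynomial.C.comp (f.comp σ) := by
    ext x
    simp
  refine ⟨?_, ?_, ?_⟩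
  · have h1 := h.on.map (Polynomial.mapRingHom f)
    rw [hc] at h1
    exact h1
  · intro h1
    apply h.off
    intro l
    have h2 := Z.eval_map (Polynomial.C.comp σ) p s (Polynomial.mapRingHom f) l
    rw [hc] at h2
    have h3 := h1 l
    have h4 : (Polynomial.mapRingHom f) (eval₂ (Polynomial.C.comp σ) (Sum.elim p s) (Z.P l)) = 0 := by
      rw [← h2]
      exact h3
    exact (map_eq_zero_iff _ (Polynomial.map_injective f f.injective)).1 h4
  · obtain ⟨i, j, a, b, hab⟩ := h.nonconst
    refine ⟨i, j, a, b, ?_⟩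
    rw [Polynomial.coeff_map, Polynomial.coeff_map, Polynomial.coeff_map, Polynomial.coeff_map,
      ← map_mul, ← map_mul]
    exact fun h => hab (f.injective h)

end

end Pool.Agent.T2h91.KU
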