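import Pool.Agent.T2h91.KAlg
import Pool.Agent.Q103.AR.Spec

/-!
Rational curves in Kummer covers over the complex numbers and over number fields, and infinitely
many points.
-/

set_option autoImplicit false

open MvPolynomial

namespace Pool.Agent.T2h91.KU

variable {k : Type} [Field k] {n r : ℕ} {X : Cover k n r} {m : ℕ}

/-- **Spreading out:** a rational curve over an extension field yields a rational curve over a
finite extension. -/
theorem Cover.Closed.Rat.spread {Z : X.Closed m} {Ω : Type} [Field Ω] {σ : k →+* Ω}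
    {p : Fin (n + 1) → Polynomial Ω} {s : Fin r → Polynomial Ω} (h : Z.Rat σ p s) :
    ∃ (L : Type) (_ : Field L) (_ : Algebra k L) (_ : FiniteDimensional k L)
      (p' : Fin (n + 1) → Polynomial L) (s' : Fin r → Polynomial L),
      Z.Rat (algebraMap k L) p' s' := by
  classical
  let _ : Algebra k Ω := σ.toAlgebra
  -- the coefficients
  let S : Set Ω := ⋃ i : Fin (n + 1) ⊕ Fin r, ((Sum.elim p s i).coeffs : Set Ω)
  have hSf : S.Finite := Set.finite_iUnion fun i => Finset.finite_toSet _
  let R : Subalgebra k Ω := Algebra.adjoin k S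
  have hRfg : Algebra.FiniteType k R := .adjoin_of_finite hSf
  have hcoef : ∀ (i : Fin (n + 1) ⊕ Fin r) a, (Sum.elim p s i).coeff a ∈ R := by
    intro i a
    by_cases h0 : (Sum.elim p s i).coeff a = 0
    · rw [h0]
      exact zero_mem _
    · apply Algebra.subset_adjoin
      rw [Set.mem_iUnion]
      exact ⟨i, Polynomial.coeff_mem_coeffs h0⟩
  have hlift : ∀ i, ∃ q : Polynomial R, q.map (algebraMap R Ω) = Sum.elim p s i := by
    intro i
    have h1 : Sum.elim p s i ∈ Polynomial.lifts (algebraMap R Ω) := by
      rw [Polynomial.lifts_iff_coeff_lifts]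
      intro a
      exact ⟨⟨_, hcoef i a⟩, rfl⟩
    obtain ⟨q, hq⟩ := h1
    exact ⟨q, hq⟩
  choose q hq using hlift
  let P : Fin (n + 1) → Polynomial R := fun i => q (Sum.inl i)
  let V : Fin r → Polynomial R := fun j => q (Sum.inr j)
  have hinjR : Function.Injective (algebraMap R Ω) := Subtype.val_injective
  have hinj : Function.Injective (Polynomial.mapRingHom (algebraMap R Ω)) :=
    Polynomial.map_injective _ hinjR
  have hcomp : (Polynomial.mapRingHom (algebraMap R Ω)).comp
      (Polynomial.C.comp (algebraMap k R)) = Polynomial.C.comp σ := by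
    ext x
    simp only [RingHom.comp_apply, Polynomial.coe_mapRingHom, Polynomial.map_C]
    congr 1
  have hP : (fun i => Polynomial.mapRingHom (algebraMap R Ω) (P i)) = p := funext fun i => hq _
  have hV : (fun j => Polynomial.mapRingHom (algebraMap R Ω) (V j)) = s := funext fun j => hq _
  have hon : X.On m (Polynomial.C.comp (algebraMap k R)) P V := by
    refine Cover.On.of_map hinj ?_
    rw [hcomp, hP, hV]
    exact h.on
  obtain ⟨l, hl⟩ : ∃ l, eval₂ (Polynomial.C.comp (algebraMap k R)) (Sum.elim P V) (Z.P l) ≠ 0 := by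
    by_contra hcon
    push Not at hcon
    apply h.off
    intro l
    have h1 := Z.eval_map (Polynomial.C.comp (algebraMap k R)) P V
      (Polynomial.mapRingHom (algebraMap R Ω)) l
    rw [hcomp, hP, hV, hcon l, map_zero] at h1
    exact h1
  obtain ⟨c, hc⟩ : ∃ c, (eval₂ (Polynomial.C.comp (algebraMap k R)) (Sum.elim P V)
      (Z.P l)).coeff c ≠ 0 := by
    by_contra hcon
    push Not at hcon
    exact hl (Polynomial.ext fun c => by rw [hcon c, Polynomial.coeff_zero])
  obtain ⟨i, j, a, b, hab⟩ := h.nonconst
  have hab' : (P i).coeff a * (P j).coeff b - (P j).coeff a * (P i).coeff b ≠ 0 := by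
    intro h0
    apply hab
    have h1 : ∀ i c, (p i).coeff c = algebraMap R Ω ((P i).coeff c) := by
      intro i c
      rw [← hP]
      simp
    rw [h1, h1, h1, h1, ← map_mul, ← map_mul, sub_eq_zero.1 h0]
  obtain ⟨L, j1, j2, j3, φ, hφ⟩ := Pool.Agent.Q103.AR.exists_spec k R _ (mul_ne_zero hc hab')
  have hcomp' : (Polynomial.mapRingHom φ.toRingHom).comp
      (Polynomial.C.comp (algebraMap k R)) = Polynomial.C.comp (algebraMap k L) := by
    ext x
    simp
  refine ⟨L, j1, j2, j3, fun i => (P i).map φ.toRingHom, fun j => (V j).map φ.toRingHom, ?_, ?_, ?_⟩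
  · have h1 := hon.map (Polynomial.mapRingHom φ.toRingHom)
    rw [hcomp'] at h1
    exact h1
  · intro h1
    rw [map_mul] at hφ
    apply left_ne_zero_of_mul hφ
    have h2 := h1 l
    have h3 := Z.eval_map (Polynomial.C.comp (algebraMap k R)) P V
      (Polynomial.mapRingHom φ.toRingHom) l
    rw [hcomp'] at h3
    have h4 : (Polynomial.mapRingHom φ.toRingHom) (eval₂ (Polynomial.C.comp (algebraMap k R))
        (Sum.elim P V) (Z.P l)) = 0 := by
      rw [← h3]
      exact h2
    have h5 := congrArg (fun q : Polynomial L => q.coeff c) h4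
    simpa using h5
  · refine ⟨i, j, a, b, fun h0 => ?_⟩
    rw [map_mul] at hφ
    apply right_ne_zero_of_mul hφ
    rw [map_sub, map_mul, map_mul, sub_eq_zero]
    simpa using h0

/-- **Infinitely many points** on a rational curve. -/
theorem Cover.Closed.Rat.not_finite {Z : X.Closed m} {L : Type} [Field L] [Infinite L]
    [Algebra k L] {p : Fin (n + 1) → Polynomial L} {s : Fin r → Polynomial L}
    (h : Z.Rat (algebraMap k L) p s) : ¬ Z.Finite L := by
  classical
  rintro ⟨T, hT⟩
  obtain ⟨i, j, a, b, hab⟩ := h.nonconst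
  obtain ⟨l, hl⟩ : ∃ l, eval₂ (Polynomial.C.comp (algebraMap k L)) (Sum.elim p s) (Z.P l) ≠ 0 := by
    by_contra hcon
    push Not at hcon
    exact h.off hcon
  have hpi : p i ≠ 0 := by
    intro h0
    apply hab
    rw [h0]
    simp
  -- the minors
  let W : (Fin (n + 1) → L) × (Fin r → L) → Polynomial L := fun t =>
    Polynomial.C (t.1 j) * p i - Polynomial.C (t.1 i) * p j
  have hW : ∀ t, W t = 0 → t.1 i = 0 := by
    intro t ht
    by_contra hti
    apply hab
    have h1 : p j = Polynomial.C (t.1 j / t.1 i) * p i := by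
      have h2 : Polynomial.C (t.1 i) ≠ 0 := Polynomial.C_ne_zero.2 hti
      apply mul_left_cancel₀ h2
      rw [← mul_assoc, ← Polynomial.C_mul, mul_div_cancel₀ _ hti]
      exact (sub_eq_zero.1 ht).symm
    rw [h1, Polynomial.coeff_C_mul, Polynomial.coeff_C_mul]
    ring
  let B : Polynomial L := p i * eval₂ (Polynomial.C.comp (algebraMap k L)) (Sum.elim p s) (Z.P l) *
    ∏ t ∈ T, if W t = 0 then 1 else W t
  have hB : B ≠ 0 := by
    refine mul_ne_zero (mul_ne_zero hpi hl) (Finset.prod_ne_zero_iff.2 fun t _ => ?_)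
    split_ifs with h0
    · exact one_ne_zero
    · exact h0
  obtain ⟨x, hx⟩ : ∃ x, B.eval x ≠ 0 := by
    by_contra hcon
    push Not at hcon
    exact hB (Polynomial.funext fun x => by rw [hcon x, Polynomial.eval_zero])
  rw [Polynomial.eval_mul, Polynomial.eval_mul] at hx
  have hx1 := left_ne_zero_of_mul (left_ne_zero_of_mul hx)
  have hx2 := right_ne_zero_of_mul (left_ne_zero_of_mul hx)
  have hx3 := right_ne_zero_of_mul hx
  rw [Polynomial.eval_prod] at hx3
  have hev : (Polynomial.evalRingHom x).comp (Polynomial.C.comp (algebraMap k L)) =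
      algebraMap k L := by
    ext y
    simp
  obtain ⟨t, ht, c, hc, hc1, -⟩ := hT (fun i => (p i).eval x) (fun j => (s j).eval x)
    (fun h0 => hx1 (congrFun h0 i)) (by
      have h1 := h.on.map (Polynomial.evalRingHom x)
      rw [hev] at h1
      exact h1) (by
      intro h0
      apply hx2
      have h1 := Z.eval_map (Polynomial.C.comp (algebraMap k L)) p s (Polynomial.evalRingHom x) l
      rw [hev] at h1
      have h2 : eval₂ (algebraMap k L) (Sum.elim (fun i => (Polynomial.evalRingHom x) (p i))
        (fun j => (Polynomial.evalRingHom x) (s j))) (Z.P l) = 0 := h0 l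
      rw [h1] at h2
      exact h2)
  have h1 := Finset.prod_ne_zero_iff.1 hx3 t ht
  have hci : (p i).eval x = c * t.1 i := hc1 i
  have hcj : (p j).eval x = c * t.1 j := hc1 j
  by_cases h0 : W t = 0
  · exact hx1 (by rw [hci, hW t h0, mul_zero])
  · rw [if_neg h0] at h1
    apply h1
    simp only [W, Polynomial.eval_sub, Polynomial.eval_mul, Polynomial.eval_C]
    rw [hci, hcj]
    ring

end Pool.Agent.T2h91.KU
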