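import Pool.Agent.T2h91.KDefs
import Pool.Agent.T2h91.KPts
import Pool.Agent.Y192.KC.All4
import Pool.Agent.Y192.FN.All

/-!
Rational curves and hyperbolicity of the Kummer covers over the complex numbers.
-/

set_option autoImplicit false

open MvPolynomial Metric Filter Topology FF
open Pool.Agent.W603.LV (canDeg)
open Pool.Agent.W603.PV (pht)
open Pool.Agent.Y192.KC (Proj LProj)
open Pool.Agent.Y192.FN (NDat Sol NMap NGm NSpU InSp NWH)

namespace Pool.Agent.T2h91.KU

variable {k : Type} [Field k] {n r : ℕ} {X : Cover k n r} {m : ℕ}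

/-- the complex variety -/
noncomputable def Cover.toL (X : Cover k n r) (σ : k →+* ℂ) : LProj n r where
  E := Set.range fun i => MvPolynomial.map σ (X.E i)
  F := fun j => MvPolynomial.map σ (X.F j)
  d := X.d
  e := X.e
  hE := by
    rintro _ ⟨i, rfl⟩
    obtain ⟨a, ha⟩ := X.hE i
    exact ⟨a, ha.map σ⟩
  hF := fun j => (X.hF j).map σ
  he := X.he
  G := 1
  q := 0
  hG := isHomogeneous_one _ _

theorem toL_pt {σ : k →+* ℂ} {u : Fin (n + 1) → ℂ} {v : Fin r → ℂ} :
    (X.toL σ).Pt m u v ↔ u ≠ 0 ∧ X.On m σ u v := by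
  constructor
  · rintro ⟨⟨h1, h2, h3⟩, -⟩
    refine ⟨h1, fun i => ?_, fun j => ?_⟩
    · have := h2 _ ⟨i, rfl⟩
      rwa [eval_map] at this
    · have : v j ^ X.e j = eval (fun i => u i ^ m) (MvPolynomial.map σ (X.F j)) := h3 j
      rwa [eval_map] at this
  · rintro ⟨h1, h2, h3⟩
    refine ⟨⟨h1, ?_, fun j => ?_⟩, ?_⟩
    · rintro _ ⟨i, rfl⟩
      rw [eval_map]
      exact h2 i
    · change v j ^ X.e j = eval (fun i => u i ^ m) (MvPolynomial.map σ (X.F j))
      rw [eval_map]
      exact h3 j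
    · change eval _ (1 : MvPolynomial (Fin (n + 1)) ℂ) ≠ 0
      rw [map_one]
      exact one_ne_zero

theorem poly_zero' {f : Polynomial ℂ} (h : ∀ z : ℂ, z ≠ 0 → f.eval z = 0) : f = 0 := by
  apply Polynomial.eq_zero_of_infinite_isRoot
  refine Set.Infinite.mono (s := {0}ᶜ) (fun z hz => h z hz) ?_
  exact (Set.finite_singleton (0 : ℂ)).infinite_compl

theorem ev_comp {σ : k →+* ℂ} (z : ℂ) :
    (Polynomial.evalRingHom z).comp (Polynomial.C.comp σ) = σ := by
  ext y
  simp

theorem on_of_eval {σ : k →+* ℂ} {p : Fin (n + 1) → Polynomial ℂ} {s : Fin r → Polynomial ℂ}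
    (h : ∀ z : ℂ, z ≠ 0 → X.On m σ (fun i => (p i).eval z) (fun j => (s j).eval z)) :
    X.On m (Polynomial.C.comp σ) p s := by
  refine ⟨fun i => poly_zero' fun z hz => ?_, fun j => ?_⟩
  · have h1 := (h z hz).1 i
    have h2 := eval₂_comp_left (Polynomial.evalRingHom z) (Polynomial.C.comp σ)
      (fun a => p a ^ m) (X.E i)
    rw [ev_comp] at h2
    have h3 : (⇑(Polynomial.evalRingHom z) ∘ fun a => p a ^ m) = fun a => (p a).eval z ^ m := by
      funext a
      simp
    rw [h3] at h2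
    change (Polynomial.evalRingHom z) _ = 0
    rw [h2]
    exact h1
  · refine sub_eq_zero.1 (poly_zero' fun z hz => ?_)
    have h1 := (h z hz).2 j
    have h2 := eval₂_comp_left (Polynomial.evalRingHom z) (Polynomial.C.comp σ)
      (fun a => p a ^ m) (X.F j)
    rw [ev_comp] at h2
    have h3 : (⇑(Polynomial.evalRingHom z) ∘ fun a => p a ^ m) = fun a => (p a).eval z ^ m := by
      funext a
      simp
    rw [h3] at h2
    rw [Polynomial.eval_sub, Polynomial.eval_pow, sub_eq_zero, h1]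
    exact h2.symm

theorem Cover.On.eval {σ : k →+* ℂ} {p : Fin (n + 1) → Polynomial ℂ} {s : Fin r → Polynomial ℂ}
    (h : X.On m (Polynomial.C.comp σ) p s) (z : ℂ) :
    X.On m σ (fun i => (p i).eval z) (fun j => (s j).eval z) := by
  have h1 := h.map (Polynomial.evalRingHom z)
  rw [ev_comp] at h1
  exact h1

theorem Cover.Closed.eval_poly (Z : X.Closed m) (σ : k →+* ℂ) (p : Fin (n + 1) → Polynomial ℂ)
    (s : Fin r → Polynomial ℂ) (z : ℂ) (l : Z.I) :
    eval₂ σ (Sum.elim (fun i => (p i).eval z) (fun j => (s j).eval z)) (Z.P l) =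
      (eval₂ (Polynomial.C.comp σ) (Sum.elim p s) (Z.P l)).eval z := by
  have h1 := Z.eval_map (Polynomial.C.comp σ) p s (Polynomial.evalRingHom z) l
  rw [ev_comp] at h1
  exact h1

/-- maps which are constant in projective space are constant -/
theorem same_of_const (hm : ∀ j, X.e j ∣ m) {σ : k →+* ℂ} {p : Fin (n + 1) → Polynomial ℂ}
    {s : Fin r → Polynomial ℂ} (hon : X.On m (Polynomial.C.comp σ) p s)
    (hc : ∀ i j a b, (p i).coeff a * (p j).coeff b = (p j).coeff a * (p i).coeff b) {z z' : ℂ}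
    (hz : (fun i => (p i).eval z) ≠ 0) (hz' : (fun i => (p i).eval z') ≠ 0) :
    X.Same m (fun i => (p i).eval z) (fun j => (s j).eval z) (fun i => (p i).eval z')
      (fun j => (s j).eval z') := by
  obtain ⟨i0, hi0⟩ := Function.ne_iff.1 hz
  have hi0' : (p i0).eval z ≠ 0 := hi0
  have hg : p i0 ≠ 0 := by
    intro h
    rw [h] at hi0'
    simp at hi0'
  have hcj : ∀ j, ∃ c : ℂ, p j = Polynomial.C c * p i0 := by
    intro j
    have h3 : (p i0).leadingCoeff ≠ 0 := Polynomial.leadingCoeff_ne_zero.2 hg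
    refine ⟨(p j).coeff (p i0).natDegree / (p i0).leadingCoeff, ?_⟩
    have h4 : Polynomial.C (p i0).leadingCoeff ≠ 0 := Polynomial.C_ne_zero.2 h3
    apply mul_right_cancel₀ h4
    have h5 : p j * Polynomial.C ((p i0).leadingCoeff) = p i0 * Polynomial.C
        ((p j).coeff (p i0).natDegree) := by
      ext c
      rw [Polynomial.coeff_mul_C, Polynomial.coeff_mul_C]
      exact hc j i0 c _
    rw [h5, mul_right_comm, ← Polynomial.C_mul, div_mul_cancel₀ _ h3, mul_comm]
  choose c hcc using hcj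
  obtain ⟨s', hs', hon'⟩ := Cover.div (X := X) (m := m) hm (σ := Polynomial.C.comp σ) hg
    (p := fun j => Polynomial.C (c j)) (s := s) (by
      have h1 : p = fun i => p i0 * Polynomial.C (c i) := funext fun i => by
        rw [mul_comm]
        exact hcc i
      rwa [h1] at hon)
  have hconst : ∀ j, ∃ d : ℂ, s' j = Polynomial.C d := by
    intro j
    have h1 := hon'.2 j
    have h2 : eval₂ (Polynomial.C.comp σ) (fun a => (Polynomial.C (c a) : Polynomial ℂ) ^ m)
        (X.F j) = Polynomial.C (eval₂ σ (fun a => c a ^ m) (X.F j)) := by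
      rw [eval₂_comp_left]
      congr 1
      funext a
      simp
    have h3 : s' j ^ X.e j = Polynomial.C (eval₂ σ (fun a => c a ^ m) (X.F j)) := by
      rw [h1, h2]
    have h4 : (s' j).natDegree = 0 := by
      have h5 := congrArg Polynomial.natDegree h3
      rw [Polynomial.natDegree_pow, Polynomial.natDegree_C, mul_eq_zero] at h5
      exact h5.resolve_left (X.he j).ne'
    exact ⟨_, Polynomial.eq_C_of_natDegree_eq_zero h4⟩
  choose d hd using hconst
  have hgz' : (p i0).eval z' ≠ 0 := by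
    intro h
    apply hz'
    funext i
    change (p i).eval z' = 0
    rw [hcc i, Polynomial.eval_mul, h, mul_zero]
  refine ⟨(p i0).eval z' / (p i0).eval z, div_ne_zero hgz' hi0', fun i => ?_, fun j => ?_⟩
  · change (p i).eval z' = (p i0).eval z' / (p i0).eval z * (p i).eval z
    rw [hcc i, Polynomial.eval_mul, Polynomial.eval_mul, Polynomial.eval_C, Polynomial.eval_C]
    field_simp
  · simp only [hs' j, hd j, Polynomial.eval_mul, Polynomial.eval_pow, Polynomial.eval_C]
    rw [div_pow, ← mul_assoc, div_mul_cancel₀ _ (pow_ne_zero _ hi0')]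

/-- morphisms from the multiplicative group are rational curves -/
theorem rat_of_gm (hm : ∀ j, X.e j ∣ m) {σ : k →+* ℂ} {p : Fin (n + 1) → Polynomial ℂ}
    {s : Fin r → Polynomial ℂ} (h : (X.toL σ).Gm m p s) (Z : X.Closed m) {y : ℂ}
    (hy : ¬ Z.On σ (fun i => (p i).eval y) (fun j => (s j).eval y)) : Z.Rat σ p s := by
  have hon : X.On m (Polynomial.C.comp σ) p s := on_of_eval fun z hz => (toL_pt.1 (h.mem z hz)).2
  refine ⟨hon, fun h1 => hy fun l => ?_, ?_⟩
  · rw [Z.eval_poly, h1 l, Polynomial.eval_zero]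
  · by_contra hcon
    push Not at hcon
    obtain ⟨z, z', hz, hz', hne⟩ := h.nonconst
    exact hne (same_of_const hm hon hcon (toL_pt.1 (h.mem z hz)).1 (toL_pt.1 (h.mem z' hz')).1)

/-- zeros of analytic functions -/
theorem zeros_countable {f : ℂ → ℂ} {U : Set ℂ} (hU : IsPreconnected U) (hf : AnalyticOnNhd ℂ f U)
    (hne : ∃ z ∈ U, f z ≠ 0) : {z | z ∈ U ∧ f z = 0}.Countable := by
  refine (HereditarilyLindelofSpace.isLindelof _).countable_of_isDiscrete ?_
  rw [isDiscrete_iff_nhdsNE]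
  intro z hz
  rw [← disjoint_iff, Filter.disjoint_principal_right]
  rcases (hf z hz.1).eventually_eq_zero_or_eventually_ne_zero with h | h
  · exfalso
    obtain ⟨w, hw1, hw2⟩ := hne
    exact hw2 (hf.eqOn_zero_of_preconnected_of_eventuallyEq_zero hU hz.1 h hw1)
  · filter_upwards [h] with w hw
    exact fun h' => hw h'.2

theorem analytic_P (Z : X.Closed m) (σ : k →+* ℂ) (l : Z.I) {u : ℂ → Fin (n + 1) → ℂ}
    {v : ℂ → Fin r → ℂ} {z : ℂ} (hu : AnalyticAt ℂ u z) (hv : AnalyticAt ℂ v z) :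
    AnalyticAt ℂ (fun z => eval₂ σ (Sum.elim (u z) (v z)) (Z.P l)) z := by
  have h1 : AnalyticAt ℂ (fun z => aeval (fun i => Sum.elim (u z) (v z) i)
      (MvPolynomial.map σ (Z.P l))) z := by
    refine AnalyticAt.aeval_mvPolynomial (fun i => ?_) _
    cases i with
    | inl i => exact (analyticAt_pi_iff.1 hu) i
    | inr j => exact (analyticAt_pi_iff.1 hv) j
  have h2 : (fun z => eval₂ σ (Sum.elim (u z) (v z)) (Z.P l)) = fun z =>
      aeval (fun i => Sum.elim (u z) (v z) i) (MvPolynomial.map σ (Z.P l)) := by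
    funext z
    rw [MvPolynomial.aeval_eq_eval, eval_map]
  rw [h2]
  exact h1

/-- **No rational curves outside `Z` implies Brody hyperbolicity modulo `Z`.** -/
theorem brody_of (hm : ∀ j, X.e j ∣ m) {σ : k →+* ℂ}
    (hE : ∀ u v, (X.toL σ).Entire m u v → {z | ¬ (X.toL σ).OnGm m (u z) (v z)}.Countable)
    (Z : X.Closed m) (hN : ∀ p s, ¬ Z.Rat σ p s) : Z.Brody σ := by
  intro u v hu hv hon
  by_contra hcon
  push Not at hcon
  obtain ⟨⟨z1, z2, hz12⟩, z0, hz0⟩ := hcon
  have hEnt : (X.toL σ).Entire m u v := ⟨hu, hv, fun z => toL_pt.2 (hon z), z1, z2, hz12⟩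
  have hcount := hE u v hEnt
  unfold Cover.Closed.On at hz0
  push Not at hz0
  obtain ⟨l, hl⟩ := hz0
  have hzero := zeros_countable (f := fun z => eval₂ σ (Sum.elim (u z) (v z)) (Z.P l))
    (U := Set.univ) isPreconnected_univ
    (fun z _ => analytic_P Z σ l (hu.analyticAt z) (hv.analyticAt z)) ⟨z0, Set.mem_univ _, hl⟩
  obtain ⟨z, hz⟩ : ∃ z : ℂ, z ∉ {z | ¬ (X.toL σ).OnGm m (u z) (v z)} ∪
      {z | z ∈ Set.univ ∧ (fun z => eval₂ σ (Sum.elim (u z) (v z)) (Z.P l)) z = 0} := by
    by_contra hcon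
    push Not at hcon
    have h1 := (hcount.union hzero).mono (fun z (_ : z ∈ Set.univ) => hcon z)
    exact not_countable_complex h1
  rw [Set.mem_union, not_or] at hz
  obtain ⟨hz1, hz2⟩ := hz
  have hgm : (X.toL σ).OnGm m (u z) (v z) := by
    by_contra h
    exact hz1 h
  obtain ⟨p, s, hgm, y, -, hsame⟩ := hgm
  have h2 : ¬ Z.On σ (u z) (v z) := fun h => hz2 ⟨Set.mem_univ _, h l⟩
  refine hN p s (rat_of_gm hm hgm Z (y := y) fun h => h2 ?_)
  exact (Z.on_same (X := X) (m := m) hsame).2 h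

/-- **No rational curves outside `Z` implies Picard hyperbolicity modulo `Z`.** -/
theorem picard_of (hm : ∀ j, X.e j ∣ m) {σ : k →+* ℂ}
    (hD : ∀ u v, (X.toL σ).Disc m u v → (X.toL σ).Extends m u v ∨
      {z | z ∈ ball (0 : ℂ) 1 \ {0} ∧ ¬ (X.toL σ).OnGm m (u z) (v z)}.Countable)
    (Z : X.Closed m) (hN : ∀ p s, ¬ Z.Rat σ p s) : Z.Picard σ := by
  intro u v hu hv hon
  rcases hD u v ⟨hu, hv, fun z hz => toL_pt.2 (hon z hz)⟩ with h | hcount
  · exact Or.inl h
  right
  by_contra hcon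
  push Not at hcon
  obtain ⟨z0, hz0, hz0'⟩ := hcon
  unfold Cover.Closed.On at hz0'
  push Not at hz0'
  obtain ⟨l, hl⟩ := hz0'
  have hopen : IsOpen (ball (0 : ℂ) 1 \ {0}) := isOpen_ball.sdiff isClosed_singleton
  have hconn : IsPreconnected (ball (0 : ℂ) 1 \ {0}) := by
    have h1 := Pool.Agent.W603.BP.PB_preconn one_pos
    convert h1 using 1
    ext z
    exact Pool.Agent.W603.BP.mem_disc
  have hzero := zeros_countable (f := fun z => eval₂ σ (Sum.elim (u z) (v z)) (Z.P l)) hconn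
    (fun z hz => analytic_P Z σ l (hu.analyticAt (hopen.mem_nhds hz))
      (hv.analyticAt (hopen.mem_nhds hz))) ⟨z0, hz0, hl⟩
  obtain ⟨z, hzb, hz⟩ : ∃ z ∈ ball (0 : ℂ) 1 \ {0},
      z ∉ {z | z ∈ ball (0 : ℂ) 1 \ {0} ∧ ¬ (X.toL σ).OnGm m (u z) (v z)} ∪
      {z | z ∈ ball (0 : ℂ) 1 \ {0} ∧
        (fun z => eval₂ σ (Sum.elim (u z) (v z)) (Z.P l)) z = 0} := by
    by_contra hcon
    push Not at hcon
    have h1 := (hcount.union hzero).mono hcon
    have h2 : (ball (0 : ℂ) 1 \ {0} ∪ {0}).Countable := h1.union (Set.countable_singleton 0)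
    have h3 : (ball (0 : ℂ) 1).Countable := h2.mono fun z hz => by
      by_cases h : z = 0
      · right
        exact h
      · left
        exact ⟨hz, h⟩
    have h4 : (Set.univ : Set ℂ).Countable := by
      have h5 : (⋃ N : ℕ, (fun z : ℂ => (N : ℂ) * z) '' ball (0 : ℂ) 1).Countable :=
        Set.countable_iUnion fun N => h3.image _
      refine h5.mono fun z _ => ?_
      obtain ⟨N, hN⟩ := exists_nat_gt ‖z‖
      have hN0 : (0 : ℝ) < N := lt_of_le_of_lt (norm_nonneg z) hN
      rw [Set.mem_iUnion]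
      refine ⟨N, z / N, ?_, ?_⟩
      · rw [mem_ball_zero_iff, norm_div, Complex.norm_natCast, div_lt_one hN0]
        exact hN
      · have : (N : ℂ) ≠ 0 := by
          exact_mod_cast hN0.ne'
        field_simp
    exact not_countable_complex h4
  rw [Set.mem_union, not_or] at hz
  obtain ⟨hz1, hz2⟩ := hz
  have hgm : (X.toL σ).OnGm m (u z) (v z) := by
    by_contra h
    exact hz1 ⟨hzb, h⟩
  obtain ⟨p, s, hgm, y, -, hsame⟩ := hgm
  have h2 : ¬ Z.On σ (u z) (v z) := fun h => hz2 ⟨hzb, h l⟩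
  refine hN p s (rat_of_gm hm hgm Z (y := y) fun h => h2 ?_)
  exact (Z.on_same (X := X) (m := m) hsame).2 h

end Pool.Agent.T2h91.KU
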