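import Pool.Agent.T2h91.KAna
import Pool.Agent.Y73.FN.Nexp
import Pool.Agent.Y455.FN.Ngm

/-!
Rational curves and hyperbolicity of the Kummer covers over the complex numbers, continued.
-/

set_option autoImplicit false

open MvPolynomial Metric Filter Topology FF
open Pool.Agent.W603.LV (canDeg)
open Pool.Agent.W603.PV (pht)
open Pool.Agent.Y192.FN (NDat Sol NMap NGm NSpU InSp NWH)

namespace Pool.Agent.T2h91.KU

variable {k : Type} [Field k] {n r : ℕ} {X : Cover k n r} {m : ℕ}

/-- the minors of polynomials vanish if they vanish for the values -/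
theorem minors_of_values {p q : Polynomial ℂ}
    (h : ∀ z z' : ℂ, p.eval z * q.eval z' = q.eval z * p.eval z') (a b : ℕ) :
    p.coeff a * q.coeff b = q.coeff a * p.coeff b := by
  have h1 : ∀ z', Polynomial.C (q.eval z') * p = Polynomial.C (p.eval z') * q := by
    intro z'
    apply Polynomial.funext
    intro z
    rw [Polynomial.eval_mul, Polynomial.eval_mul, Polynomial.eval_C, Polynomial.eval_C]
    linear_combination h z z'
  have h2 : Polynomial.C (p.coeff a) * q = Polynomial.C (q.coeff a) * p := by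
    apply Polynomial.funext
    intro z'
    have h3 := congrArg (fun f : Polynomial ℂ => f.coeff a) (h1 z')
    simp only [Polynomial.coeff_C_mul] at h3
    rw [Polynomial.eval_mul, Polynomial.eval_mul, Polynomial.eval_C, Polynomial.eval_C]
    linear_combination h3
  have h3 := congrArg (fun f : Polynomial ℂ => f.coeff b) h2
  simp only [Polynomial.coeff_C_mul] at h3
  exact h3

section curve

variable {σ : k →+* ℂ} {p : Fin (n + 1) → Polynomial ℂ} {s : Fin r → Polynomial ℂ} {Z : X.Closed m}

theorem ne_of_bezout {a : Fin (n + 1) → Polynomial ℂ} (ha : ∑ i, a i * p i = 1) (z : ℂ) :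
    (fun i => (p i).eval z) ≠ 0 := by
  intro h
  have h1 := congrArg (fun f : Polynomial ℂ => f.eval z) ha
  simp only [Polynomial.eval_finsetSum, Polynomial.eval_mul, Polynomial.eval_one] at h1
  rw [Finset.sum_eq_zero] at h1
  · exact zero_ne_one h1
  · intro i _
    have h2 : (p i).eval z = 0 := congrFun h i
    rw [h2, mul_zero]

theorem off_of_rat (h : Z.Rat σ p s) (h0 : ∀ z : ℂ, z ≠ 0 →
    Z.On σ (fun i => (p i).eval z) (fun j => (s j).eval z)) : False := by
  apply h.off
  intro l
  refine poly_zero' fun z hz => ?_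
  rw [← Z.eval_poly]
  exact h0 z hz l

/-- **A rational curve outside `Z` is an entire curve.** -/
theorem not_brody (hm : ∀ j, X.e j ∣ m) (h : Z.Rat σ p s) : ¬ Z.Brody σ := by
  obtain ⟨p, s, h, a, ha⟩ := h.reduce hm
  intro hB
  rcases hB (fun z i => (p i).eval z) (fun z j => (s j).eval z)
    (differentiable_pi.2 fun i => (p i).differentiable)
    (differentiable_pi.2 fun j => (s j).differentiable)
    (fun z => ⟨ne_of_bezout ha z, h.on.eval z⟩) with h1 | h1
  · obtain ⟨i, j, b, c, hbc⟩ := h.nonconst
    apply hbc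
    refine minors_of_values (fun z z' => ?_) b c
    obtain ⟨t, -, ht, -⟩ := h1 z z'
    have h2 : (p i).eval z' = t * (p i).eval z := ht i
    have h3 : (p j).eval z' = t * (p j).eval z := ht j
    rw [h2, h3]
    ring
  · exact off_of_rat h fun z _ => h1 z

/-- the exponential of the inverse takes all nonzero values near the origin -/
theorem exp_inv_surj {y : ℂ} (hy : y ≠ 0) {ρ : ℝ} (hρ : 0 < ρ) :
    ∃ z ∈ ball (0 : ℂ) ρ \ {0}, Complex.exp z⁻¹ = y := by
  have h1 := (Pool.Agent.Y73.FN.zk_tendsto (Complex.log y)).eventually (ball_mem_nhds _ hρ)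
  obtain ⟨N, h2, h3⟩ := (h1.and (Pool.Agent.Y73.FN.zk_ev_ne (Complex.log y))).exists
  exact ⟨_, ⟨h2, h3⟩, by rw [Pool.Agent.Y73.FN.exp_zk, Complex.exp_log hy]⟩

/-- **A rational curve outside `Z` yields a punctured disc which does not extend.** -/
theorem not_picard (hm : ∀ j, X.e j ∣ m) (h : Z.Rat σ p s) : ¬ Z.Picard σ := by
  obtain ⟨p, s, h, a, ha⟩ := h.reduce hm
  intro hP
  have hexp : DifferentiableOn ℂ (fun z : ℂ => Complex.exp z⁻¹) (ball 0 1 \ {0}) := by
    intro z hz
    exact ((differentiableAt_inv hz.2).cexp).differentiableWithinAt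
  have hdu : Differentiable ℂ (fun (z : ℂ) (i : Fin (n + 1)) => (p i).eval z) :=
    differentiable_pi.2 fun i => (p i).differentiable
  have hdv : Differentiable ℂ (fun (z : ℂ) (j : Fin r) => (s j).eval z) :=
    differentiable_pi.2 fun j => (s j).differentiable
  rcases hP (fun z i => (p i).eval (Complex.exp z⁻¹)) (fun z j => (s j).eval (Complex.exp z⁻¹))
    (hdu.comp_differentiableOn hexp) (hdv.comp_differentiableOn hexp)
    (fun z _ => ⟨ne_of_bezout ha _, h.on.eval _⟩) with h1 | h1
  · obtain ⟨ρ, hρ, u', v', hu', -, h0, hE⟩ := h1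
    have hmem : (0 : ℂ) ∈ ball (0 : ℂ) ρ := mem_ball_self hρ
    have hcu' : ContinuousAt u' 0 :=
      (hu'.continuousOn).continuousAt (isOpen_ball.mem_nhds hmem)
    have key : ∀ y : ℂ, y ≠ 0 → ∀ i j, (p i).eval y * u' 0 j = (p j).eval y * u' 0 i := by
      intro y hy i j
      have hz := Pool.Agent.Y73.FN.zk_tendsto (Complex.log y)
      have hz1 : ∀ᶠ k in atTop, Pool.Agent.Y73.FN.zk (Complex.log y) k ∈ ball (0 : ℂ) ρ :=
        hz.eventually (ball_mem_nhds _ hρ)
      have hul : ∀ i', Tendsto (fun k => u' (Pool.Agent.Y73.FN.zk (Complex.log y) k) i') atTop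
          (𝓝 (u' 0 i')) := fun i' =>
        ((continuous_apply i').continuousAt.tendsto.comp hcu'.tendsto).comp hz
      have hev : ∀ᶠ k in atTop, (p i).eval y * u' (Pool.Agent.Y73.FN.zk (Complex.log y) k) j =
          (p j).eval y * u' (Pool.Agent.Y73.FN.zk (Complex.log y) k) i := by
        filter_upwards [hz1, Pool.Agent.Y73.FN.zk_ev_ne (Complex.log y)] with k h1 h3
        obtain ⟨t, _, h4, _⟩ := hE _ ⟨h1, h3⟩
        have h7 : Complex.exp (Complex.log y) = y := Complex.exp_log hy
        dsimp only at h4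
        rw [Pool.Agent.Y73.FN.exp_zk, h7] at h4
        rw [h4 i, h4 j]
        ring
      exact tendsto_nhds_unique_of_eventuallyEq (tendsto_const_nhds.mul (hul j))
        (tendsto_const_nhds.mul (hul i)) hev
    obtain ⟨l, hl⟩ : ∃ l, u' 0 l ≠ 0 := Function.ne_iff.1 (h0 0 hmem)
    have key' : ∀ i, Polynomial.C (u' 0 l) * p i = Polynomial.C (u' 0 i) * p l := by
      intro i
      refine sub_eq_zero.1 (poly_zero' fun z hz => ?_)
      rw [Polynomial.eval_sub, Polynomial.eval_mul, Polynomial.eval_mul, Polynomial.eval_C,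
        Polynomial.eval_C]
      linear_combination key z hz i l
    obtain ⟨i, j, b, c, hbc⟩ := h.nonconst
    apply hbc
    have e : ∀ i c, (p i).coeff c = u' 0 i / u' 0 l * (p l).coeff c := by
      intro i c
      have h2 := congrArg (fun f : Polynomial ℂ => f.coeff c) (key' i)
      simp only [Polynomial.coeff_C_mul] at h2
      field_simp
      linear_combination h2
    rw [e i b, e j c, e j b, e i c]
    ring
  · refine off_of_rat h fun y hy => ?_
    obtain ⟨z, hz, hzy⟩ := exp_inv_surj hy one_pos
    have h2 := h1 z hz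
    rw [hzy] at h2
    exact h2

end curve

/-! ### Algebraic hyperbolicity -/

theorem span_hom {ι : Type} (E : ι → MvPolynomial (Fin (n + 1)) ℂ)
    (hE : ∀ i, ∃ a, (E i).IsHomogeneous a) : ∀ f ∈ Ideal.span (Set.range E), ∀ c,
      homogeneousComponent c f ∈ Ideal.span (Set.range E) := by
  classical
  intro f hf c
  obtain ⟨b, hb⟩ := (Finsupp.mem_ideal_span_range_iff_exists_finsupp).1 hf
  rw [← hb, Finsupp.sum, map_sum]
  refine sum_mem fun i _ => ?_
  obtain ⟨a, ha⟩ := hE i
  have h1 : b i * E i = ∑ j ∈ Finset.range ((b i).totalDegree + 1),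
      homogeneousComponent j (b i) * E i := by
    rw [← Finset.sum_mul, sum_homogeneousComponent]
  rw [h1, map_sum]
  refine sum_mem fun j _ => ?_
  have h2 : (homogeneousComponent j (b i) * E i).IsHomogeneous (j + a) :=
    (homogeneousComponent_isHomogeneous j (b i)).mul ha
  rw [homogeneousComponent_of_mem h2]
  split_ifs with h3
  · exact Ideal.mul_mem_left _ _ (Ideal.subset_span ⟨i, rfl⟩)
  · exact zero_mem _

/-- the complex variety -/
noncomputable def Cover.toN (X : Cover k n r) (σ : k →+* ℂ) : NDat n r where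
  F := fun j => MvPolynomial.map σ (X.F j)
  d := X.d
  e := X.e
  G := 1
  q := 0
  J := Ideal.span (Set.range fun i => MvPolynomial.map σ (X.E i))
  hF := fun j => (X.hF j).map σ
  he := X.he
  hG := isHomogeneous_one _ _
  hJ := span_hom _ fun i => by
    obtain ⟨a, ha⟩ := X.hE i
    exact ⟨a, ha.map σ⟩

theorem sol_iff {σ : k →+* ℂ} {R : Type} [CommRing R] [Nontrivial R] [Algebra ℂ R]
    {u : Fin (n + 1) → R} {v : Fin r → R} :
    Sol (X.toN σ) m u v ↔ X.On m ((algebraMap ℂ R).comp σ) u v := by
  constructor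
  · intro h
    refine ⟨fun i => ?_, fun j => ?_⟩
    · have h1 := h.mem _ (Ideal.subset_span ⟨i, rfl⟩)
      rwa [aeval_def, eval₂_map] at h1
    · have h1 : v j ^ X.e j = aeval (fun i => u i ^ m) (MvPolynomial.map σ (X.F j)) := h.eqn j
      rwa [aeval_def, eval₂_map] at h1
  · intro h
    refine ⟨fun f hf => ?_, fun j => ?_, ?_⟩
    · have h1 : Ideal.span (Set.range fun i => MvPolynomial.map σ (X.E i)) ≤
          RingHom.ker (aeval (R := ℂ) (fun i => u i ^ m)) := by
        rw [Ideal.span_le]
        rintro _ ⟨i, rfl⟩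
        rw [SetLike.mem_coe, RingHom.mem_ker]
        change aeval (fun i => u i ^ m) (MvPolynomial.map σ (X.E i)) = 0
        rw [aeval_def, eval₂_map]
        exact h.1 i
      exact h1 hf
    · change v j ^ X.e j = aeval (fun i => u i ^ m) (MvPolynomial.map σ (X.F j))
      rw [aeval_def, eval₂_map]
      exact h.2 j
    · change aeval _ (1 : MvPolynomial (Fin (n + 1)) ℂ) ≠ 0
      rw [map_one]
      exact one_ne_zero

theorem wh_map {ι : Type} {w : ι → ℕ} {D : ℕ} {B : MvPolynomial ι k}
    (hB : IsWeightedHomogeneous w B D) (σ : k →+* ℂ) :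
    IsWeightedHomogeneous w (MvPolynomial.map σ B) D := by
  intro a ha
  apply hB
  intro h
  apply ha
  rw [coeff_map, h, map_zero]

/-- **No rational curves outside `Z` implies algebraic hyperbolicity modulo `Z`.** -/
theorem alg_of {σ : k →+* ℂ} {A : ℕ} (hA : NSpU (X.toN σ) A m) (Z : X.Closed m)
    (hN : ∀ p s, ¬ Z.Rat σ p s) : Z.Alg σ A := by
  intro M _ _ _ u v hu hon
  have hmap : NMap (X.toN σ) m (∅ : Finset (Place ℂ M)) u v := by
    refine ⟨Function.ne_iff.1 hu, sol_iff.2 hon, fun P _ => ?_⟩
    change P.ord (aeval (fun i => u i ^ m) (1 : MvPolynomial (Fin (n + 1)) ℂ)) =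
      m * (0 : ℕ) * _
    rw [map_one]
    simp [Place.ord_one]
  rcases hA M ∅ u v hmap with h | h
  · left
    simpa using h
  · right
    intro l
    obtain ⟨D, hD⟩ := Z.hP l
    have h1 := h (MvPolynomial.map σ (Z.P l)) D (wh_map hD σ) (fun p s hps z hz => by
      by_contra hne
      rw [eval_map] at hne
      have hon' : X.On m (Polynomial.C.comp σ) p s := on_of_eval fun z hz => by
        have := sol_iff.1 (hps.sol z hz)
        rwa [show (algebraMap ℂ ℂ).comp σ = σ from by ext; rfl] at this
      refine hN p s ⟨hon', fun h1 => hne ?_, ?_⟩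
      · rw [Z.eval_poly, h1 l, Polynomial.eval_zero]
      · obtain ⟨z, z', -, -, i, j, hij⟩ := hps.nonconst
        by_contra hcon
        push Not at hcon
        apply hij
        have e : ∀ (a b : Polynomial ℂ), (∀ c d, a.coeff c * b.coeff d = b.coeff c * a.coeff d) →
            ∀ x y : ℂ, a.eval x * b.eval y = b.eval x * a.eval y := by
          intro a b hab x y
          rw [Polynomial.eval_eq_sum_range' (n := max a.natDegree b.natDegree + 1) (by omega),
            Polynomial.eval_eq_sum_range' (p := b) (n := max a.natDegree b.natDegree + 1)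
              (by omega),
            Polynomial.eval_eq_sum_range' (p := b) (n := max a.natDegree b.natDegree + 1)
              (by omega),
            Polynomial.eval_eq_sum_range' (n := max a.natDegree b.natDegree + 1) (by omega),
            Finset.sum_mul_sum, Finset.sum_mul_sum]
          refine Finset.sum_congr rfl fun c _ => Finset.sum_congr rfl fun d _ => ?_
          linear_combination (x ^ c * y ^ d) * hab c d
        exact e (p i) (p j) (fun c d => hcon i j c d) z z')
    rwa [aeval_def, eval₂_map] at h1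

/-- **A rational curve outside `Z` contradicts algebraic hyperbolicity modulo `Z`.** -/
theorem not_alg (hm0 : 0 < m) (hm : ∀ j, X.e j ∣ m) {σ : k →+* ℂ} {p : Fin (n + 1) → Polynomial ℂ}
    {s : Fin r → Polynomial ℂ} {Z : X.Closed m} (h : Z.Rat σ p s) (A : ℕ) : ¬ Z.Alg σ A := by
  obtain ⟨p, s, h, a, ha⟩ := h.reduce hm
  intro hA
  obtain ⟨i, j, z, z', hne⟩ : ∃ i j, ∃ z z' : ℂ, (p i).eval z * (p j).eval z' ≠
      (p j).eval z * (p i).eval z' := by
    by_contra hcon
    push Not at hcon
    obtain ⟨i, j, b, c, hbc⟩ := h.nonconst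
    exact hbc (minors_of_values (fun z z' => hcon i j z z') b c)
  -- nonzero points
  obtain ⟨z, z', hz, hz', hne⟩ : ∃ z z' : ℂ, z ≠ 0 ∧ z' ≠ 0 ∧ (p i).eval z * (p j).eval z' ≠
      (p j).eval z * (p i).eval z' := by
    by_contra hcon
    push Not at hcon
    apply hne
    have h1 : ∀ y : ℂ, y ≠ 0 → Polynomial.C ((p j).eval y) * p i =
        Polynomial.C ((p i).eval y) * p j := by
      intro y hy
      refine sub_eq_zero.1 (poly_zero' fun x hx => ?_)
      rw [Polynomial.eval_sub, Polynomial.eval_mul, Polynomial.eval_mul, Polynomial.eval_C,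
        Polynomial.eval_C]
      linear_combination hcon x y hx hy
    have h2 : Polynomial.C ((p i).eval z) * p j = Polynomial.C ((p j).eval z) * p i := by
      refine sub_eq_zero.1 (poly_zero' fun y hy => ?_)
      have h3 := congrArg (fun f : Polynomial ℂ => f.eval z) (h1 y hy)
      simp only [Polynomial.eval_mul, Polynomial.eval_C] at h3
      rw [Polynomial.eval_sub, Polynomial.eval_mul, Polynomial.eval_mul, Polynomial.eval_C,
        Polynomial.eval_C]
      linear_combination h3
    have h3 := congrArg (fun f : Polynomial ℂ => f.eval z') h2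
    simp only [Polynomial.eval_mul, Polynomial.eval_C] at h3
    exact h3
  have hgm : NGm (X.toN σ) m p s := by
    refine ⟨fun y _ => Function.ne_iff.1 (ne_of_bezout ha y), fun y _ => sol_iff.2 ?_,
      z, z', hz, hz', i, j, hne⟩
    have h1 := h.on.eval y
    rwa [show (algebraMap ℂ ℂ).comp σ = σ from by ext; rfl]
  have hmap := Pool.Agent.Y455.FN.nmap hgm one_pos
  have hpht := Pool.Agent.Y455.FN.pht_big hgm one_pos hz (i := i) (l := j) (z2 := z') (by
    intro h1
    apply hne
    linear_combination h1)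
  have hc : canDeg ℂ (RatFunc ℂ) < 0 := by
    have h1 := Pool.Agent.W619.PQ.canDeg_rational (x := (RatFunc.X : RatFunc ℂ)) RatFunc.adjoin_X
    rw [h1]
    norm_num
  rcases hA (RatFunc ℂ) _ _ (by
    intro h0
    obtain ⟨i, hi⟩ := hmap.ne
    exact hi (congrFun h0 i)) (sol_iff.1 hmap.sol) with h1 | h1
  · rw [max_eq_right hc.le, mul_zero] at h1
    have h2 : (1 : ℤ) ≤ m := by exact_mod_cast hm0
    push_cast at hpht
    nlinarith
  · apply h.off
    intro l
    have hcomp : ((Pool.Agent.Y288.FG.ev 1).toRingHom).comp (Polynomial.C.comp σ) =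
        (algebraMap ℂ (RatFunc ℂ)).comp σ := by
      ext x
      exact (Pool.Agent.Y288.FG.ev 1).commutes (σ x)
    have h2 := Z.eval_map (Polynomial.C.comp σ) p s (Pool.Agent.Y288.FG.ev 1).toRingHom l
    rw [hcomp] at h2
    by_contra h3
    exact Pool.Agent.Y288.FG.ev_ne one_pos h3 (h2.symm.trans (h1 l))

end Pool.Agent.T2h91.KU
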