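import Mathlib

/-!
Kummer covers of closed subsets of projective space over a number field: definitions.
-/

set_option autoImplicit false

open MvPolynomial

namespace Pool.Agent.T2h91.KU

/-- The data of a family of covers `X m` over the field `k`: forms `E i`, which define a closed
subset of projective `n`-space, forms `F j` of degree `d j`, and exponents `e j`. The projective
variety `X m` has the equations `E i (t 0 ^ m, …, t n ^ m) = 0` and
`w j ^ e j = F j (t 0 ^ m, …, t n ^ m)` in the weighted projective space with the coordinates `t i` of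
weight one and `w j` of weight `m * d j / e j`. -/
structure Cover (k : Type) [Field k] (n r : ℕ) where
  I : Type
  E : I → MvPolynomial (Fin (n + 1)) k
  F : Fin r → MvPolynomial (Fin (n + 1)) k
  d : Fin r → ℕ
  e : Fin r → ℕ
  hE : ∀ i, ∃ a, (E i).IsHomogeneous a
  hF : ∀ j, (F j).IsHomogeneous (d j)
  he : ∀ j, 0 < e j

section defs

variable {k : Type} [Field k] {n r : ℕ} (X : Cover k n r) (m : ℕ)

/-- the weight of the coordinate `w j` -/
def Cover.wt (j : Fin r) : ℕ := m * X.d j / X.e j

/-- `u`, `v` satisfy the equations of `X m`, over the ring `R` with the homomorphism `σ` from `k` -/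
def Cover.On {R : Type} [CommRing R] (σ : k →+* R) (u : Fin (n + 1) → R) (v : Fin r → R) : Prop :=
  (∀ i, eval₂ σ (fun a => u a ^ m) (X.E i) = 0) ∧
    ∀ j, v j ^ X.e j = eval₂ σ (fun a => u a ^ m) (X.F j)

/-- `u'`, `v'` are the same point of the weighted projective space over `L` as `u`, `v` -/
def Cover.Same {L : Type} [Field L] (u : Fin (n + 1) → L) (v : Fin r → L) (u' : Fin (n + 1) → L)
    (v' : Fin r → L) : Prop :=
  ∃ s : L, s ≠ 0 ∧ (∀ i, u' i = s * u i) ∧ ∀ j, v' j = s ^ X.wt m j * v j

/-- A closed subset `Z` of the weighted projective space, over `k`, given by the weighted homogeneous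
polynomials `P l`. -/
structure Cover.Closed where
  I : Type
  P : I → MvPolynomial (Fin (n + 1) ⊕ Fin r) k
  hP : ∀ l, ∃ D, IsWeightedHomogeneous (Sum.elim (fun _ => 1) (X.wt m)) (P l) D

variable {X m}

/-- `u`, `v` satisfy the equations of `Z` -/
def Cover.Closed.On (Z : X.Closed m) {R : Type} [CommRing R] (σ : k →+* R) (u : Fin (n + 1) → R)
    (v : Fin r → R) : Prop :=
  ∀ l, eval₂ σ (Sum.elim u v) (Z.P l) = 0

/-- `X m` has only finitely many points over `L` outside `Z` -/
def Cover.Closed.Finite (Z : X.Closed m) (L : Type) [Field L] [Algebra k L] : Prop :=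
  ∃ T : Finset ((Fin (n + 1) → L) × (Fin r → L)), ∀ u v, u ≠ 0 → X.On m (algebraMap k L) u v →
    ¬ Z.On (algebraMap k L) u v → ∃ t ∈ T, X.Same m t.1 t.2 u v

/-- The polynomials `p i`, `s j` are homogeneous coordinates of a nonconstant rational map from the
projective line to `X m` whose image is not contained in `Z`, over the ring `L` with the
homomorphism `σ` from `k`. -/
structure Cover.Closed.Rat (Z : X.Closed m) {L : Type} [CommRing L] (σ : k →+* L)
    (p : Fin (n + 1) → Polynomial L) (s : Fin r → Polynomial L) : Prop where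
  on : X.On m (Polynomial.C.comp σ) p s
  off : ¬ Z.On (Polynomial.C.comp σ) p s
  nonconst : ∃ (i j : Fin (n + 1)) (a b : ℕ),
    (p i).coeff a * (p j).coeff b ≠ (p j).coeff a * (p i).coeff b

end defs

end Pool.Agent.T2h91.KU
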