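import Pool.Agent.Y192.FN.Defs
import Pool.Agent.T2h91.KCov

/-!
Kummer covers of closed subsets of projective space over a number field: hyperbolicity modulo a
closed subset.
-/

set_option autoImplicit false

open MvPolynomial Metric FF Pool.Agent.W603.LV Pool.Agent.W603.PV

namespace Pool.Agent.T2h91.KU

section defs

variable {k : Type} [Field k] {n r : ℕ} {X : Cover k n r} {m : ℕ}

/-- The complex variety `(X m)_σ` is Brody hyperbolic modulo `Z_σ`: its entire curves, in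
homogeneous coordinates, are constant or lie in `Z_σ`. -/
def Cover.Closed.Brody (Z : X.Closed m) (σ : k →+* ℂ) : Prop :=
  ∀ (u : ℂ → Fin (n + 1) → ℂ) (v : ℂ → Fin r → ℂ), Differentiable ℂ u → Differentiable ℂ v →
    (∀ z, u z ≠ 0 ∧ X.On m σ (u z) (v z)) →
    (∀ z z', X.Same m (u z) (v z) (u z') (v z')) ∨ ∀ z, Z.On σ (u z) (v z)

/-- The complex variety `(X m)_σ` is Picard hyperbolic modulo `Z_σ`: the holomorphic maps from the
punctured disc to `(X m)_σ`, in homogeneous coordinates, extend to the disc or lie in `Z_σ`. -/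
def Cover.Closed.Picard (Z : X.Closed m) (σ : k →+* ℂ) : Prop :=
  ∀ (u : ℂ → Fin (n + 1) → ℂ) (v : ℂ → Fin r → ℂ), DifferentiableOn ℂ u (ball 0 1 \ {0}) →
    DifferentiableOn ℂ v (ball 0 1 \ {0}) →
    (∀ z ∈ ball (0 : ℂ) 1 \ {0}, u z ≠ 0 ∧ X.On m σ (u z) (v z)) →
    (∃ ρ : ℝ, 0 < ρ ∧ ∃ (u' : ℂ → Fin (n + 1) → ℂ) (v' : ℂ → Fin r → ℂ),
      DifferentiableOn ℂ u' (ball 0 ρ) ∧ DifferentiableOn ℂ v' (ball 0 ρ) ∧
      (∀ z ∈ ball (0 : ℂ) ρ, u' z ≠ 0) ∧
      ∀ z ∈ ball (0 : ℂ) ρ \ {0}, X.Same m (u' z) (v' z) (u z) (v z)) ∨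
    ∀ z ∈ ball (0 : ℂ) 1 \ {0}, Z.On σ (u z) (v z)

/-- The complex variety `(X m)_σ` is algebraically hyperbolic modulo `Z_σ`, with the constant
`A / m`: for all smooth projective curves, with function field `M`, and all maps from the curve to
`(X m)_σ` with homogeneous coordinates `u`, `v` in `M`, whose image is not contained in `Z_σ`, the
degree `pht ℂ u` is at most `A / m` times the maximum of `2 g - 2` and `0`. -/
def Cover.Closed.Alg (Z : X.Closed m) (σ : k →+* ℂ) (A : ℕ) : Prop :=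
  ∀ (M : Type) [Field M] [Algebra ℂ M] [IsFF ℂ M] (u : Fin (n + 1) → M) (v : Fin r → M), u ≠ 0 →
    X.On m ((algebraMap ℂ M).comp σ) u v →
    m * pht ℂ u ≤ A * max (canDeg ℂ M) 0 ∨ Z.On ((algebraMap ℂ M).comp σ) u v

end defs

end Pool.Agent.T2h91.KU
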