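import Pool.Agent.T2h91.KAna2

/-!
Kummer covers over number fields: the main theorem.
-/

set_option autoImplicit false

open MvPolynomial

namespace Pool.Agent.T2h91.KU

variable {k : Type} [Field k] [NumberField k] {n r : ℕ}

/-- There are no nonconstant rational maps from the projective line over any finite extension `L` of
`k` to `X m`, except for those whose image lies in `Z`. -/
def Cover.Closed.NoRat {k : Type} [Field k] {n r : ℕ} {X : Cover k n r} {m : ℕ} (Z : X.Closed m) :
    Prop :=
  ∀ (L : Type) [Field L] [NumberField L] [Algebra k L] (p : Fin (n + 1) → Polynomial L)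
    (s : Fin r → Polynomial L), ¬ Z.Rat (algebraMap k L) p s

theorem numberField_of (L : Type) [Field L] [Algebra k L] [FiniteDimensional k L] :
    NumberField L := by
  have hc : CharZero L := charZero_of_injective_algebraMap (algebraMap k L).injective
  have h1 : Module.Finite ℚ L := by
    have : IsScalarTower ℚ k L := inferInstance
    exact Module.Finite.trans k L
  exact ⟨⟩

theorem exists_embedding (σ : k →+* ℂ) (L : Type) [Field L] [NumberField L] [Algebra k L] :
    ∃ ρ : L →+* ℂ, ρ.comp (algebraMap k L) = σ := by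
  let _ : Algebra k ℂ := σ.toAlgebra
  have h1 : Algebra.IsAlgebraic ℚ L := Algebra.IsAlgebraic.of_finite ℚ L
  have : IsScalarTower ℚ k L := inferInstance
  have : Algebra.IsAlgebraic k L := Algebra.IsAlgebraic.tower_top (K := ℚ) k
  let ψ : L →ₐ[k] ℂ := IsAlgClosed.lift
  exact ⟨ψ, RingHom.ext fun c => ψ.commutes c⟩

/-- no rational curves over number fields and over the complex numbers -/
theorem noRat_iff {X : Cover k n r} {m : ℕ} (Z : X.Closed m) (σ : k →+* ℂ) :
    Z.NoRat ↔ ∀ p s, ¬ Z.Rat σ p s := by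
  constructor
  · intro h p s hps
    obtain ⟨L, j1, j2, j3, p', s', h'⟩ := hps.spread
    have := numberField_of (k := k) L
    exact h L p' s' h'
  · intro h L _ _ _ p s hps
    obtain ⟨ρ, hρ⟩ := exists_embedding σ L
    have h1 := hps.map ρ
    rw [hρ] at h1
    exact h _ _ h1

theorem main (X : Cover k n r) : ∃ m0 A : ℕ, ∀ m, m0 ≤ m → (∀ j, X.e j ∣ m) →
    ∀ Z : X.Closed m,
      ((∀ (L : Type) [Field L] [NumberField L] [Algebra k L], Z.Finite L) → Z.NoRat) ∧
      ∀ σ : k →+* ℂ, [Z.NoRat, Z.Brody σ, Z.Picard σ, Z.Alg σ A].TFAE := by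
  classical
  have h1 : ∀ σ : k →+* ℂ, ∃ m0 A : ℕ, ∀ m, m0 ≤ m → (∀ j, X.e j ∣ m) →
      ∀ Z : X.Closed m, ∀ A', A ≤ A' → [Z.NoRat, Z.Brody σ, Z.Picard σ, Z.Alg σ A'].TFAE := by
    intro σ
    obtain ⟨m1, h1⟩ := Pool.Agent.Y192.KC.gmE_all n r (X.toL σ)
    obtain ⟨m2, h2⟩ := Pool.Agent.Y192.KC.gmD_all n r (X.toL σ)
    obtain ⟨m3, A, h3⟩ := Pool.Agent.Y192.FN.mainN_all (X.toN σ)
    refine ⟨max 1 (max m1 (max m2 m3)), A, fun m hm he Z A' hA' => ?_⟩
    have hm0 : 0 < m := lt_of_lt_of_le one_pos ((le_max_left _ _).trans hm)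
    have hm' : max m1 (max m2 m3) ≤ m := (le_max_right _ _).trans hm
    have hm1 : m1 ≤ m := (le_max_left _ _).trans hm'
    have hm'' : max m2 m3 ≤ m := (le_max_right _ _).trans hm'
    have hm2 : m2 ≤ m := (le_max_left _ _).trans hm''
    have hm3 : m3 ≤ m := (le_max_right _ _).trans hm''
    have e := noRat_iff Z σ
    tfae_have 1 → 2 := fun h => brody_of he (h1 m hm1 he) Z (e.1 h)
    tfae_have 2 → 1 := fun h => e.2 fun p s hps => not_brody he hps h
    tfae_have 1 → 3 := fun h => picard_of he (h2 m hm2 he) Z (e.1 h)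
    tfae_have 3 → 1 := fun h => e.2 fun p s hps => not_picard he hps h
    tfae_have 1 → 4 := by
      intro h M _ _ _ u v hu hon
      rcases alg_of (h3 m hm3 he).1 Z (e.1 h) M u v hu hon with h4 | h4
      · left
        refine h4.trans (mul_le_mul_of_nonneg_right ?_ (le_max_right _ _))
        exact_mod_cast hA'
      · exact Or.inr h4
    tfae_have 4 → 1 := fun h => e.2 fun p s hps => not_alg hm0 he hps A' h
    tfae_finish
  choose m0 A hA using h1
  refine ⟨Finset.univ.sup m0, Finset.univ.sup A, fun m hm he Z => ⟨fun h L _ _ _ p s hps => ?_,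
    fun σ => hA σ m ((Finset.le_sup (Finset.mem_univ σ)).trans hm) he Z _
      (Finset.le_sup (Finset.mem_univ σ))⟩⟩
  exact hps.not_finite (h L)

end Pool.Agent.T2h91.KU
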