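import Pool.Agent.T2h91.Per
import Pool.Agent.TH143.EL.Exa

/-!
Holomorphic maps to projective space: comparison of definitions, maps from complex tori.
-/

set_option autoImplicit false

open Filter Topology MvPolynomial
open scoped LinearAlgebra.Projectivization

namespace Pool.Agent.T2h91

open Pool.Agent.W602.GT
open Pool.Agent.N154.TB (CurveIn IsConst Elliptic)
open Pool.Agent.TH143.EL (Rep InV TorusMapsIn)

variable {n : ℕ} {ι ι' : Type} {k : Type} [Field k]

/-- holomorphic maps in the sense of the two definitions -/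
theorem holMap_iff {f : ℂ → ℙ ℂ (Fin (n + 1) → ℂ)} :
    Pool.Agent.TH143.EL.HolMap f ↔ Pool.Agent.N154.GG.HolMap f := by
  constructor
  · intro h z0
    obtain ⟨g, hg, hr⟩ := h z0
    have h1 : ∀ᶠ z in 𝓝 z0, (∀ j, AnalyticAt ℂ (g j) z) ∧ Rep (f z) fun j => g j z :=
      (eventually_all.2 fun j => (hg j).eventually_analyticAt).and hr
    obtain ⟨V, hV, hVo, hz0⟩ := _root_.eventually_nhds_iff.1 h1
    refine ⟨V, fun z j => g j z, hVo, hz0, fun z hz => ?_, fun z hz => (hV z hz).2⟩
    refine (differentiableAt_pi.2 fun j => ?_).differentiableWithinAt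
    exact ((hV z hz).1 j).differentiableAt
  · intro h z0
    obtain ⟨V, g, hVo, hz0, hg, hr⟩ := h z0
    refine ⟨fun j z => g z j, fun j => ?_, ?_⟩
    · have h1 : AnalyticAt ℂ g z0 := hg.analyticAt (hVo.mem_nhds hz0)
      exact (analyticAt_pi_iff.1 h1) j
    · filter_upwards [hVo.mem_nhds hz0] with z hz
      exact hr z hz

/-- the points of the algebraic set of the ideal generated by forms -/
theorem inV_span {κ : Type} (F : κ → MvPolynomial (Fin (n + 1)) ℂ) (hF : ∀ i, IsForm (F i))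
    (p : ℙ ℂ (Fin (n + 1) → ℂ)) :
    InV (Ideal.span (Set.range F)) p ↔ ∀ i, val p.rep (F i) = 0 := by
  constructor
  · intro h i
    unfold val
    rw [MvPolynomial.aeval_eq_eval]
    exact h _ (Ideal.subset_span ⟨i, rfl⟩) (hF i)
  · intro h G hG _
    have h1 : Ideal.span (Set.range F) ≤ RingHom.ker (eval p.rep) := by
      rw [Ideal.span_le]
      rintro _ ⟨i, rfl⟩
      rw [SetLike.mem_coe, RingHom.mem_ker]
      have := h i
      unfold val at this
      rwa [MvPolynomial.aeval_eq_eval] at this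
    exact h1 hG

/-- doubly periodic maps -/
theorem elliptic_of {E : Type} {f : ℂ → E} {ω₁ ω₂ : ℂ} (hind : LinearIndependent ℝ ![ω₁, ω₂])
    (h1 : ∀ z, f (z + ω₁) = f z) (h2 : ∀ z, f (z + ω₂) = f z) : Elliptic f := by
  refine ⟨⟨ω₁, ω₂, hind⟩, fun l hl z => ?_⟩
  rw [PeriodPair.mem_lattice] at hl
  obtain ⟨a, b, rfl⟩ := hl
  have e : ∀ {ω : ℂ}, (∀ z, f (z + ω) = f z) → ∀ (c : ℤ) z, f (z + c * ω) = f z := by
    intro ω hω c
    have hn : ∀ (N : ℕ) z, f (z + N * ω) = f z := by
      intro N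
      induction N with
      | zero => simp
      | succ N ih =>
        intro z
        rw [Nat.cast_succ, add_mul, one_mul, ← add_assoc, hω, ih]
    intro z
    obtain ⟨N, rfl | rfl⟩ := c.eq_nat_or_neg
    · exact_mod_cast hn N z
    · have h3 := hn N (z + ((-(N : ℤ) : ℤ) : ℂ) * ω)
      push_cast at h3 ⊢
      rw [show z + -(N : ℂ) * ω + N * ω = z by ring] at h3
      exact h3.symm
  rw [← add_assoc]
  rw [e (ω := ω₂) h2, e (ω := ω₁) h1]

theorem base_form' {σ : k →+* ℂ} {F : ι → MvPolynomial (Fin (n + 1)) k} (hF : ∀ i, IsForm (F i)) :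
    ∀ i, IsForm (base σ F i) := fun i => by
  obtain ⟨d, hd⟩ := hF i
  exact ⟨d, hd.map σ⟩

/-- **Few points imply that the images of complex tori lie in `Z`.** -/
theorem Few.torus [NumberField k] {F : ι → MvPolynomial (Fin (n + 1)) k}
    {P : ι' → MvPolynomial (Fin (n + 1)) k} (h : Few F P) (hF : ∀ i, IsForm (F i))
    (hP : ∀ j, IsForm (P j)) (σ : k →+* ℂ) :
    TorusMapsIn (Ideal.span (Set.range (base σ F))) (Ideal.span (Set.range (base σ P))) := by
  intro ω₁ ω₂ hind f hf h1 h2 hI hnc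
  have hc : CurveIn (Cone (base σ F)) f :=
    ⟨holMap_iff.1 hf, fun z => ⟨(f z).rep_nonzero, (inV_span _ (base_form' hF) _).1 (hI z)⟩⟩
  rcases h.ell hF hP σ hc (elliptic_of hind h1 h2) with h3 | h3
  · obtain ⟨z, w, hzw⟩ := hnc
    exact absurd (h3 z w) hzw
  · exact fun z => (inV_span _ (base_form' hP) _).2 (h3 z)

end Pool.Agent.T2h91
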