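import Pool.Agent.T2h91.Defs
import Pool.Agent.TH143.EL.Main
import Pool.Agent.Y189.DC.Red

/-!
Entire curves given by linear differential or functional equations, and maps from elliptic curves
over number fields.
-/

set_option autoImplicit false

open Filter LinearAlgebra.Projectivization Pool.Agent.W602.GT
open Pool.Agent.N154.TB (CurveIn IsConst Elliptic)
open Pool.Agent.TH143.EL (Rep TrOne LinB)
open Pool.Agent.Y189.DC (NCE Base FunEq)

namespace Pool.Agent.T2h91

variable {n : ℕ} {ι ι' : Type}

/-- The image of the map `f` from the complex plane to projective space lies in `Z = {P = 0}`. -/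
def InZ (P : ι' → MvPolynomial (Fin (n + 1)) ℂ) (f : ℂ → ℙ ℂ (Fin (n + 1) → ℂ)) : Prop :=
  ∀ z j, val (f z).rep (P j) = 0

/-- All nonconstant holomorphic maps from one-dimensional complex tori to `X = {F = 0}` have their
image in `Z = {P = 0}`; they are given by the doubly periodic entire curves. -/
def TorusIn (F : ι → MvPolynomial (Fin (n + 1)) ℂ) (P : ι' → MvPolynomial (Fin (n + 1)) ℂ) : Prop :=
  ∀ f : ℂ → ℙ ℂ (Fin (n + 1) → ℂ), CurveIn (Cone F) f → Elliptic f → IsConst f ∨ InZ P f

/-- The map `f` from the complex plane to projective space has homogeneous coordinates which are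
meromorphic functions on the plane, each of them satisfying a nontrivial linear differential
equation with coefficients in a ring `B` of meromorphic functions, where `B` is closed under
differentiation and of transcendence degree at most one over the constants (`TrOne B`: any two
elements of `B` are algebraically dependent). -/
def LinearCurve (f : ℂ → ℙ ℂ (Fin (n + 1) → ℂ)) : Prop :=
  ∃ B : Subalgebra ℂ (ℂ → ℂ), TrOne B ∧ ∃ h : Fin (n + 1) → ℂ → ℂ, (∀ j, Meromorphic (h j)) ∧
    (∀ j, LinB B (h j)) ∧ ∀ᶠ z in codiscrete ℂ, Rep (f z) fun j => h j z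

/-- All nonconstant entire curves in `X = {F = 0}` given by linear differential equations have their
image in `Z = {P = 0}`. -/
def LinearIn (F : ι → MvPolynomial (Fin (n + 1)) ℂ) (P : ι' → MvPolynomial (Fin (n + 1)) ℂ) :
    Prop :=
  ∀ f : ℂ → ℙ ℂ (Fin (n + 1) → ℂ), CurveIn (Cone F) f → LinearCurve f → IsConst f ∨ InZ P f

/-- The entire curve `f` is given by linear functional equations with respect to `τ`: Here `τ` is a
nonconstant entire function, no iterate `τ^k`, `k > 0`, of which is the identity (`NCE τ`: `τ` is
entire and not constant). The curve has homogeneous coordinates `h j` which are meromorphic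
functions on the plane, each of them satisfying a nontrivial linear functional equation
`∑ a_k(z) h(τ^k(z)) = 0` (`FunEq τ U (h j)`), whose coefficients are polynomials in finitely many
meromorphic functions `u` in `U`. The field generated by `U` is closed under the composition with
`τ` and has transcendence degree at most one over the constants (`Base τ U`). -/
def FunctionalCurve (τ : ℂ → ℂ) (f : ℂ → ℙ ℂ (Fin (n + 1) → ℂ)) : Prop :=
  NCE τ ∧ (∀ k, 0 < k → ∃ z, τ^[k] z ≠ z) ∧ ∃ U : Set (ℂ → ℂ), Base τ U ∧
    ∃ h : Fin (n + 1) → ℂ → ℂ, (∀ j, Meromorphic (h j)) ∧ (∀ j, FunEq τ U (h j)) ∧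
      ∀ᶠ z in codiscrete ℂ, Rep (f z) fun j => h j z

/-- For every nonconstant entire curve `f` in `X = {F = 0}`, which is not contained in
`Z = {P = 0}`, there is a complex number `b` such that the functions `τ`, with respect to which `f`
is given by linear functional equations, are translations `z ↦ z + r b`, `r` rational, and `N r b`
is a period of `f` for some `N > 0`. In particular, `f` is not given by linear functional equations
with respect to a function which is not a translation (for instance, by `q`-difference equations,
`τ(z) = q z`). -/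
def FunctionalIn (F : ι → MvPolynomial (Fin (n + 1)) ℂ) (P : ι' → MvPolynomial (Fin (n + 1)) ℂ) :
    Prop :=
  ∀ f : ℂ → ℙ ℂ (Fin (n + 1) → ℂ), CurveIn (Cone F) f → IsConst f ∨ InZ P f ∨
    ∃ b : ℂ, ∀ τ, FunctionalCurve τ f →
      ∃ r : ℚ, (∀ z, τ z = z + r * b) ∧ ∃ N : ℕ, 0 < N ∧ ∀ z, f (z + N * (r * b)) = f z

/-- All nonconstant maps over finite extensions `L` of the number field `k` from elliptic curves to
the projective variety `X = {F = 0}` have their image in `Z = {P = 0}`. The map from the elliptic
curve `y ^ 2 = x ^ 3 + a x + b` is given by the homogeneous coordinates `u` of its generic point, in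
the function field `M = L(x, y)`; it is constant if the quotients of the coordinates are algebraic
over `L`. -/
def NoEll {k : Type} [Field k] (F : ι → MvPolynomial (Fin (n + 1)) k)
    (P : ι' → MvPolynomial (Fin (n + 1)) k) : Prop :=
  ∀ (L : Type) [Field L] [NumberField L] [Algebra k L] (a b : L), 4 * a ^ 3 + 27 * b ^ 2 ≠ 0 →
    ∀ (M : Type) [Field M] [Algebra L M] (x y : M), Transcendental L x →
      y ^ 2 = x ^ 3 + algebraMap L M a * x + algebraMap L M b →
      IntermediateField.adjoin L {x, y} = ⊤ →
      ∀ u : Fin (n + 1) → M, (∀ i, val u (MvPolynomial.map (algebraMap k L) (F i)) = 0) →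
        (∃ j, val u (MvPolynomial.map (algebraMap k L) (P j)) ≠ 0) →
        ∀ i j, u j ≠ 0 → IsAlgebraic L (u i / u j)

end Pool.Agent.T2h91
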