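import Pool.Agent.T2h91.OMain
import Pool.Agent.T2h91.KMain

/-!
Entire curves given by linear differential or functional equations, and maps from elliptic curves
over number fields: the main theorem.
-/

set_option autoImplicit false

open Filter Topology LinearAlgebra.Projectivization Polynomial WeierstrassCurve.Affine
open scoped LinearAlgebra.Projectivization

namespace Pool.Agent.T2h91

open Pool.Agent.W602.GT (IsForm val val_smul Cone SubVar GeneralType)
open Pool.Agent.N154.TB (CurveIn IsConst Elliptic)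
open Pool.Agent.TH143.EL (Rep InV TorusMapsIn TrOne LinB)
open Pool.Agent.Q103.AR

variable {n : ℕ} {ι ι' : Type}

section

variable {k : Type} [Field k]

/-- a certificate gives entire curves for all embeddings -/
theorem curve_of_cert {F : ι → MvPolynomial (Fin (n + 1)) k} (hF : ∀ i, IsForm (F i))
    {P : ι' → MvPolynomial (Fin (n + 1)) k} (hP : ∀ i, IsForm (P i)) (h : Cert F P)
    (σ : k →+* ℂ) : ¬ LinearIn (base σ F) (base σ P) := by
  obtain ⟨l, R, i1, i2, i3, i4, a, b, w, z, r, r₁, r₂, i, j, h1, h2, h3, h4, -⟩ := h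
  obtain ⟨L, j1, j2, j3, φ, hφ⟩ := exists_spec k R (cf z r * mn (w i) (w j) r₁ r₂)
    (mul_ne_zero h3 h4)
  obtain ⟨ρ, hρ⟩ := exists_embed σ L
  rw [map_mul] at hφ
  set g : R →+* ℂ := ρ.comp φ.toRingHom with hg
  obtain ⟨X, Y, Z, hX, hY, hZ, hE, hD, s0, t0, hst⟩ := wei1 (g a) (g b)
  obtain ⟨f, hf, hfc, ⟨t, ht⟩, hr⟩ := entire_of_evk' σ F hF (P l) (hP l) g (fun c => by
    change ρ (φ (algebraMap k R c)) = σ c
    rw [φ.commutes, hρ]) a b w h1 z h2 r ((map_ne_zero ρ).2 (left_ne_zero_of_mul hφ)) i j r₁ r₂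
    ((map_ne_zero ρ).2 (right_ne_zero_of_mul hφ)) hX hY hZ hE hst
  obtain ⟨B, hB, hBp⟩ := linear_coords hX hY hZ hE hD hst
  intro hcon
  rcases hcon f hf ⟨B, hB, _, fun l => (hBp _ _).1, fun l => (hBp _ _).2, hr⟩ with h5 | h5
  · exact hfc h5
  · exact ht (h5 t l)

theorem el_mk {L : Type} [Field L] (a b : L) (p q : L[X]) :
    El a b p q = CoordinateRing.mk (wc a b) (C p + C q * X) := by
  unfold El
  rw [CoordinateRing.smul, CoordinateRing.smul, mul_one, map_add, map_mul]

theorem el_eq {L : Type} [Field L] (a b : L) :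
    El a b 0 1 ^ 2 = El a b X 0 ^ 3 + El a b (C a) 0 * El a b X 0 + El a b (C b) 0 := by
  simp only [el_mk, ← map_pow, ← map_mul, ← map_add]
  refine AdjoinRoot.mk_eq_mk.2 ⟨1, ?_⟩
  rw [WeierstrassCurve.Affine.polynomial, mul_one]
  simp only [wc, map_zero, zero_mul, add_zero, map_one, one_mul, zero_add, map_add, map_mul, map_pow]

theorem el_split {L : Type} [Field L] (a b : L) (p q : L[X]) :
    El a b p q = El a b p 0 + El a b q 0 * El a b 0 1 := by
  simp only [el_mk, ← map_mul, ← map_add, map_zero, map_one, zero_mul, add_zero, zero_add, one_mul]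

/-- the function field of the curve -/
theorem exists_field {L : Type} [Field L] (a b : L) : ∃ (M : Type) (_ : Field M) (_ : Algebra L M)
    (x y : M), Transcendental L x ∧ y ^ 2 = x ^ 3 + algebraMap L M a * x + algebraMap L M b ∧
      IntermediateField.adjoin L {x, y} = ⊤ := by
  let CR := (wc a b).CoordinateRing
  let M := FractionRing CR
  let ψ : CR →+* M := algebraMap CR M
  have hψ : Function.Injective ψ := IsFractionRing.injective CR M
  let x : M := ψ (El a b X 0)
  let y : M := ψ (El a b 0 1)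
  have hc : ∀ c : L, algebraMap L M c = ψ (El a b (C c) 0) := by
    intro c
    rw [IsScalarTower.algebraMap_apply L CR M, algebraMap_el]
  have hxy : y ^ 2 = x ^ 3 + algebraMap L M a * x + algebraMap L M b := by
    rw [hc, hc]
    simp only [x, y, ← map_pow, ← map_mul, ← map_add]
    rw [el_eq]
  have hp : ∀ p : L[X], ψ (El a b p 0) = aeval x p := by
    intro p
    have h1 : (ψ.comp (CoordinateRing.mk (wc a b))).comp (C : L[X] →+* L[X][X]) =
        (aeval x : L[X] →ₐ[L] M).toRingHom := by
      refine Polynomial.ringHom_ext (fun c => ?_) ?_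
      · change ψ (CoordinateRing.mk (wc a b) (C (C c))) = aeval x (C c)
        rw [aeval_C, hc, el_mk, map_zero, zero_mul, add_zero]
      · change ψ (CoordinateRing.mk (wc a b) (C X)) = aeval x X
        rw [aeval_X]
        change _ = ψ (El a b X 0)
        rw [el_mk, map_zero, zero_mul, add_zero]
    have h2 := congrArg (fun f : L[X] →+* M => f p) h1
    rw [el_mk, map_zero, zero_mul, add_zero]
    exact h2
  have hpq : ∀ p q : L[X], ψ (El a b p q) = aeval x p + aeval x q * y := by
    intro p q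
    rw [← hp, ← hp, el_split, map_add, map_mul]
  refine ⟨M, inferInstance, inferInstance, x, y, ?_, hxy, ?_⟩
  · rintro ⟨p, hp0, hpx⟩
    rw [← hp] at hpx
    exact hp0 (el_zero ((map_eq_zero_iff ψ hψ).1 hpx)).1
  · rw [eq_top_iff]
    rintro s -
    have hx : x ∈ IntermediateField.adjoin L {x, y} :=
      IntermediateField.subset_adjoin L _ (by simp)
    have hy : y ∈ IntermediateField.adjoin L {x, y} :=
      IntermediateField.subset_adjoin L _ (by simp)
    have hae : ∀ p : L[X], aeval x p ∈ IntermediateField.adjoin L {x, y} := by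
      intro p
      have h3 := aeval_mem_adjoin_singleton L x (p := p)
      have h4 : Algebra.adjoin L {x} ≤ (IntermediateField.adjoin L {x, y}).toSubalgebra :=
        Algebra.adjoin_le (Set.singleton_subset_iff.2 hx)
      exact h4 h3
    have hel : ∀ v : CR, ψ v ∈ IntermediateField.adjoin L {x, y} := by
      intro v
      obtain ⟨p, q, rfl⟩ := exists_el v
      rw [hpq]
      exact add_mem (hae p) (mul_mem (hae q) hy)
    obtain ⟨v, v', hv', rfl⟩ := IsFractionRing.div_surjective (A := CR) s
    exact div_mem (hel v) (hel v')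

theorem cert_of_torus {F : ι → MvPolynomial (Fin (n + 1)) k} (hF : ∀ i, IsForm (F i))
    {P : ι' → MvPolynomial (Fin (n + 1)) k} (hP : ∀ i, IsForm (P i)) (σ : k →+* ℂ)
    (h : ¬ TorusIn (base σ F) (base σ P)) : Cert F P := by
  unfold TorusIn at h
  push Not at h
  obtain ⟨f, hf, hell, hc, hz⟩ := h
  obtain ⟨K, i1, i2, y, hy, hgt, l, hl⟩ := low_of_torus (base_form' hF) (base_form' hP) hf hell hc hz
  exact cert_of_low hF hP σ hy hgt l hl

variable [NumberField k]

/-- a certificate gives a map from an elliptic curve over a number field -/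
theorem ell_of_cert {F : ι → MvPolynomial (Fin (n + 1)) k}
    {P : ι' → MvPolynomial (Fin (n + 1)) k} (h : Cert F P) : ¬ NoEll F P := by
  obtain ⟨l, R, i1, i2, i3, i4, a, b, w, z, r, r₁, r₂, i, j, h1, h2, h3, h4, h5⟩ := h
  obtain ⟨L, j1, j2, j3, φ, hφ⟩ := exists_spec k R (cf z r * mn (w i) (w j) r₁ r₂ *
    (4 * a ^ 3 + 27 * b ^ 2)) (mul_ne_zero (mul_ne_zero h3 h4) h5)
  have := KU.numberField_of (k := k) L
  rw [map_mul, map_mul] at hφ
  have e3 := left_ne_zero_of_mul (left_ne_zero_of_mul hφ)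
  have e4 := right_ne_zero_of_mul (left_ne_zero_of_mul hφ)
  have e5 := right_ne_zero_of_mul hφ
  obtain ⟨M, m1, m2, x, y, hx, hxy, htop⟩ := exists_field (φ.toRingHom a) (φ.toRingHom b)
  obtain ⟨w', hw'⟩ : ∃ w' : Fin (n + 1) → L[X] × L[X],
      w' = fun l => ((w l).1.map φ.toRingHom, (w l).2.map φ.toRingHom) := ⟨_, rfl⟩
  have hinj := ev_injective hxy hx
  obtain ⟨u, hu0⟩ : ∃ u : Fin (n + 1) → M, ∀ l, u l = ev (algebraMap L M) hxy
    (El (φ.toRingHom a) (φ.toRingHom b) (w' l).1 (w' l).2) := ⟨_, fun _ => rfl⟩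
  have hu : ∀ G : MvPolynomial (Fin (n + 1)) k, val u (MvPolynomial.map (algebraMap k L) G) =
      ev (algebraMap L M) hxy (mp φ.toRingHom a b (evk a b w G)) := by
    intro G
    rw [mp_evk, ← ev_evk hxy w' u (fun _ => (hu0 _).symm) G, hw']
  have hmn : mn (w' i) (w' j) r₁ r₂ ≠ 0 := by
    rw [hw', mn_map]
    exact e4
  intro hcon
  have huj : u j ≠ 0 := by
    intro h0
    rw [hu0] at h0
    obtain ⟨h6, h7⟩ := el_zero (hinj (h0.trans (map_zero _).symm))
    apply hmn
    unfold mn cf
    rw [h6, h7]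
    simp
  have hdisc : 4 * φ.toRingHom a ^ 3 + 27 * φ.toRingHom b ^ 2 ≠ 0 := by
    have : φ (4 * a ^ 3 + 27 * b ^ 2) = 4 * φ.toRingHom a ^ 3 + 27 * φ.toRingHom b ^ 2 := by
      simp only [map_add, map_mul, map_pow, map_ofNat]
      rfl
    rw [← this]
    exact e5
  have hPl : val u (MvPolynomial.map (algebraMap k L) (P l)) ≠ 0 := by
    rw [hu, h2, mp_el]
    intro h0
    obtain ⟨h6, h7⟩ := el_zero (hinj (h0.trans (map_zero _).symm))
    apply e3
    have h8 := cf_map φ.toRingHom z r
    rw [h6, h7] at h8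
    refine h8.symm.trans ?_
    simp [cf]
  have halg := hcon L (φ.toRingHom a) (φ.toRingHom b) hdisc M x y hx hxy htop u
    (fun e => by rw [hu, h1, map_zero, map_zero]) ⟨l, hPl⟩ i j huj
  let L' := algebraicClosure L M
  let c : L' := ⟨u i / u j, mem_algebraicClosure_iff.2 halg⟩
  have hx' : Transcendental L' x := fun h0 => hx (h0.restrictScalars L)
  have hxy' : y ^ 2 = x ^ 3 + algebraMap L' M (algebraMap L L' (φ.toRingHom a)) * x +
      algebraMap L' M (algebraMap L L' (φ.toRingHom b)) := hxy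
  have hinj' := ev_injective hxy' hx'
  have hcomp : (algebraMap L' M).comp (algebraMap L L') = algebraMap L M := rfl
  have hz : El (algebraMap L L' (φ.toRingHom a)) (algebraMap L L' (φ.toRingHom b))
      ((w' i).1.map (algebraMap L L') - C c * (w' j).1.map (algebraMap L L'))
      ((w' i).2.map (algebraMap L L') - C c * (w' j).2.map (algebraMap L L')) = 0 := by
    apply hinj'
    rw [map_zero, ev_el]
    simp only [eval₂_sub, eval₂_mul, eval₂_C, eval₂_map, hcomp]
    have h6 : u i = algebraMap L' M c * u j := by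
      change u i = u i / u j * u j
      rw [div_mul_cancel₀ _ huj]
    rw [hu0, hu0, ev_el, ev_el] at h6
    linear_combination h6
  obtain ⟨h6, h7⟩ := el_zero hz
  have hmn' : mn ((w' i).1.map (algebraMap L L'), (w' i).2.map (algebraMap L L'))
      ((w' j).1.map (algebraMap L L'), (w' j).2.map (algebraMap L L')) r₁ r₂ ≠ 0 := by
    rw [mn_map]
    exact (_root_.map_ne_zero _).2 hmn
  have h8 := rel_of_mn hmn' (c := 1) (d := c) (by rw [map_one, one_mul]; exact sub_eq_zero.1 h6)
    (by rw [map_one, one_mul]; exact sub_eq_zero.1 h7)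
  exact one_ne_zero h8

theorem tfae_main {F : ι → MvPolynomial (Fin (n + 1)) k} (hF : ∀ i, IsForm (F i))
    {P : ι' → MvPolynomial (Fin (n + 1)) k} (hP : ∀ i, IsForm (P i)) (σ : k →+* ℂ) :
    [NoEll F P, TorusIn (base σ F) (base σ P), LinearIn (base σ F) (base σ P),
      FunctionalIn (base σ F) (base σ P)].TFAE := by
  tfae_have 1 → 2 := by
    intro h
    by_contra hcon
    exact ell_of_cert (cert_of_torus hF hP σ hcon) h
  tfae_have 2 → 3 := linear_of_torus (base_form' hF) (base_form' hP)
  tfae_have 3 → 1 := by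
    intro h
    by_contra hcon
    exact curve_of_cert hF hP (cert_of_ell hF hP hcon) σ h
  tfae_have 2 ↔ 4 := functional_iff (base_form' hF) (base_form' hP)
  tfae_finish

theorem few_noEll {F : ι → MvPolynomial (Fin (n + 1)) k} (hF : ∀ i, IsForm (F i))
    {P : ι' → MvPolynomial (Fin (n + 1)) k} (hP : ∀ i, IsForm (P i)) (h : Few F P) :
    NoEll F P := by
  obtain ⟨σ⟩ : Nonempty (k →+* ℂ) := inferInstance
  exact ((tfae_main hF hP σ).out 0 1).2
    ((torus_iff (base_form' hF) (base_form' hP)).2 (h.torus hF hP σ))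

end

end Pool.Agent.T2h91
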