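import Pool.Agent.T2h91.OEnt

/-!
The parametrization of a cubic by entire functions and its differential equation.
-/

set_option autoImplicit false

open Filter Topology

namespace Pool.Agent.T2h91

open Pool.Agent.Q95.SF (poincare deq qf F1 F2)
open Pool.Agent.TH143.EL

/-- The parametrization of a cubic by entire functions, with the differential equation. -/
theorem wei1 (a b : ℂ) : ∃ X Y Z : ℂ → ℂ,
    Differentiable ℂ X ∧ Differentiable ℂ Y ∧ Differentiable ℂ Z ∧
    (∀ t, Y t ^ 2 * Z t = X t ^ 3 + a * X t * Z t ^ 2 + b * Z t ^ 3) ∧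
    (∀ t, deriv X t * Z t - X t * deriv Z t = -2 * Y t * Z t) ∧
    ∃ s t, X s * Z t ≠ X t * Z s := by
  obtain ⟨al, be, ha, hb, ha0, hb0, ha1, -, h1, h2⟩ := poincare a b
  have hda : Differentiable ℂ (deriv al) := by
    have := (ha.differentiableOn (s := Set.univ)).deriv isOpen_univ
    exact fun x => (this x (Set.mem_univ x)).differentiableAt Filter.univ_mem
  have hdb : Differentiable ℂ (deriv be) := by
    have := (hb.differentiableOn (s := Set.univ)).deriv isOpen_univ
    exact fun x => (this x (Set.mem_univ x)).differentiableAt Filter.univ_mem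
  have hsq : Differentiable ℂ fun z : ℂ => z ^ 2 := by fun_prop
  refine ⟨fun z => be (z ^ 2) * al (z ^ 2),
    fun z => z * (deriv al (z ^ 2) * be (z ^ 2) - al (z ^ 2) * deriv be (z ^ 2)),
    fun z => al (z ^ 2) ^ 2, (hb.comp hsq).mul (ha.comp hsq),
    differentiable_id.mul (((hda.comp hsq).mul (hb.comp hsq)).sub
      ((ha.comp hsq).mul (hdb.comp hsq))), (ha.comp hsq).pow 2, ?_, ?_, ?_⟩
  · intro z
    have h3 := deq a b ha hb ha0 hb0 ha1 h1 h2 (z ^ 2)
    simp only [qf] at h3
    linear_combination (al (z ^ 2)) ^ 2 * h3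
  · intro z
    have e0 : HasDerivAt (fun z : ℂ => z ^ 2) (2 * z) z := by
      simpa using hasDerivAt_pow 2 z
    have ea : HasDerivAt (fun z => al (z ^ 2)) (deriv al (z ^ 2) * (2 * z)) z :=
      HasDerivAt.comp z (ha (z ^ 2)).hasDerivAt e0
    have eb : HasDerivAt (fun z => be (z ^ 2)) (deriv be (z ^ 2) * (2 * z)) z :=
      HasDerivAt.comp z (hb (z ^ 2)).hasDerivAt e0
    have eX := (eb.mul ea).deriv
    have eZ := (ea.pow 2).deriv
    have eX' : deriv (fun z => be (z ^ 2) * al (z ^ 2)) z =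
        deriv be (z ^ 2) * (2 * z) * al (z ^ 2) + be (z ^ 2) * (deriv al (z ^ 2) * (2 * z)) := eX
    have eZ' : deriv (fun z => al (z ^ 2) ^ 2) z =
        ((2 : ℕ) : ℂ) * al (z ^ 2) ^ (2 - 1) * (deriv al (z ^ 2) * (2 * z)) := eZ
    rw [eX', eZ']
    push_cast
    ring
  · have hne : ∀ᶠ w in 𝓝[≠] (0 : ℂ), al w ≠ 0 := by
      have := (ha 0).hasDerivAt
      rw [ha1] at this
      exact this.eventually_ne one_ne_zero
    obtain ⟨w2, hw2⟩ := hne.exists
    have h3 : ∀ᶠ w in 𝓝[≠] (0 : ℂ), be w * al w2 - be w2 * al w ≠ 0 := by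
      have h4 : ContinuousAt (fun w => be w * al w2 - be w2 * al w) 0 :=
        ((hb.continuous.mul continuous_const).sub
          (continuous_const.mul ha.continuous)).continuousAt
      have h5 : be 0 * al w2 - be w2 * al 0 ≠ 0 := by
        rw [ha0, hb0]
        simpa using hw2
      exact (h4.eventually_ne h5).filter_mono nhdsWithin_le_nhds
    obtain ⟨w1, hw1, hw1'⟩ := (hne.and h3).exists
    obtain ⟨s, hs⟩ := IsAlgClosed.exists_pow_nat_eq w1 (n := 2) (by norm_num)
    obtain ⟨t, ht⟩ := IsAlgClosed.exists_pow_nat_eq w2 (n := 2) (by norm_num)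
    refine ⟨s, t, ?_⟩
    dsimp only
    rw [hs, ht]
    intro h6
    have h7 : al w1 * al w2 * (be w1 * al w2 - be w2 * al w1) = 0 := by
      linear_combination h6
    exact mul_ne_zero (mul_ne_zero hw1 hw2) hw1' h7

/-- The meromorphic functions with class in a subfield closed under differentiation. -/
def BF (K : IntermediateField ℂ MK) : Subalgebra ℂ (ℂ → ℂ) where
  carrier := {h | ∃ hm : Meromorphic h, cl h hm ∈ K}
  mul_mem' := by
    rintro a b ⟨ha, ha'⟩ ⟨hb, hb'⟩
    refine ⟨ha.mul hb, ?_⟩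
    rw [← cl_mul ha hb]
    exact K.mul_mem ha' hb'
  add_mem' := by
    rintro a b ⟨ha, ha'⟩ ⟨hb, hb'⟩
    refine ⟨ha.add hb, ?_⟩
    rw [← cl_add ha hb]
    exact K.add_mem ha' hb'
  algebraMap_mem' := fun c => ⟨Meromorphic.const c, by
    have h1 := K.algebraMap_mem c
    rw [← cl_const] at h1
    exact h1⟩

theorem mem_BF {K : IntermediateField ℂ MK} {h : ℂ → ℂ} (hm : Meromorphic h) :
    h ∈ BF K ↔ cl h hm ∈ K := ⟨fun ⟨_, h'⟩ => h', fun h' => ⟨hm, h'⟩⟩

/-- elements algebraic over one element are algebraically dependent -/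
theorem pair_dep {x u v : MK} (hu : IsAlgebraic (Algebra.adjoin ℂ {x}) u)
    (hv : IsAlgebraic (Algebra.adjoin ℂ {x}) v) : ¬ AlgebraicIndependent ℂ ![u, v] := by
  intro h
  rw [← mem_cl] at hu hv
  have h0 : u ∉ (AlgebraicIndependent.matroid ℂ MK).closure ∅ := by
    rw [mem_cl, Algebra.adjoin_empty]
    intro h1
    exact (h.transcendental 0) (Subalgebra.isAlgebraic_of_isAlgebraic_bot h1)
  have h1 : x ∈ (AlgebraicIndependent.matroid ℂ MK).closure {u} := by
    have h2 := Matroid.closure_exchange (M := AlgebraicIndependent.matroid ℂ MK) (X := ∅) (e := u)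
      (f := x) ⟨by simpa using hu, h0⟩
    simpa using h2.1
  have h2 : v ∈ (AlgebraicIndependent.matroid ℂ MK).closure {u} :=
    (AlgebraicIndependent.matroid ℂ MK).closure_subset_closure_of_subset_closure
      (Set.singleton_subset_iff.2 h1) hv
  rw [mem_cl] at h2
  have h3 := (AlgebraicIndependent.iff_transcendental_adjoin_image 1).1 h
  apply h3.2
  have h4 : (![u, v] '' {1}ᶜ : Set MK) = {u} := by
    ext t
    constructor
    · rintro ⟨j, hj, rfl⟩
      fin_cases j
      · rfl
      · exact absurd rfl hj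
    · rintro rfl
      exact ⟨0, by simp, rfl⟩
  rw [h4]
  exact h2

/-- a subfield of transcendence degree at most one, closed under differentiation -/
theorem trOne_BF {K : IntermediateField ℂ MK} (hD : ∀ z ∈ K, MD z ∈ K) {x : MK}
    (hK : ∀ z ∈ K, IsAlgebraic (Algebra.adjoin ℂ {x}) z) : TrOne (BF K) where
  mero := fun b ⟨hb, _⟩ => hb
  der := by
    rintro b ⟨hb, hb'⟩
    refine ⟨hb.deriv, ?_⟩
    rw [← MD_cl hb]
    exact hD _ hb'
  dep := by
    rintro b ⟨hb, hb'⟩ c ⟨hc, hc'⟩
    have h1 := pair_dep (hK _ hb') (hK _ hc')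
    rw [algebraicIndependent_iff] at h1
    push Not at h1
    obtain ⟨P, hP, hP0⟩ := h1
    refine ⟨P, hP0, ?_⟩
    have hbc : ∀ j, Meromorphic (![b, c] j) := fun j => by
      fin_cases j
      · exact hb
      · exact hc
    have h2 := aeval_cl (![b, c]) hbc P
    have h3 : (fun j : Fin 2 => cl (![b, c] j) (hbc j)) = ![cl b hb, cl c hc] := by
      funext j
      fin_cases j <;> rfl
    rw [h3, hP] at h2
    have h4 := cl_eq_zero.1 h2.symm
    filter_upwards [h4] with z hz
    have h5 : (fun j : Fin 2 => ![b, c] j z) = ![b z, c z] := by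
      funext j
      fin_cases j <;> rfl
    rw [← h5]
    exact hz

/-- the field generated by two meromorphic functions `x`, `y` with `y ^ 2 = x ^ 3 + a x + b` and
`x' = - 2 y` -/
theorem field_xy {ξ η : MK} {a b : ℂ}
    (h1 : η ^ 2 = ξ ^ 3 + algebraMap ℂ MK a * ξ + algebraMap ℂ MK b) (h2 : MD ξ = -2 * η) :
    (∀ z ∈ IntermediateField.adjoin ℂ {ξ, η}, MD z ∈ IntermediateField.adjoin ℂ {ξ, η}) ∧
    ∀ z ∈ IntermediateField.adjoin ℂ {ξ, η}, IsAlgebraic (Algebra.adjoin ℂ {ξ}) z := by
  set K := IntermediateField.adjoin ℂ {ξ, η} with hKdef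
  have hξ : ξ ∈ K := IntermediateField.subset_adjoin ℂ _ (by simp)
  have hη : η ∈ K := IntermediateField.subset_adjoin ℂ _ (by simp)
  have hnum : ∀ c : ℂ, algebraMap ℂ MK c ∈ K := fun c => K.algebraMap_mem c
  have hDη : MD η ∈ K := by
    by_cases h0 : η = 0
    · rw [h0]
      have h3 : MD (0 : MK) = 0 := (MDer).map_zero
      rw [h3]
      exact K.zero_mem
    · have h3 : MD (η ^ 2) = 2 * η * MD η := by
        rw [pow_two, MD_mul]
        ring
      have h4 : MD (ξ ^ 3 + algebraMap ℂ MK a * ξ + algebraMap ℂ MK b) =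
          (3 * ξ ^ 2 + algebraMap ℂ MK a) * MD ξ := by
        rw [MD_add, MD_add, MD_const, MD_mul, MD_const, show ξ ^ 3 = ξ * (ξ * ξ) by ring, MD_mul,
          MD_mul]
        ring
      rw [← h1, h3, h2] at h4
      have h5 : MD η = -(3 * ξ ^ 2 + algebraMap ℂ MK a) := by
        apply mul_left_cancel₀ (mul_ne_zero two_ne_zero h0)
        rw [h4]
        ring
      rw [h5]
      refine K.neg_mem (K.add_mem (K.mul_mem ?_ (pow_mem hξ 2)) (hnum a))
      have := hnum 3
      rwa [map_ofNat] at this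
  have hDξ : MD ξ ∈ K := by
    rw [h2]
    refine K.mul_mem (K.neg_mem ?_) hη
    have := hnum 2
    rwa [map_ofNat] at this
  constructor
  · intro z hz
    induction hz using IntermediateField.adjoin_induction with
    | mem z hz =>
      rcases hz with rfl | hz
      · exact hDξ
      · rw [Set.mem_singleton_iff] at hz
        rw [hz]
        exact hDη
    | algebraMap c =>
      rw [MD_const]
      exact K.zero_mem
    | add z w hz hw ihz ihw =>
      rw [MD_add]
      exact K.add_mem ihz ihw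
    | inv z hz ihz =>
      have h3 : MD z⁻¹ = -(z⁻¹ ^ 2 * MD z) := by
        have h4 := (MDer).leibniz_inv z
        rw [MDer_apply, MDer_apply, smul_eq_mul] at h4
        rw [h4]
        ring
      rw [h3]
      exact K.neg_mem (K.mul_mem (pow_mem (K.inv_mem hz) 2) ihz)
    | mul z w hz hw ihz ihw =>
      rw [MD_mul]
      exact K.add_mem (K.mul_mem hz ihw) (K.mul_mem hw ihz)
  · intro z hz
    have aξ : IsAlgebraic (Algebra.adjoin ℂ {ξ}) ξ := by
      have h3 : ξ = algebraMap (Algebra.adjoin ℂ {ξ}) MK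
        ⟨ξ, Algebra.subset_adjoin (Set.mem_singleton ξ)⟩ := rfl
      rw [h3]
      exact isAlgebraic_algebraMap _
    have ac : ∀ c : ℂ, IsAlgebraic (Algebra.adjoin ℂ {ξ}) (algebraMap ℂ MK c) := fun c => by
      have h3 : algebraMap ℂ MK c = algebraMap (Algebra.adjoin ℂ {ξ}) MK (algebraMap ℂ _ c) := rfl
      rw [h3]
      exact isAlgebraic_algebraMap _
    have aη : IsAlgebraic (Algebra.adjoin ℂ {ξ}) η := by
      have h3 : IsAlgebraic (Algebra.adjoin ℂ {ξ}) (η ^ 2) := by
        rw [h1]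
        exact ((aξ.pow 3).add ((ac a).mul aξ)).add (ac b)
      exact h3.of_pow two_pos
    induction hz using IntermediateField.adjoin_induction with
    | mem z hz =>
      rcases hz with rfl | hz
      · exact aξ
      · rw [Set.mem_singleton_iff] at hz
        rw [hz]
        exact aη
    | algebraMap c => exact ac c
    | add z w hz hw ihz ihw => exact ihz.add ihw
    | inv z hz ihz => exact ihz.inv
    | mul z w hz hw ihz ihw => exact ihz.mul ihw

/-- **The coordinates satisfy linear differential equations.** -/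
theorem linear_coords {X Y Z : ℂ → ℂ} {a b : ℂ} (hX : Differentiable ℂ X) (hY : Differentiable ℂ Y)
    (hZ : Differentiable ℂ Z)
    (hE : ∀ t, Y t ^ 2 * Z t = X t ^ 3 + a * X t * Z t ^ 2 + b * Z t ^ 3)
    (hD : ∀ t, deriv X t * Z t - X t * deriv Z t = -2 * Y t * Z t) {s0 t0 : ℂ}
    (hst : X s0 * Z t0 ≠ X t0 * Z s0) : ∃ B : Subalgebra ℂ (ℂ → ℂ), TrOne B ∧
      ∀ p q : Polynomial ℂ,
        Meromorphic (fun t => p.eval (X t / Z t) + q.eval (X t / Z t) * (Y t / Z t)) ∧
        LinB B (fun t => p.eval (X t / Z t) + q.eval (X t / Z t) * (Y t / Z t)) := by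
  have mX : Meromorphic X := fun t => (hX.analyticAt t).meromorphicAt
  have mY : Meromorphic Y := fun t => (hY.analyticAt t).meromorphicAt
  have mZ : Meromorphic Z := fun t => (hZ.analyticAt t).meromorphicAt
  have hZ0 : ¬ ∀ᶠ t in codiscrete ℂ, Z t = 0 := by
    intro h
    have h1 : ∀ t, Z t = 0 := fun t =>
      eq_of_codis (f := Z) (g := fun _ => 0) h (hZ t).continuousAt continuousAt_const
    exact hst (by rw [h1, h1]; ring)
  have hZne := mero_ne mZ hZ0
  let ξ : MK := cl (X / Z) (mX.div mZ)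
  let η : MK := cl (Y / Z) (mY.div mZ)
  have h1 : η ^ 2 = ξ ^ 3 + algebraMap ℂ MK a * ξ + algebraMap ℂ MK b := by
    rw [← sub_eq_zero]
    have h3 := aeval_cl (![X / Z, Y / Z]) (fun j => by
      fin_cases j
      · exact mX.div mZ
      · exact mY.div mZ) (MvPolynomial.X 1 ^ 2 - (MvPolynomial.X 0 ^ 3 + MvPolynomial.C a *
        MvPolynomial.X 0 + MvPolynomial.C b))
    simp only [map_sub, map_add, map_mul, map_pow, MvPolynomial.aeval_X, MvPolynomial.aeval_C] at h3
    refine Eq.trans h3 ?_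
    rw [cl_eq_zero]
    filter_upwards [hZne] with t ht
    simp only [MvPolynomial.eval_X, MvPolynomial.eval_C]
    change (Y t / Z t) ^ 2 - ((X t / Z t) ^ 3 + a * (X t / Z t) + b) = 0
    have := hE t
    field_simp
    linear_combination this
  have h2 : MD ξ = -2 * η := by
    have h3 : MD ξ = cl (deriv (X / Z)) (mX.div mZ).deriv := MD_cl _
    have h4 : (-2 : MK) * η = cl (fun t => -2 * (Y t / Z t))
        ((Meromorphic.const (-2 : ℂ)).mul (mY.div mZ)) := by
      have h5 : (-2 : MK) = cl (fun _ => (-2 : ℂ)) (Meromorphic.const (-2 : ℂ)) := by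
        rw [cl_const, map_neg, map_ofNat]
      rw [h5]
      rfl
    rw [h3, h4, cl_eq]
    filter_upwards [hZne] with t ht
    rw [deriv_div (hX t) (hZ t) ht, hD t]
    field_simp
  obtain ⟨hD', hA⟩ := field_xy h1 h2
  have hB := trOne_BF hD' hA
  refine ⟨_, hB, fun p q => ?_⟩
  have hmem : (fun t => p.eval (X t / Z t) + q.eval (X t / Z t) * (Y t / Z t)) ∈
      BF (IntermediateField.adjoin ℂ {ξ, η}) := by
    have hx : (X / Z) ∈ BF (IntermediateField.adjoin ℂ {ξ, η}) :=
      ⟨mX.div mZ, IntermediateField.subset_adjoin ℂ _ (by simp [ξ])⟩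
    have hy : (Y / Z) ∈ BF (IntermediateField.adjoin ℂ {ξ, η}) :=
      ⟨mY.div mZ, IntermediateField.subset_adjoin ℂ _ (by simp [η])⟩
    have hp : ∀ p : Polynomial ℂ, (fun t => p.eval (X t / Z t)) ∈
        BF (IntermediateField.adjoin ℂ {ξ, η}) := by
      intro p
      have h5 : (fun t => p.eval (X t / Z t)) = Polynomial.aeval (X / Z) p := by
        funext t
        have h6 := Polynomial.aeval_algHom_apply (Pi.evalAlgHom ℂ (fun _ : ℂ => ℂ) t) (X / Z) p
        have h7 : Pi.evalAlgHom ℂ (fun _ : ℂ => ℂ) t (Polynomial.aeval (X / Z) p) =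
            (Polynomial.aeval (X / Z) p) t := rfl
        rw [← h7, ← h6, Polynomial.coe_aeval_eq_eval]
        rfl
      rw [h5]
      exact (Algebra.adjoin_le (Set.singleton_subset_iff.2 hx))
        (Polynomial.aeval_mem_adjoin_singleton ℂ _)
    exact Subalgebra.add_mem _ (hp p) (Subalgebra.mul_mem _ (hp q) hy)
  exact ⟨hB.mero _ hmem, linB_of_mem hB hmem⟩

end Pool.Agent.T2h91
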