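import Pool.Agent.T2h91.SDefs
import Pool.Agent.T2h91.Gen
import Pool.Agent.T2h91.Abel
import Pool.Agent.N155.L.SFin
import Pool.Agent.N155.L.Ell1

/-!
Surfaces over number fields with symmetric differentials.
-/

set_option autoImplicit false

open MvPolynomial LinearAlgebra.Projectivization

namespace Pool.Agent.T2h91

open FF Pool.Agent.W602.GT
open Pool.Agent.N155 (SmoothSurface AllSubGeneral SymD BrodyHyperbolic hyp_of_sym ell_regular
  spec_dense BoundedDer tangent_of_bounded)
open Pool.Agent.N154.TB (CurveIn IsConst BrodyHyp)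

section general

variable {k : Type} [Field k] [NumberField k] {n : ℕ} {ι : Type}
  {F : ι → MvPolynomial (Fin (n + 1)) k} {K : Type} [Field K] [Algebra ℂ K]
  {y : Fin (n + 1) → K}

/-- All subvarieties of the surface are of general type. -/
theorem all_general (h : FewPoints F) (σ : k →+* ℂ) (hF : ∀ i, IsForm (F i))
    (hX : SmoothSurface (base σ F) y) (hgt : GeneralType ℂ K 2) :
    AllSubGeneral (base σ F) := by
  intro K1 _ _ w y1 hw hy1
  have hvan : ∀ G : MvPolynomial (Fin (n + 1)) ℂ, IsForm G → val y G = 0 → val y1 G = 0 := by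
    intro G hG h0
    exact nullst hG h0 (fun x hx => (hX.irred hx).2 G hG h0) hy1.mem
  rcases Nat.lt_or_ge w 2 with hw2 | hw2
  · obtain rfl : w = 1 := by omega
    by_contra hcon
    have h1 := h.few.low hF one_form σ hy1 hcon ()
    unfold base val at h1
    rw [map_one, map_one] at h1
    exact one_ne_zero h1
  · have h2 : ∀ G : MvPolynomial (Fin (n + 1)) ℂ, IsForm G → val y1 G = 0 → val y G = 0 :=
      fun G hG h0 => spec_dense hy1.ne hy1.gen hX.sub.dim hy1.dim hw2 hvan hG h0
    obtain ⟨e⟩ := equiv_of_van hy1.ne hX.sub.gen hy1.gen hvan h2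
    have h3 := e.trdeg_eq
    rw [hX.sub.dim, hy1.dim] at h3
    have h4 : w = 2 := by exact_mod_cast h3.symm
    rw [h4]
    exact general_of_equiv e hgt

theorem kob_of_sep (h : FewPoints F) (σ : k →+* ℂ) (hF : ∀ i, IsForm (F i))
    (hX : SmoothSurface (base σ F) y) (hgt : GeneralType ℂ K 2) (hs : Separated K) :
    KobayashiHyp (base σ F) :=
  kob_of_brody (base_form σ hF) fun f hf =>
    hyp_of_sym hX (all_general h σ hF hX hgt) (fun M _ _ _ _ D hD => hs M D hD) f hf.1 hf.2

end general

/-! ### Examples of separated function fields -/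

variable {K : Type} [Field K] [Algebra ℂ K]

theorem sep_of_prod {d : ℕ} (hd : 0 < d) {h : K} (hh : h ≠ 0) {a : Fin d → K}
    (ha : ∀ l, Transcendental ℂ (a l)) (hreg : (⟨d, 1, fun _ => h, fun _ => a⟩ : SymD K).Regular 2) :
    Separated K := by
  intro L _ _ _ _ D hD
  refine ⟨_, hd, hreg, ?_⟩
  unfold SymD.app
  rw [Fin.sum_univ_one]
  refine mul_ne_zero ?_ (Finset.prod_ne_zero_iff.2 fun l _ h0 => ?_)
  · exact (map_ne_zero_iff _ (algebraMap K L).injective).2 hh
  · obtain ⟨c, hc⟩ := hD _ h0
    apply ha l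
    have hc' : a l = algebraMap ℂ K c := hc
    rw [hc']
    exact isAlgebraic_algebraMap _

theorem sep_of_elliptic {a b : K} {g2 g3 : ℂ}
    (hab : b ^ 2 = 4 * a ^ 3 - algebraMap ℂ K g2 * a - algebraMap ℂ K g3)
    (hdisc : g2 ^ 3 ≠ 27 * g3 ^ 2) (ha : Transcendental ℂ a) : Separated K := by
  have hb : b ≠ 0 := by
    rintro rfl
    apply ha
    refine ⟨Polynomial.C 4 * Polynomial.X ^ 3 - Polynomial.C g2 * Polynomial.X - Polynomial.C g3,
      fun h0 => ?_, ?_⟩
    · have := congrArg (fun p => Polynomial.coeff p 3) h0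
      simp at this
    · simp only [map_sub, map_mul, map_pow, Polynomial.aeval_X, Polynomial.aeval_C, map_ofNat]
      rw [← hab]
      simp
  exact sep_of_prod (d := 1) one_pos (inv_ne_zero hb) (fun _ => ha) (ell_regular hab hdisc 2)

/-- the chain rule for derivations with values in an extension -/
theorem chain_ext {M : Type} [Field M] [Algebra ℂ M] [Algebra K M] [IsScalarTower ℂ K M]
    {x : Fin 2 → K} {E : Fin 2 → Derivation ℂ K K} (hx : IsTranscendenceBasis ℂ x)
    (hE : ∀ i j, E i (x j) = if i = j then 1 else 0) (D : Derivation ℂ K M) (f : K) :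
    D f = ∑ j, D (x j) * algebraMap K M (E j f) := by
  have h1 := Pool.Agent.W619.TW.der_zero (D -
    ∑ j, D (x j) • (Algebra.linearMap K M).compDer (E j)) x hx (fun i => by
      rw [Derivation.sub_apply]
      have h0 : ∀ j, ((Algebra.linearMap K M).compDer (E j)) (x i) =
          algebraMap K M (E j (x i)) := fun j => rfl
      have h2 : (∑ j, D (x j) • (Algebra.linearMap K M).compDer (E j)) (x i) =
          ∑ j, D (x j) * algebraMap K M (E j (x i)) := by
        rw [Fin.sum_univ_two, Fin.sum_univ_two]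
        rfl
      rw [h2]
      simp only [hE]
      rw [Fin.sum_univ_two]
      fin_cases i <;> simp) f
  rw [Derivation.sub_apply, sub_eq_zero] at h1
  rw [h1, Fin.sum_univ_two, Fin.sum_univ_two]
  rfl

theorem app_expand {M : Type} [Field M] [Algebra ℂ M] [Algebra K M] [IsScalarTower ℂ K M]
    {x : Fin 2 → K} {E : Fin 2 → Derivation ℂ K K} (hx : IsTranscendenceBasis ℂ x)
    (hE : ∀ i j, E i (x j) = if i = j then 1 else 0) (D : Derivation ℂ K M) {s : SymD K}
    (hs : s.d = 1) : s.app D = D (x 0) * algebraMap K M (s.app (E 0)) +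
      D (x 1) * algebraMap K M (s.app (E 1)) := by
  obtain ⟨d, r, h, f⟩ := s
  subst hs
  unfold SymD.app
  simp only [Fin.prod_univ_one, Fin.isValue]
  rw [map_sum, map_sum, Finset.mul_sum, Finset.mul_sum, ← Finset.sum_add_distrib]
  refine Finset.sum_congr rfl fun j _ => ?_
  rw [chain_ext hx hE D (f j 0), Fin.sum_univ_two]
  simp only [Algebra.algebraMap_self, RingHom.id_apply, map_mul]
  ring

/-- two regular 1-forms whose product is not zero -/
theorem sep_of_forms (htr : Algebra.trdeg ℂ K = 2) {s t : SymD K} (hs : s.d = 1) (ht : t.d = 1)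
    (hsr : s.Regular 2) (htr' : t.Regular 2) {D1 D2 : Derivation ℂ K K}
    (hst : s.app D1 * t.app D2 ≠ s.app D2 * t.app D1) : Separated K := by
  classical
  intro M _ _ _ _ D hD
  by_contra hcon
  push Not at hcon
  have h1 : s.app D = 0 := hcon s (by omega) hsr
  have h2 : t.app D = 0 := hcon t (by omega) htr'
  obtain ⟨B, hB⟩ := exists_isTranscendenceBasis ℂ K
  have hcard : Cardinal.mk B = 2 := by
    rw [← htr]
    exact hB.cardinalMk_eq_trdeg
  have hfin : Finite B := by
    rw [← Cardinal.mk_lt_aleph0_iff, hcard]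
    exact_mod_cast Cardinal.natCast_lt_aleph0 (n := 2)
  have hnat : Nat.card B = 2 := by
    have : Cardinal.toNat (Cardinal.mk B) = 2 := by rw [hcard]; simp
    exact this
  let e : Fin 2 ≃ B := (Finite.equivFinOfCardEq hnat).symm
  let x : Fin 2 → K := fun i => (e i : K)
  have hx : IsTranscendenceBasis ℂ x := by
    have := hB.comp_equiv e
    exact this
  have hex : ∀ i : Fin 2, ∃ E : Derivation ℂ K K, ∀ j, E (x j) = if i = j then 1 else 0 := fun i =>
    Pool.Agent.W602.GT.exists_der x hx (fun j => if i = j then 1 else 0)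
  choose E hE using hex
  have key : ∀ D' : Derivation ℂ K K, ∀ s : SymD K, s.d = 1 →
      s.app D' = D' (x 0) * s.app (E 0) + D' (x 1) * s.app (E 1) := fun D' s hs =>
    app_expand (M := K) hx hE D' hs
  have hdet : s.app (E 0) * t.app (E 1) - s.app (E 1) * t.app (E 0) ≠ 0 := by
    intro h0
    apply hst
    rw [key D1 s hs, key D2 t ht, key D2 s hs, key D1 t ht]
    linear_combination (D1 (x 0) * D2 (x 1) - D1 (x 1) * D2 (x 0)) * h0
  rw [app_expand hx hE D hs] at h1
  rw [app_expand hx hE D ht] at h2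
  have hdet' : algebraMap K M (s.app (E 0)) * algebraMap K M (t.app (E 1)) -
      algebraMap K M (s.app (E 1)) * algebraMap K M (t.app (E 0)) ≠ 0 := by
    rw [← map_mul, ← map_mul, ← map_sub]
    exact (map_ne_zero _).2 hdet
  have h3 : D (x 0) = 0 := by
    apply (mul_eq_zero.1 (_ : D (x 0) * (algebraMap K M (s.app (E 0)) *
      algebraMap K M (t.app (E 1)) - algebraMap K M (s.app (E 1)) *
        algebraMap K M (t.app (E 0))) = 0)).resolve_right hdet'
    linear_combination algebraMap K M (t.app (E 1)) * h1 - algebraMap K M (s.app (E 1)) * h2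
  obtain ⟨c, hc⟩ := hD _ h3
  have h4 : Transcendental ℂ (x 0) := hx.1.transcendental 0
  rw [hc] at h4
  exact h4 (isAlgebraic_algebraMap c)

end Pool.Agent.T2h91
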