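import Pool.Agent.T2h91.ODefs
import Pool.Agent.T2h91.OOde
import Pool.Agent.T2h91.Surf
import Pool.Agent.Y189.DC.Fin

/-!
Entire curves given by linear differential or functional equations, and maps from elliptic curves
over number fields.
-/

set_option autoImplicit false

open Filter Topology LinearAlgebra.Projectivization Polynomial
open scoped LinearAlgebra.Projectivization

namespace Pool.Agent.T2h91

open Pool.Agent.W602.GT (IsForm val val_smul Cone SubVar GeneralType)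
open Pool.Agent.N154.TB (CurveIn IsConst Elliptic)
open Pool.Agent.TH143.EL (Rep InV TorusMapsIn TrOne LinB)
open Pool.Agent.Y189.DC (NCE Base FunEq)
open Pool.Agent.Q103.AR

variable {n : ℕ} {ι ι' : Type}

/-! ### Comparison of the definitions -/

theorem cone_iff {F : ι → MvPolynomial (Fin (n + 1)) ℂ} (hF : ∀ i, IsForm (F i))
    {f : ℂ → ℙ ℂ (Fin (n + 1) → ℂ)} :
    CurveIn (Cone F) f ↔ Pool.Agent.TH143.EL.HolMap f ∧
      ∀ z, InV (Ideal.span (Set.range F)) (f z) := by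
  constructor
  · rintro ⟨h1, h2⟩
    exact ⟨holMap_iff.2 h1, fun z => (inV_span F hF _).2 (h2 z).2⟩
  · rintro ⟨h1, h2⟩
    exact ⟨holMap_iff.1 h1, fun z => ⟨(f z).rep_nonzero, (inV_span F hF _).1 (h2 z)⟩⟩

theorem inZ_iff {P : ι' → MvPolynomial (Fin (n + 1)) ℂ} (hP : ∀ i, IsForm (P i))
    {f : ℂ → ℙ ℂ (Fin (n + 1) → ℂ)} :
    InZ P f ↔ ∀ z, InV (Ideal.span (Set.range P)) (f z) :=
  forall_congr' fun _ => (inV_span P hP _).symm

theorem notConst_iff {f : ℂ → ℙ ℂ (Fin (n + 1) → ℂ)} : ¬ IsConst f ↔ ∃ z w, f z ≠ f w := by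
  unfold IsConst
  push Not
  rfl

theorem torus_iff {F : ι → MvPolynomial (Fin (n + 1)) ℂ} (hF : ∀ i, IsForm (F i))
    {P : ι' → MvPolynomial (Fin (n + 1)) ℂ} (hP : ∀ i, IsForm (P i)) :
    TorusIn F P ↔ TorusMapsIn (Ideal.span (Set.range F)) (Ideal.span (Set.range P)) := by
  constructor
  · intro h ω₁ ω₂ hind f hf h1 h2 hI hnc
    rcases h f ((cone_iff hF).2 ⟨hf, hI⟩) (elliptic_of hind h1 h2) with h3 | h3
    · exact absurd h3 (notConst_iff.2 hnc)
    · exact (inZ_iff hP).1 h3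
  · rintro h f hf ⟨L, hL⟩
    by_cases hc : IsConst f
    · exact Or.inl hc
    · right
      rw [inZ_iff hP]
      obtain ⟨h1, h2⟩ := (cone_iff hF).1 hf
      exact h L.ω₁ L.ω₂ L.indep f h1 (hL _ L.ω₁_mem_lattice) (hL _ L.ω₂_mem_lattice) h2
        (notConst_iff.1 hc)

theorem linear_of_torus {F : ι → MvPolynomial (Fin (n + 1)) ℂ} (hF : ∀ i, IsForm (F i))
    {P : ι' → MvPolynomial (Fin (n + 1)) ℂ} (hP : ∀ i, IsForm (P i)) (h : TorusIn F P) :
    LinearIn F P := by
  rintro f hf ⟨B, hB, g, hm, hl, hr⟩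
  by_cases hc : IsConst f
  · exact Or.inl hc
  · right
    rw [inZ_iff hP]
    obtain ⟨h1, h2⟩ := (cone_iff hF).1 hf
    exact Pool.Agent.TH143.EL.main ((torus_iff hF hP).1 h) hB h1 hm hl hr h2 (notConst_iff.1 hc)

theorem functional_iff {F : ι → MvPolynomial (Fin (n + 1)) ℂ} (hF : ∀ i, IsForm (F i))
    {P : ι' → MvPolynomial (Fin (n + 1)) ℂ} (hP : ∀ i, IsForm (P i)) :
    TorusIn F P ↔ FunctionalIn F P := by
  rw [torus_iff hF hP, Pool.Agent.Y189.DC.final]
  constructor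
  · intro h f hf
    by_cases hc : IsConst f
    · exact Or.inl hc
    by_cases hz : InZ P f
    · exact Or.inr (Or.inl hz)
    right; right
    obtain ⟨h1, h2⟩ := (cone_iff hF).1 hf
    rw [inZ_iff hP] at hz
    push Not at hz
    exact h f h1 h2 hz (notConst_iff.1 hc)
  · intro h f h1 h2 hz hc
    rcases h f ((cone_iff hF).2 ⟨h1, h2⟩) with h3 | h3 | h3
    · exact absurd h3 (notConst_iff.2 hc)
    · rw [inZ_iff hP] at h3
      obtain ⟨z, hz⟩ := hz
      exact absurd (h3 z) hz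
    · exact h3

/-! ### Certificates -/

/-- a certificate for a nonconstant map from an elliptic curve -/
def Cert {k : Type} [Field k] (F : ι → MvPolynomial (Fin (n + 1)) k)
    (P : ι' → MvPolynomial (Fin (n + 1)) k) : Prop :=
  ∃ (l : ι') (R : Type) (_ : CommRing R) (_ : IsDomain R) (_ : Algebra k R)
    (_ : Algebra.FiniteType k R) (a b : R) (w : Fin (n + 1) → R[X] × R[X]) (z : R[X] × R[X])
    (r r₁ r₂ : Bool × ℕ) (i j : Fin (n + 1)),
    (∀ e, evk a b w (F e) = 0) ∧ evk a b w (P l) = El a b z.1 z.2 ∧ cf z r ≠ 0 ∧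
      mn (w i) (w j) r₁ r₂ ≠ 0 ∧ 4 * a ^ 3 + 27 * b ^ 2 ≠ 0

section

variable {k : Type} [Field k]

theorem cert_of_low {F : ι → MvPolynomial (Fin (n + 1)) k} (hF : ∀ i, IsForm (F i))
    {P : ι' → MvPolynomial (Fin (n + 1)) k} (hP : ∀ i, IsForm (P i)) (σ : k →+* ℂ)
    {K : Type} [Field K] [Algebra ℂ K] {y : Fin (n + 1) → K} (hy : SubVar (base σ F) K 1 y)
    (hgt : ¬ GeneralType ℂ K 1) (l : ι') (hl : val y (base σ P l) ≠ 0) : Cert F P := by
  obtain ⟨E, i1, i2, φ, a, b, x, z, i, j, hab, hxz, hgen, hj, htr⟩ := ell_of_low hy hgt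
  let _ : Algebra k ℂ := σ.toAlgebra
  have hmap : algebraMap k ℂ = σ := rfl
  have hval : ∀ H : MvPolynomial (Fin (n + 1)) ℂ, val (fun l => φ (y l)) H = φ (val y H) := by
    intro H
    unfold val
    rw [MvPolynomial.comp_aeval_apply]
  obtain ⟨R, i1, i2, i3, i4, a₀, b₀, w, z, r, r₁, r₂, h⟩ :=
    cert F hF (P l) (hP l) hab hxz hgen (fun l => φ (y l)) i j hj htr (fun e => by
      rw [hmap, hval]
      have := hy.mem e
      unfold base at this
      rw [this, map_zero]) (by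
      rw [hmap, hval]
      exact (map_ne_zero φ).2 hl)
  exact ⟨l, R, i1, i2, i3, i4, a₀, b₀, w, z, r, r₁, r₂, i, j, h⟩

theorem cert_of_ell {F : ι → MvPolynomial (Fin (n + 1)) k} (hF : ∀ i, IsForm (F i))
    {P : ι' → MvPolynomial (Fin (n + 1)) k} (hP : ∀ i, IsForm (P i)) (h : ¬ NoEll F P) :
    Cert F P := by
  unfold NoEll at h
  push Not at h
  obtain ⟨L, j1, j2, j3, a, b, hab, M, j4, j5, x, y, -, hxy, htop, u, hu, ⟨l, hl⟩, i, j, hj, htr⟩ := h
  obtain ⟨R, i1, i2, i3, i4, a₀, b₀, w, z, r, r₁, r₂, h⟩ :=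
    cert F hF (P l) (hP l) hab hxy htop u i j hj htr hu hl
  exact ⟨l, R, i1, i2, i3, i4, a₀, b₀, w, z, r, r₁, r₂, i, j, h⟩

/-- doubly periodic curves are curves of genus at most one -/
theorem low_of_torus {F : ι → MvPolynomial (Fin (n + 1)) ℂ} (hF' : ∀ i, IsForm (F i))
    {P : ι' → MvPolynomial (Fin (n + 1)) ℂ} (hP' : ∀ i, IsForm (P i))
    {g : ℂ → ℙ ℂ (Fin (n + 1) → ℂ)} (hg : CurveIn (Cone F) g) (hell : Elliptic g)
    (hc : ¬ IsConst g) (hz : ¬ InZ P g) :
    ∃ (K : Type) (_ : Field K) (_ : Algebra ℂ K) (y : Fin (n + 1) → K), SubVar F K 1 y ∧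
      ¬ GeneralType ℂ K 1 ∧ ∃ l, val y (P l) ≠ 0 := by
  open Pool.Agent.N155 Pool.Agent.N154.GG Pool.Agent.Y190.OP in
  obtain ⟨L, hL⟩ := hell
  set φ : ℂ → Mat (n + 1) := fun z => Phi (g z).rep with hφ
  have hol : HolP Set.univ φ := holP_of hg.1
  have hp : ∀ z, φ (z + L.ω₁) = φ z := fun z => by
    simp only [hφ]
    rw [hL L.ω₁ L.ω₁_mem_lattice]
  have hq : ∀ z, φ (z + L.ω₂) = φ z := fun z => by
    simp only [hφ]
    rw [hL L.ω₂ L.ω₂_mem_lattice]
  obtain ⟨B, hB⟩ := bounded_of_periodic hol L.indep hp hq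
  obtain ⟨K1, _, _, w, y1, hy1, hgen, hw, hrel, hw0⟩ := exists_closure hol
  have hmem : ∀ z, φ z ∈ TX y1 := by
    intro z
    refine ⟨(g z).rep, ⟨(g z).rep_nonzero, fun G hG h0 => ?_⟩, rfl⟩
    obtain ⟨d, hd⟩ := id hG
    have h1 := (hrel G hG).1 h0 z
    rw [hφ] at h1
    simp only at h1
    rw [nz_Phi hd (g z).rep_nonzero, not_not] at h1
    rwa [val_eval]
  rcases Nat.lt_or_ge w 2 with hw2 | hw2
  · interval_cases w
    · exfalso
      apply hc
      intro z z'
      apply proj_ext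
      exact (hw0 rfl z).trans (hw0 rfl z').symm
    · have hcv : Cv y1 φ := ⟨hol, hmem, fun G hG hv => by
        by_contra hcon
        push Not at hcon
        exact hv ((hrel G hG).2 hcon)⟩
      refine ⟨K1, inferInstance, inferInstance, y1, ⟨hy1, fun i => ?_, hgen, hw⟩,
        crv_not_general hgen hcv hB, ?_⟩
      · rw [hrel _ (hF' i)]
        intro z
        obtain ⟨d, hd⟩ := hF' i
        rw [hφ]
        simp only
        rw [nz_Phi hd (g z).rep_nonzero, not_not]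
        have := (hg.2 z).2 i
        rwa [val_eval] at this
      · by_contra hcon
        push Not at hcon
        apply hz
        intro z j
        have h2 := (hrel _ (hP' j)).1 (hcon j) z
        obtain ⟨d, hd⟩ := hP' j
        rw [hφ] at h2
        simp only at h2
        rw [nz_Phi hd (g z).rep_nonzero, not_not] at h2
        rwa [val_eval]
  · exfalso
    obtain ⟨G, hG, hGy, hGz⟩ := doubly_periodic_not_dense hgen hw hw2 hol hmem L.indep hp hq
    exact hGy ((hrel G hG).2 hGz)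

end

end Pool.Agent.T2h91
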