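import Pool.Agent.T2h91.Defs
import Pool.Agent.T2h91.Ind
import Pool.Agent.T2h91.Kob
import Pool.Agent.N155.Dns
import Pool.Agent.N154.TB.AGeo

/-!
Doubly periodic entire curves and curves of genus at most one in varieties over number fields.
-/

set_option autoImplicit false

open Filter Topology Metric Set LinearAlgebra.Projectivization

namespace Pool.Agent.T2h91

open FF Pool.Agent.Y190.OP Pool.Agent.W602.GT
open Pool.Agent.N154.TB
open Pool.Agent.N155 (TX Cv crv_not_general exists_closure exists_shift per_int val_eval nz nz_Phi)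
open Pool.Agent.N154.GG (toProj Phi_rep_toProj proj_ext holMap_of holP_of fderiv_cont
  doubly_periodic_not_dense)

variable {n : ℕ} {ι ι' : Type} {k : Type} [Field k] [NumberField k]

variable {F : ι → MvPolynomial (Fin (n + 1)) k} {P : ι' → MvPolynomial (Fin (n + 1)) k}

/-- curves which are not of general type lie in `Z` -/
theorem Few.low (h : Few F P) (hF : ∀ i, IsForm (F i)) (hP : ∀ j, IsForm (P j)) (σ : k →+* ℂ)
    {K : Type} [Field K] [Algebra ℂ K] {y : Fin (n + 1) → K} (hy : SubVar (base σ F) K 1 y)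
    (hgt : ¬ GeneralType ℂ K 1) (j : ι') : val y (base σ P j) = 0 := by
  by_contra hne
  rcases h with h | ⟨τ, h⟩
  · apply hgt
    refine gt_of_finite σ F hF (P j) (hP j) (fun L _ _ _ => ?_) hy hne
    exact (h L).subset fun x hx => ⟨hx.1, j, hx.2⟩
  · obtain ⟨f, hf, hnc, t, ht⟩ := curve_of_low σ τ F hF (P j) (hP j) hy hne hgt
    rcases h f hf with h1 | h1
    · exact hnc h1
    · exact ht (h1 t j)

/-- the derivative of a doubly periodic curve is bounded -/
theorem bounded_of_periodic {φ : ℂ → Mat (n + 1)} (hol : HolP univ φ) {p q : ℂ}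
    (hind : LinearIndependent ℝ ![p, q]) (hp : ∀ z, φ (z + p) = φ z) (hq : ∀ z, φ (z + q) = φ z) :
    ∃ B : ℝ, ∀ z, ‖fderiv ℝ φ z‖ ≤ B := by
  have hper : ∀ {p : ℂ}, (∀ z, φ (z + p) = φ z) → ∀ z, fderiv ℝ φ (z + p) = fderiv ℝ φ z := by
    intro p hp z
    have h1 : fderiv ℝ (fun w => φ (w + p)) z = fderiv ℝ φ (z + p) := fderiv_comp_add_right p
    rw [← h1]
    congr 1
    funext w
    exact hp w
  obtain ⟨B, hB⟩ := (isCompact_closedBall (0 : ℂ) (‖p‖ + ‖q‖)).exists_bound_of_continuousOn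
    (fderiv_cont hol).continuousOn
  refine ⟨B, fun z => ?_⟩
  obtain ⟨m, l, hml⟩ := exists_shift hind z
  have h1 : (fun w => ‖fderiv ℝ φ w‖) (z + (m * p + l * q)) = (fun w => ‖fderiv ℝ φ w‖) z :=
    per_int (b := fun w => ‖fderiv ℝ φ w‖) (fun w => by simp only [hper hp])
      (fun w => by simp only [hper hq]) m l z
  simp only at h1
  rw [← h1]
  exact hB _ (by rwa [mem_closedBall_zero_iff])

/-- **Doubly periodic curves** lie in `Z`. -/
theorem Few.ell (h : Few F P) (hF : ∀ i, IsForm (F i)) (hP : ∀ j, IsForm (P j)) (σ : k →+* ℂ)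
    {g : ℂ → ℙ ℂ (Fin (n + 1) → ℂ)} (hg : CurveIn (Cone (base σ F)) g) (hell : Elliptic g) :
    IsConst g ∨ ∀ z j, val (g z).rep (base σ P j) = 0 := by
  have hF' : ∀ i, IsForm (base σ F i) := fun i => by
    obtain ⟨d, hd⟩ := hF i
    exact ⟨d, hd.map σ⟩
  have hP' : ∀ i, IsForm (base σ P i) := fun i => by
    obtain ⟨d, hd⟩ := hP i
    exact ⟨d, hd.map σ⟩
  obtain ⟨L, hL⟩ := hell
  set φ : ℂ → Mat (n + 1) := fun z => Phi (g z).rep with hφ
  have hol : HolP univ φ := holP_of hg.1
  have hp : ∀ z, φ (z + L.ω₁) = φ z := fun z => by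
    simp only [hφ]
    rw [hL L.ω₁ L.ω₁_mem_lattice]
  have hq : ∀ z, φ (z + L.ω₂) = φ z := fun z => by
    simp only [hφ]
    rw [hL L.ω₂ L.ω₂_mem_lattice]
  obtain ⟨B, hB⟩ := bounded_of_periodic hol L.indep hp hq
  obtain ⟨K1, _, _, w, y1, hy1, hgen, hw, hrel, hw0⟩ := exists_closure hol
  have hmem : ∀ z, φ z ∈ TX y1 := by
    intro z
    refine ⟨(g z).rep, ⟨(g z).rep_nonzero, fun G hG h0 => ?_⟩, rfl⟩
    obtain ⟨d, hd⟩ := id hG
    have h1 := (hrel G hG).1 h0 z
    rw [hφ] at h1
    simp only at h1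
    rw [nz_Phi hd (g z).rep_nonzero, not_not] at h1
    rwa [val_eval]
  rcases Nat.lt_or_ge w 2 with hw2 | hw2
  · interval_cases w
    · left
      intro z z'
      apply proj_ext
      exact (hw0 rfl z).trans (hw0 rfl z').symm
    · right
      have hcv : Cv y1 φ := ⟨hol, hmem, fun G hG hv => by
        by_contra hcon
        push Not at hcon
        exact hv ((hrel G hG).2 hcon)⟩
      have hsub : SubVar (base σ F) K1 1 y1 := ⟨hy1, fun i => by
        rw [hrel _ (hF' i)]
        intro z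
        obtain ⟨d, hd⟩ := hF' i
        rw [hφ]
        simp only
        rw [nz_Phi hd (g z).rep_nonzero, not_not]
        have := (hg.2 z).2 i
        rwa [val_eval] at this, hgen, hw⟩
      intro z j
      have h1 := h.low hF hP σ hsub (crv_not_general hgen hcv hB) j
      have h2 := (hrel _ (hP' j)).1 h1 z
      obtain ⟨d, hd⟩ := hP' j
      rw [hφ] at h2
      simp only at h2
      rw [nz_Phi hd (g z).rep_nonzero, not_not] at h2
      rwa [val_eval]
  · exfalso
    obtain ⟨G, hG, hGy, hGz⟩ := doubly_periodic_not_dense hgen hw hw2 hol hmem L.indep hp hq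
    exact hGy ((hrel G hG).2 hGz)

end Pool.Agent.T2h91
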