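import Pool.Agent.N155.L.SDefs
import Pool.Agent.T2h91.Defs

/-!
Surfaces with many regular symmetric differentials.
-/

set_option autoImplicit false

open Pool.Agent.N155 (SymD)

namespace Pool.Agent.T2h91

/-- No direction is annihilated by all the regular symmetric differentials of the surface with
function field `K`: for every derivation `D` of `K` with values in an extension field whose
constants in `K` are the complex numbers only, some regular symmetric differential of positive
degree has a nonzero value on `D`. -/
def Separated (K : Type) [Field K] [Algebra ℂ K] : Prop :=
  ∀ (M : Type) [Field M] [Algebra ℂ M] [Algebra K M] [IsScalarTower ℂ K M] (D : Derivation ℂ K M),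
    (∀ h, D h = 0 → ∃ c : ℂ, h = algebraMap ℂ K c) →
    ∃ s : SymD K, 0 < s.d ∧ s.Regular 2 ∧ s.app D ≠ 0

end Pool.Agent.T2h91
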